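import Pool.Agent.SYT.MC

/-! The moderate components have mass at least `n / 16` (project SYT). -/

set_option autoImplicit false

open Finset

namespace Pool.Agent.SYT

variable {V : Type} [Fintype V] [DecidableEq V]

open Classical in
/-- the states in moderate components -/
noncomputable def modr (Γ : Subgroup (Equiv.Perm V)) : Finset V :=
  univ.filter fun x => (cls Γ x).card * (comps Γ).card ≤ 2 * Fintype.card V

theorem mem_modr {Γ : Subgroup (Equiv.Perm V)} {x : V} :
    x ∈ modr Γ ↔ (cls Γ x).card * (comps Γ).card ≤ 2 * Fintype.card V := by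
  simp [modr]

variable (S : Sys V)

theorem mass {P1 : Set (Equiv.Perm V)} (h1 : P1 ⊆ S.P)
    (hM : 3 * Fintype.card V ^ 2 ≤ 8 * S.M) :
    Fintype.card V ≤ 16 * (modr (Subgroup.closure P1)).card := by
  classical
  rcases Nat.eq_zero_or_pos (Fintype.card V) with h0 | hn
  · rw [h0]
    exact Nat.zero_le _
  have hne : Nonempty V := Fintype.card_pos_iff.1 hn
  set Γ := Subgroup.closure P1 with hΓ
  have hr : 1 ≤ (comps Γ).card := comps_pos
  set n := Fintype.card V with hndef
  set r := (comps Γ).card with hrdef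
  have hY8 : ∀ Y ∈ comps Γ, n ≤ 8 * (r * Y.card) := by
    intro Y hY
    have h2 : S.M ≤ Y.card * n + 2 * n * (r * Y.card) := mc S h1 hY
    have h3 : Y.card ≤ r * Y.card := Nat.le_mul_of_pos_left _ hr
    have h4 : 3 * n * n ≤ 3 * n * (8 * (r * Y.card)) := by nlinarith
    exact Nat.le_of_mul_le_mul_left h4 (by omega)
  have hmod : (modr Γ).card = ∑ Y ∈ comps Γ, if Y.card * r ≤ 2 * n then Y.card else 0 := by
    have h2 : (modr Γ).card = ∑ x, if (cls Γ x).card * r ≤ 2 * n then 1 else 0 := by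
      unfold modr
      rw [card_filter]
    rw [h2, ← sum_comps (Γ := Γ)]
    refine sum_congr rfl fun Y hY => ?_
    have h3 : ∀ x ∈ Y, (if (cls Γ x).card * r ≤ 2 * n then 1 else 0) =
        if Y.card * r ≤ 2 * n then 1 else 0 := by
      intro x hx
      rw [← eq_cls hY hx]
    rw [sum_congr rfl h3, sum_const, smul_eq_mul]
    split_ifs <;> simp
  rw [hmod]
  have hsum : ∑ Y ∈ comps Γ, Y.card = n := sum_card_comps
  have h5 : ∀ Y ∈ comps Γ, 2 * n + (if Y.card * r ≤ 2 * n then 0 else 0) ≤ Y.card * r +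
      2 * n * (if Y.card * r ≤ 2 * n then 1 else 0) := by
    intro Y _
    split_ifs with h
    · omega
    · omega
  have h6 : ∀ Y ∈ comps Γ, n * (if Y.card * r ≤ 2 * n then 1 else 0) ≤
      8 * r * (if Y.card * r ≤ 2 * n then Y.card else 0) := by
    intro Y hY
    have := hY8 Y hY
    split_ifs with h
    · rw [mul_one, mul_assoc]
      exact this
    · simp
  obtain ⟨m, hm⟩ : ∃ m, m = ∑ Y ∈ comps Γ, (if Y.card * r ≤ 2 * n then 1 else 0) := ⟨_, rfl⟩
  obtain ⟨T, hT⟩ : ∃ T, T = ∑ Y ∈ comps Γ, (if Y.card * r ≤ 2 * n then Y.card else 0) := ⟨_, rfl⟩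
  have h7 : r * (2 * n) ≤ n * r + 2 * n * m := by
    have h8 := sum_le_sum h5
    rw [sum_add_distrib, sum_add_distrib, sum_const, smul_eq_mul, ← sum_mul, hsum, ← mul_sum,
      ← hm] at h8
    simpa using h8
  have h9 : n * m ≤ 8 * r * T := by
    have h8 := sum_le_sum h6
    rwa [← mul_sum, ← mul_sum, ← hm, ← hT] at h8
  rw [← hT]
  have h10 : r * n ≤ r * (16 * T) := by nlinarith
  exact Nat.le_of_mul_le_mul_left h10 hr

open Classical in
theorem same_comp (Γ : Subgroup (Equiv.Perm V)) :
    (comps Γ).card * (univ.filter fun p : V × V =>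
      p.1 ∈ modr Γ ∧ cls Γ p.1 = cls Γ p.2).card ≤ 2 * Fintype.card V ^ 2 := by
  have h1 : (univ.filter fun p : V × V => p.1 ∈ modr Γ ∧ cls Γ p.1 = cls Γ p.2).card =
      ∑ x, ∑ v, if x ∈ modr Γ ∧ cls Γ x = cls Γ v then 1 else 0 := by
    rw [card_filter, Fintype.sum_prod_type]
  rw [h1, mul_sum]
  have h2 : ∀ x ∈ (univ : Finset V), (comps Γ).card *
      (∑ v, if x ∈ modr Γ ∧ cls Γ x = cls Γ v then 1 else 0) ≤ 2 * Fintype.card V := by
    intro x _
    by_cases hx : x ∈ modr Γ
    · have h3 : (∑ v, if x ∈ modr Γ ∧ cls Γ x = cls Γ v then 1 else 0) = (cls Γ x).card := by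
        rw [← card_filter]
        congr 1
        ext v
        rw [mem_filter, mem_cls_iff]
        constructor
        · rintro ⟨_, _, h⟩
          exact h.symm
        · intro h
          exact ⟨mem_univ _, hx, h.symm⟩
      rw [h3, mul_comm]
      exact mem_modr.1 hx
    · have h3 : (∑ v, if x ∈ modr Γ ∧ cls Γ x = cls Γ v then 1 else 0) = 0 := by
        refine sum_eq_zero fun v _ => ?_
        rw [if_neg]
        exact fun h => hx h.1
      rw [h3, mul_zero]
      exact Nat.zero_le _
  refine (sum_le_sum h2).trans ?_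
  rw [sum_const, card_univ, smul_eq_mul]
  exact le_of_eq (by ring)

end Pool.Agent.SYT
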