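import Pool.Agent.SYT.Tree
import Pool.Agent.SYT.Mass

/-!
# SYT-BadC: the number of bad pairs over moderate components

Project SYT (MP_a3a126_co), paper proof in /team-store/a3a126_87.md, section 2 (COUNT, bad).
`r ≥ 4` = number of components, `n = card V`, `Γ = closure P1`. A bad pair `p = (x, v)`: `X = cls x ≠ Z = cls v`,
`p ∉ Coll`, not `Good`, both components moderate. Then `p.swap = (v, x) ∈ base X` lies in exactly one sheet
`Q' = S.sh X p.swap` of `X`. Fix `X` and a sheet `Q'` of `X`.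
(a) All the bad pairs `p` with `p.swap ∈ Q'` have the same `Z = cls p.2`: if `p`, `p'` are bad and
`cls p'.2 ≠ cls p.2` then `q = p'.swap ∈ Q'` is not in `Coll` and `q.1 = p'.2 ∉ cls p.2`, so `p` would be `Good`.
(b) So their number is at most `#{q ∈ Q' : q.1 ∈ Z} = ∑_{v ∈ Z} phi Q' v = |Z| phi Q' z` for `z ∈ Z`
(`sum_phi_set`, `phi_const`).
(c) All `q ∈ Q'` with `q.1 ∉ Z` are in `Coll` (not `Good`): `∑_{u ∉ Z} phi Q' u ≤ |Coll ∩ Q'|`, and
`phi Q' z ≤ phi Q' u + o` (`osc`, `o = o Q'`): `(n - |Z|)(phi Q' z - o) ≤ |Coll ∩ Q'|`.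
(d) `r |Z| ≤ 2 n`, `r ≥ 4` give `n ≤ 2 (n - |Z|)`, so
`r * number ≤ r |Z| o + r |Z| (phi Q' z - o) ≤ 2 n o + 2 n (phi Q' z - o) ≤ 2 n o + 4 |Coll ∩ Q'|`.
Sum over `X` and `Q'`: `r * number ≤ 2 n (2 k r) + 4 |Coll|` (`osc`; the sets `Coll ∩ Q'` are disjoint).
-/

set_option autoImplicit false

open Finset

namespace Pool.Agent.SYT

variable {V : Type} [Fintype V] [DecidableEq V] (S : Sys V)

open Classical in
private theorem coll_sum (Γ : Subgroup (Equiv.Perm V)) :
    ∑ X ∈ comps Γ, ∑ Q ∈ S.sheets X, (Q.filter fun q => q ∈ S.Coll).card ≤ S.Coll.card := by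
  have h1 : ∀ X ∈ comps Γ, ∑ Q ∈ S.sheets X, (Q.filter fun q => q ∈ S.Coll).card ≤
      ∑ x ∈ X, (S.Coll.filter fun q => q.2 = x).card := by
    intro X _
    have h2 : ∀ Q ∈ S.sheets X, (Q.filter fun q => q ∈ S.Coll).card =
        ∑ q ∈ Q, if q ∈ S.Coll then 1 else 0 := by
      intro Q _
      rw [card_filter]
    rw [sum_congr rfl h2, sum_sheets S X (fun q => if q ∈ S.Coll then 1 else 0), ← card_filter]
    have h3 : ((base X).filter fun q => q ∈ S.Coll) ⊆
        X.biUnion fun x => S.Coll.filter fun q => q.2 = x := by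
      intro q hq
      rw [mem_filter] at hq
      rw [mem_biUnion]
      exact ⟨q.2, (mem_base.1 hq.1).2, mem_filter.2 ⟨hq.2, rfl⟩⟩
    exact (card_le_card h3).trans card_biUnion_le
  refine (sum_le_sum h1).trans ?_
  rw [sum_comps (Γ := Γ) (fun x => (S.Coll.filter fun q => q.2 = x).card)]
  have h4 := card_eq_sum_card_fiberwise (f := fun q : V × V => q.2) (s := S.Coll)
    (t := (univ : Finset V)) (fun q _ => by simp)
  rw [h4]

open Classical in
theorem bad_count {P1 : Set (Equiv.Perm V)} (h1 : P1 ⊆ S.P) {k : ℕ}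
    (hk : ∀ g ∈ S.P, (Dst (Subgroup.closure P1) g).card ≤ k)
    (hr : 4 ≤ (comps (Subgroup.closure P1)).card) :
    (comps (Subgroup.closure P1)).card * (univ.filter fun p : V × V =>
      cls (Subgroup.closure P1) p.1 ≠ cls (Subgroup.closure P1) p.2 ∧ p ∉ S.Coll ∧
      ¬ S.Good (Subgroup.closure P1) p ∧ p.1 ∈ modr (Subgroup.closure P1) ∧
      p.2 ∈ modr (Subgroup.closure P1)).card ≤
    4 * Fintype.card V * (k * (comps (Subgroup.closure P1)).card) + 4 * S.Coll.card := by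
  obtain ⟨Γ, hΓ⟩ : ∃ Γ, Γ = Subgroup.closure P1 := ⟨_, rfl⟩
  obtain ⟨o, ho1, ho2⟩ := osc S h1 hk
  rw [← hΓ] at ho1 ho2 hr ⊢
  obtain ⟨B, hB⟩ : ∃ B : Finset (V × V), B = univ.filter fun p : V × V =>
      cls Γ p.1 ≠ cls Γ p.2 ∧ p ∉ S.Coll ∧ ¬ S.Good Γ p ∧ p.1 ∈ modr Γ ∧ p.2 ∈ modr Γ := ⟨_, rfl⟩
  have hmB : ∀ p, p ∈ B ↔ (cls Γ p.1 ≠ cls Γ p.2 ∧ p ∉ S.Coll ∧ ¬ S.Good Γ p ∧ p.1 ∈ modr Γ ∧
      p.2 ∈ modr Γ) := by
    intro p
    rw [hB, mem_filter]
    exact ⟨fun h => h.2, fun h => ⟨mem_univ _, h⟩⟩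
  rw [← hB]
  have hcov : B.card ≤ ∑ X ∈ comps Γ, ∑ Q ∈ S.sheets X, (Q.filter fun q => q.swap ∈ B).card := by
    have hsub : B.map (Equiv.prodComm V V).toEmbedding ⊆
        (comps Γ).biUnion fun X => (S.sheets X).biUnion fun Q => Q.filter fun q => q.swap ∈ B := by
      intro q hq
      rw [mem_map] at hq
      obtain ⟨p, hp, rfl⟩ := hq
      have hpB := (hmB p).1 hp
      have hne : p.1 ≠ p.2 := fun h => hpB.1 (by rw [h])
      rw [mem_biUnion]
      refine ⟨cls Γ p.1, cls_mem_comps _, ?_⟩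
      rw [mem_biUnion]
      have hb : p.swap ∈ base (cls Γ p.1) := mem_base.2 ⟨fun h => hne h.symm, self_mem_cls _⟩
      refine ⟨S.sh (cls Γ p.1) p.swap, sh_mem_sheets S hb, ?_⟩
      rw [mem_filter]
      refine ⟨self_mem_sh S _ _, ?_⟩
      show p.swap.swap ∈ B
      rw [Prod.swap_swap]
      exact hp
    have h2 := card_le_card hsub
    rw [card_map] at h2
    refine h2.trans (card_biUnion_le.trans ?_)
    exact sum_le_sum fun X _ => card_biUnion_le
  have hmain : ∀ X ∈ comps Γ, ∀ Q ∈ S.sheets X,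
      (comps Γ).card * (Q.filter fun q => q.swap ∈ B).card ≤
        2 * Fintype.card V * o Q + 4 * (Q.filter fun q => q ∈ S.Coll).card := by
    intro X hX Q hQ
    rcases (Q.filter fun q => q.swap ∈ B).eq_empty_or_nonempty with he | ⟨q0, hq0⟩
    · rw [he, card_empty, mul_zero]
      exact Nat.zero_le _
    · rw [mem_filter] at hq0
      obtain ⟨hq0Q, hq0B⟩ := hq0
      obtain ⟨b1, b2, b3, b4, b5⟩ := (hmB _).1 hq0B
      have hXe : X = cls Γ q0.2 := eq_cls hX (mem_base.1 (sheet_sub_base S hQ hq0Q)).2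
      have hQe : Q = S.sh X q0 := sheet_eq S hQ hq0Q
      have hc : ∀ q ∈ Q, q.1 ∉ cls Γ q0.1 → q ∈ S.Coll := by
        intro q hq hq1
        by_contra hne
        apply b3
        refine ⟨b1, b2, q, ?_, hne, hq1⟩
        show q ∈ S.sh (cls Γ q0.2) q0.swap.swap
        rw [Prod.swap_swap, ← hXe, ← hQe]
        exact hq
      have ha : (Q.filter fun q => q.swap ∈ B) ⊆ Q.filter fun q => q.1 ∈ cls Γ q0.1 := by
        intro q hq
        rw [mem_filter] at hq ⊢
        refine ⟨hq.1, ?_⟩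
        by_contra hne
        have h3 := hc q hq.1 hne
        exact ((hmB _).1 hq.2).2.1 ((swap_mem_coll S).2 h3)
      have hb : (Q.filter fun q => q.1 ∈ cls Γ q0.1).card = (cls Γ q0.1).card * phi Q q0.1 := by
        rw [sum_phi_set, sum_congr rfl (g := fun _ => phi Q q0.1), sum_const, smul_eq_mul]
        intro v hv
        rw [hΓ] at hX hv
        exact phi_const S h1 hX hQ hv
      have hcc : ((cls Γ q0.1)ᶜ).card * (phi Q q0.1 - o Q) ≤
          (Q.filter fun q => q ∈ S.Coll).card := by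
        have h3 : (Q.filter fun q => q.1 ∈ (cls Γ q0.1)ᶜ).card ≤
            (Q.filter fun q => q ∈ S.Coll).card := by
          refine card_le_card fun q hq => ?_
          rw [mem_filter] at hq ⊢
          exact ⟨hq.1, hc q hq.1 (mem_compl.1 hq.2)⟩
        refine le_trans ?_ h3
        rw [sum_phi_set, ← smul_eq_mul, ← sum_const]
        refine sum_le_sum fun u _ => ?_
        have h4 := ho1 X hX Q hQ q0.1 u
        omega
      have hz : (cls Γ q0.1).card * (comps Γ).card ≤ 2 * Fintype.card V := mem_modr.1 b5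
      have hcompl : ((cls Γ q0.1)ᶜ).card = Fintype.card V - (cls Γ q0.1).card := card_compl _
      have hle : (cls Γ q0.1).card ≤ Fintype.card V := card_le_univ _
      have h5 := card_le_card ha
      rw [hb] at h5
      rw [hcompl] at hcc
      generalize (Q.filter fun q => q.swap ∈ B).card = F at h5 ⊢
      generalize (Q.filter fun q => q ∈ S.Coll).card = C at hcc ⊢
      generalize phi Q q0.1 = φ at h5 hcc
      generalize (cls Γ q0.1).card = z at h5 hcc hz hle
      generalize (comps Γ).card = r at hr hz ⊢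
      generalize Fintype.card V = n at hz hle hcc ⊢
      generalize o Q = oo at hcc ⊢
      have h6 : 4 * z ≤ 2 * n := by nlinarith
      have h7 : n ≤ 2 * (n - z) := by omega
      have h8 : r * F ≤ 2 * n * φ := by
        calc r * F ≤ r * (z * φ) := Nat.mul_le_mul_left _ h5
          _ = (z * r) * φ := by ring
          _ ≤ 2 * n * φ := Nat.mul_le_mul_right _ hz
      have h9 : φ ≤ oo + (φ - oo) := by omega
      calc r * F ≤ 2 * n * φ := h8
        _ ≤ 2 * n * (oo + (φ - oo)) := Nat.mul_le_mul_left _ h9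
        _ = 2 * n * oo + 2 * (n * (φ - oo)) := by ring
        _ ≤ 2 * n * oo + 2 * (2 * (n - z) * (φ - oo)) := by
            have := Nat.mul_le_mul_right (φ - oo) h7
            omega
        _ = 2 * n * oo + 4 * ((n - z) * (φ - oo)) := by ring
        _ ≤ 2 * n * oo + 4 * C := by omega
  calc (comps Γ).card * B.card
      ≤ (comps Γ).card * ∑ X ∈ comps Γ, ∑ Q ∈ S.sheets X, (Q.filter fun q => q.swap ∈ B).card :=
        Nat.mul_le_mul_left _ hcov
    _ = ∑ X ∈ comps Γ, ∑ Q ∈ S.sheets X, (comps Γ).card * (Q.filter fun q => q.swap ∈ B).card := by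
        rw [mul_sum]
        exact sum_congr rfl fun X _ => mul_sum _ _ _
    _ ≤ ∑ X ∈ comps Γ, ∑ Q ∈ S.sheets X,
          (2 * Fintype.card V * o Q + 4 * (Q.filter fun q => q ∈ S.Coll).card) :=
        sum_le_sum fun X hX => sum_le_sum fun Q hQ => hmain X hX Q hQ
    _ = 2 * Fintype.card V * (∑ X ∈ comps Γ, ∑ Q ∈ S.sheets X, o Q) +
          4 * ∑ X ∈ comps Γ, ∑ Q ∈ S.sheets X, (Q.filter fun q => q ∈ S.Coll).card := by
        rw [mul_sum, mul_sum, ← sum_add_distrib]
        refine sum_congr rfl fun X _ => ?_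
        rw [mul_sum, mul_sum, ← sum_add_distrib]
    _ ≤ 2 * Fintype.card V * (2 * k * (comps Γ).card) + 4 * S.Coll.card :=
        Nat.add_le_add (Nat.mul_le_mul_left _ ho2) (Nat.mul_le_mul_left _ (coll_sum S Γ))
    _ = 4 * Fintype.card V * (k * (comps Γ).card) + 4 * S.Coll.card := by ring

end Pool.Agent.SYT
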