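import Pool.Agent.SYT.Defs

/-!
# SYT-Basic: levels, collisions, swaps

Project SYT (MP_a3a126_co), complete paper proof in /team-store/a3a126_87.md (section 0).
-/

set_option autoImplicit false

open Finset

namespace Pool.Agent.SYT

variable {V : Type} [Fintype V] [DecidableEq V]

theorem mem_off {p : V × V} : p ∈ off V ↔ p.1 ≠ p.2 := by simp [off]

theorem card_off : (off V).card = Fintype.card V * (Fintype.card V - 1) := by
  have h : off V = (univ : Finset V).offDiag := by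
    ext p; simp [off]
  rw [h, offDiag_card, card_univ, Nat.mul_sub, mul_one]

theorem mv_one (p : V × V) : mv 1 p = p := rfl

theorem mv_mul (g h : Equiv.Perm V) (p : V × V) : mv (g * h) p = mv g (mv h p) := rfl

theorem mv_swap (g : Equiv.Perm V) (p : V × V) : mv g p.swap = (mv g p).swap := rfl

theorem mv_injective (g : Equiv.Perm V) : Function.Injective (mv g) := by
  rintro ⟨a, b⟩ ⟨c, d⟩ h
  simp only [mv, Prod.mk.injEq, EmbeddingLike.apply_eq_iff_eq] at h
  exact Prod.ext h.1 h.2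

theorem mv_inv_mv (g : Equiv.Perm V) (p : V × V) : mv g⁻¹ (mv g p) = p := by
  simp [mv]

theorem mv_mv_inv (g : Equiv.Perm V) (p : V × V) : mv g (mv g⁻¹ p) = p := by
  simp [mv]

theorem mv_off {g : Equiv.Perm V} {p : V × V} : (mv g p).1 ≠ (mv g p).2 ↔ p.1 ≠ p.2 := by
  simp [mv]

theorem mv_mem_off {g : Equiv.Perm V} {p : V × V} : mv g p ∈ off V ↔ p ∈ off V := by
  rw [mem_off, mem_off, mv_off]

variable (S : Sys V)

theorem wt_swap (p : V × V) : S.wt p.swap = S.wt p := S.symm _ _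

theorem wt_pos {p : V × V} (hp : p.1 ≠ p.2) : 1 ≤ S.wt p := S.pos _ _ hp

theorem wt_le (p : V × V) : S.wt p ≤ S.M := S.le_M _ _

theorem wt_step {g : Equiv.Perm V} (hg : g ∈ S.P) (p : V × V) : S.wt p ≤ S.wt (mv g p) + 1 :=
  S.step g hg _ _

theorem mem_lvl {t : ℕ} {p : V × V} : p ∈ S.lvl t ↔ p.1 ≠ p.2 ∧ S.wt p = t := by
  simp [Sys.lvl, mem_off]

theorem sum_lvl : ∑ t ∈ Icc 1 S.M, (S.lvl t).card = Fintype.card V * (Fintype.card V - 1) := by
  rw [← card_off]
  symm
  apply card_eq_sum_card_fiberwise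
  intro p hp
  have hp' : p.1 ≠ p.2 := mem_off.1 (by simpa using hp)
  simp only [coe_Icc, Set.mem_Icc]
  exact ⟨wt_pos S hp', wt_le S p⟩

theorem two_le_lvl {t : ℕ} (h1 : 1 ≤ t) (h2 : t ≤ S.M) : 2 ≤ (S.lvl t).card := by
  obtain ⟨x, y, h⟩ := S.surj t h1 h2
  have hxy : x ≠ y := by
    rintro rfl
    rw [S.self] at h
    omega
  have hsub : ({(x, y), (y, x)} : Finset (V × V)) ⊆ S.lvl t := by
    intro p hp
    rw [mem_insert, mem_singleton] at hp
    rw [mem_lvl]
    rcases hp with rfl | rfl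
    · exact ⟨hxy, h⟩
    · exact ⟨hxy.symm, (S.symm _ _).trans h⟩
  have hc := card_le_card hsub
  rwa [card_pair (by simp [hxy])] at hc

theorem two_M_le : 2 * S.M ≤ Fintype.card V * (Fintype.card V - 1) := by
  rw [← sum_lvl S]
  have h : ∑ t ∈ Icc 1 S.M, 2 ≤ ∑ t ∈ Icc 1 S.M, (S.lvl t).card :=
    sum_le_sum fun t ht => two_le_lvl S (mem_Icc.1 ht).1 (mem_Icc.1 ht).2
  rw [sum_const, Nat.card_Icc, smul_eq_mul] at h
  omega

theorem two_M_add : 2 * S.M + S.d = Fintype.card V * (Fintype.card V - 1) := by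
  have := two_M_le S
  simp only [Sys.d]
  omega

theorem sum_excess : ∑ t ∈ Icc 1 S.M, ((S.lvl t).card - 2) = S.d := by
  have h : ∑ t ∈ Icc 1 S.M, ((S.lvl t).card - 2) + ∑ t ∈ Icc 1 S.M, 2 =
      ∑ t ∈ Icc 1 S.M, (S.lvl t).card := by
    rw [← sum_add_distrib]
    refine sum_congr rfl fun t ht => ?_
    have := two_le_lvl S (mem_Icc.1 ht).1 (mem_Icc.1 ht).2
    omega
  rw [sum_lvl, ← two_M_add S, sum_const, Nat.card_Icc, smul_eq_mul] at h
  omega

theorem coll_sub_lvl {t : ℕ} {p : V × V} (hp : p.1 ≠ p.2) (h : S.wt p = t) : p ∈ S.lvl t :=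
  (mem_lvl S).2 ⟨hp, h⟩

theorem card_coll : S.Coll.card ≤ 3 * S.d := by
  have h1 : S.Coll.card = ∑ t ∈ Icc 1 S.M, (S.Coll.filter fun p => S.wt p = t).card := by
    apply card_eq_sum_card_fiberwise
    intro p hp
    have hp' : p.1 ≠ p.2 := mem_off.1 (mem_filter.1 (mem_coe.1 hp)).1
    simp only [coe_Icc, Set.mem_Icc]
    exact ⟨wt_pos S hp', wt_le S p⟩
  rw [h1, ← sum_excess S, mul_sum]
  refine sum_le_sum fun t _ => ?_
  rcases Nat.lt_or_ge 2 (S.lvl t).card with h | h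
  · have h2 : (S.Coll.filter fun p => S.wt p = t).card ≤ (S.lvl t).card := by
      refine card_le_card fun p hp => ?_
      rw [mem_filter] at hp
      exact (mem_lvl S).2 ⟨mem_off.1 (mem_filter.1 hp.1).1, hp.2⟩
    omega
  · have h2 : (S.Coll.filter fun p => S.wt p = t) = ∅ := by
      rw [filter_eq_empty_iff]
      intro p hp ht
      have h3 := (mem_filter.1 hp).2
      rw [ht] at h3
      omega
    rw [h2, card_empty]
    omega

theorem card_pre : S.Pre.card ≤ 3 * S.d := by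
  have h1 : S.Pre.card = ∑ t ∈ Icc 1 S.M, (S.Pre.filter fun p => S.wt p = t).card := by
    apply card_eq_sum_card_fiberwise
    intro p hp
    have hp' : p.1 ≠ p.2 := mem_off.1 (mem_filter.1 (mem_coe.1 hp)).1
    simp only [coe_Icc, Set.mem_Icc]
    exact ⟨wt_pos S hp', wt_le S p⟩
  have h2 : ∀ t ∈ Icc 1 S.M, (S.Pre.filter fun p => S.wt p = t).card ≤
      2 * ((S.lvl (t - 1)).card - 2) + ((S.lvl t).card - 2) := by
    intro t ht
    rcases Nat.lt_or_ge 2 (S.lvl (t - 1)).card with h | h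
    · have h2 : (S.Pre.filter fun p => S.wt p = t).card ≤ (S.lvl t).card := by
        refine card_le_card fun p hp => ?_
        rw [mem_filter] at hp
        exact (mem_lvl S).2 ⟨mem_off.1 (mem_filter.1 hp.1).1, hp.2⟩
      omega
    · have h2 : (S.Pre.filter fun p => S.wt p = t) = ∅ := by
        rw [filter_eq_empty_iff]
        intro p hp ht
        have h3 := (mem_filter.1 hp).2
        rw [ht] at h3
        omega
      rw [h2, card_empty]
      omega
  have h3 : ∑ t ∈ Icc 1 S.M, ((S.lvl (t - 1)).card - 2) ≤ S.d := by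
    rw [← sum_excess S]
    have h4 : ∑ t ∈ Icc 1 S.M, ((S.lvl (t - 1)).card - 2) =
        ∑ t ∈ (Icc 1 S.M).image (fun t => t - 1), ((S.lvl t).card - 2) := by
      rw [sum_image]
      intro a ha b hb hab
      have ha' := mem_Icc.1 (by simpa using ha : a ∈ Icc 1 S.M)
      have hb' := mem_Icc.1 (by simpa using hb : b ∈ Icc 1 S.M)
      simp only at hab
      omega
    rw [h4]
    have h5 : ∑ t ∈ (Icc 1 S.M).image (fun t => t - 1), ((S.lvl t).card - 2) ≤
        ∑ t ∈ insert 0 (Icc 1 S.M), ((S.lvl t).card - 2) := by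
      refine sum_le_sum_of_subset fun t ht => ?_
      rw [mem_image] at ht
      obtain ⟨u, hu, rfl⟩ := ht
      rw [mem_insert, mem_Icc]
      have := mem_Icc.1 hu
      omega
    refine h5.trans ?_
    rw [sum_insert (by simp)]
    have h6 : S.lvl 0 = ∅ := by
      rw [eq_empty_iff_forall_notMem]
      intro p hp
      have h7 := (mem_lvl S).1 hp
      have := wt_pos S h7.1
      omega
    rw [h6, card_empty]
    simp
  rw [h1]
  refine (sum_le_sum h2).trans ?_
  rw [sum_add_distrib, ← mul_sum, sum_excess]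
  omega

theorem single {p q : V × V} (hp : p.1 ≠ p.2) (hc : p ∉ S.Coll) (hq : q.1 ≠ q.2)
    (h : S.wt q = S.wt p) : q = p ∨ q = p.swap := by
  have h1 : ¬ 2 < (S.lvl (S.wt p)).card := fun h2 => hc (mem_filter.2 ⟨mem_off.2 hp, h2⟩)
  have h2 : ({p, p.swap} : Finset (V × V)) ⊆ S.lvl (S.wt p) := by
    intro r hr
    rw [mem_insert, mem_singleton] at hr
    rw [mem_lvl]
    rcases hr with rfl | rfl
    · exact ⟨hp, rfl⟩
    · exact ⟨hp.symm, wt_swap S p⟩
  have h3 : p ≠ p.swap := fun h => hp (congrArg Prod.fst h)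
  have h4 : ({p, p.swap} : Finset (V × V)) = S.lvl (S.wt p) :=
    eq_of_subset_of_card_le h2 (by rw [card_pair h3]; omega)
  have h5 : q ∈ ({p, p.swap} : Finset (V × V)) := by
    rw [h4, mem_lvl]
    exact ⟨hq, h⟩
  simpa using h5

theorem pre_single {p q q' : V × V} (hp : p.1 ≠ p.2) (hc : p ∉ S.Pre) (hq : q.1 ≠ q.2)
    (hq' : q'.1 ≠ q'.2) (h : S.wt q + 1 = S.wt p) (h' : S.wt q' + 1 = S.wt p) :
    q' = q ∨ q' = q.swap := by
  have h1 : ¬ 2 < (S.lvl (S.wt p - 1)).card := fun h2 => hc (mem_filter.2 ⟨mem_off.2 hp, h2⟩)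
  have h6 : S.wt q = S.wt p - 1 := by omega
  refine single S hq (fun h7 => h1 ?_) hq' (by omega)
  have h8 := (mem_filter.1 h7).2
  rwa [h6] at h8

theorem swap_mem_coll {p : V × V} : p.swap ∈ S.Coll ↔ p ∈ S.Coll := by
  simp only [Sys.Coll, mem_filter, mem_off, wt_swap]
  constructor
  · rintro ⟨h1, h2⟩; exact ⟨fun h => h1 h.symm, h2⟩
  · rintro ⟨h1, h2⟩; exact ⟨fun h => h1 h.symm, h2⟩

end Pool.Agent.SYT
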