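import Pool.Agent.SYT.Edge

/-!
# SYT-Both: pairs descended by two letters
-/

set_option autoImplicit false

open Finset

namespace Pool.Agent.SYT

variable {V : Type} [Fintype V] [DecidableEq V]

theorem card_meet (D : Finset V) :
    ((off V).filter fun p => p.1 ∈ D ∨ p.2 ∈ D).card + D.card ^ 2 + D.card =
      2 * D.card * Fintype.card V := by
  have h1 := card_filter_add_card_filter_not (s := off V) (fun p => p.1 ∈ D ∨ p.2 ∈ D)
  have h2 : ((off V).filter fun p => ¬ (p.1 ∈ D ∨ p.2 ∈ D)) = (Dᶜ).offDiag := by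
    ext p
    simp only [mem_filter, mem_off, mem_offDiag, mem_compl, not_or]
    tauto
  have h3 : off V = (univ : Finset V).offDiag := by
    ext p; simp [off]
  have h4 : (off V).card = Fintype.card V * Fintype.card V - Fintype.card V := by
    rw [h3, offDiag_card, card_univ]
  rw [h2, offDiag_card, h4] at h1
  have h5 := card_add_card_compl D
  obtain ⟨m, hm⟩ : ∃ m, m = D.card := ⟨_, rfl⟩
  obtain ⟨r, hr⟩ : ∃ r, r = (Dᶜ).card := ⟨_, rfl⟩
  rw [← hm, ← hr] at h5
  rw [← hr, ← h5] at h1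
  rw [← hm, ← h5]
  have h6 : r ≤ r * r := Nat.le_mul_self r
  have h7 : m + r ≤ (m + r) * (m + r) := Nat.le_mul_self _
  have h8 : (m + r) * (m + r) = m * m + 2 * (m * r) + r * r := by ring
  have h9 : 2 * m * (m + r) = 2 * (m * m) + 2 * (m * r) := by ring
  rw [h8] at h1 h7
  rw [h9, pow_two]
  omega

variable (S : Sys V)

open Classical in
theorem both_desc {P1 : Finset (Equiv.Perm V)} (h1 : (P1 : Set (Equiv.Perm V)) ⊆ S.P)
    {g : Equiv.Perm V} (hg : g ∈ S.P) :
    ((off V).filter fun p => p ∉ S.Pre ∧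
      (p.1 ∈ Dst (Subgroup.closure (P1 : Set (Equiv.Perm V))) g ∨
        p.2 ∈ Dst (Subgroup.closure (P1 : Set (Equiv.Perm V))) g) ∧
      S.wt (mv g p) + 1 = S.wt p ∧ ∃ f ∈ P1, S.wt (mv f p) + 1 = S.wt p).card ≤
    P1.card * Fintype.card V := by
  have key : ∀ p : V × V, ∃ f : Equiv.Perm V, (p ∈ off V ∧ p ∉ S.Pre ∧
      (p.1 ∈ Dst (Subgroup.closure (P1 : Set (Equiv.Perm V))) g ∨
        p.2 ∈ Dst (Subgroup.closure (P1 : Set (Equiv.Perm V))) g) ∧
      S.wt (mv g p) + 1 = S.wt p ∧ ∃ f ∈ P1, S.wt (mv f p) + 1 = S.wt p) →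
      f ∈ P1 ∧ f p.1 = g p.2 := by
    intro p
    by_cases hp : p ∈ off V ∧ p ∉ S.Pre ∧
      (p.1 ∈ Dst (Subgroup.closure (P1 : Set (Equiv.Perm V))) g ∨
        p.2 ∈ Dst (Subgroup.closure (P1 : Set (Equiv.Perm V))) g) ∧
      S.wt (mv g p) + 1 = S.wt p ∧ ∃ f ∈ P1, S.wt (mv f p) + 1 = S.wt p
    · obtain ⟨ho, hpre, hD, hw, f, hf, hwf⟩ := hp
      refine ⟨f, fun _ => ⟨hf, ?_⟩⟩
      have ho' := mem_off.1 ho
      have hfc : f ∈ Subgroup.closure (P1 : Set (Equiv.Perm V)) :=
        Subgroup.subset_closure (mem_coe.2 hf)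
      rcases pre_single S ho' hpre (mv_off.2 ho') (mv_off.2 ho') hw hwf with h | h
      · exfalso
        have ha : f p.1 = g p.1 := congrArg Prod.fst h
        have hb : f p.2 = g p.2 := congrArg Prod.snd h
        rcases hD with hD | hD
        · refine mem_Dst.1 hD ?_
          rw [← ha]
          exact cls_apply hfc _
        · refine mem_Dst.1 hD ?_
          rw [← hb]
          exact cls_apply hfc _
      · exact congrArg Prod.fst h
    · exact ⟨1, fun h => absurd h hp⟩
  choose F hF using key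
  rw [← card_univ, ← card_product]
  refine card_le_card_of_injOn (fun p => (F p, p.1)) ?_ ?_
  · intro p hp
    have hp' := mem_filter.1 (mem_coe.1 hp)
    exact mem_coe.2 (mem_product.2 ⟨(hF p hp').1, mem_univ _⟩)
  · intro p hp q hq hpq
    have hp' := mem_filter.1 (mem_coe.1 hp)
    have hq' := mem_filter.1 (mem_coe.1 hq)
    have h2 : F p = F q := congrArg Prod.fst hpq
    have h3 : p.1 = q.1 := congrArg Prod.snd hpq
    refine Prod.ext h3 ?_
    apply g.injective
    rw [← (hF p hp').2, ← (hF q hq').2, h2, h3]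

end Pool.Agent.SYT
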