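import Pool.Agent.SYT.Edge

/-! SYT-Chain: the potential and the crossing stage (MP_a3a126_co). -/

set_option autoImplicit false

open Finset

namespace Pool.Agent.SYT

variable {V : Type} [Fintype V] [DecidableEq V]

private theorem ch_two (P1 : Set (Equiv.Perm V)) (g : Equiv.Perm V) (Y : Finset V)
    (hY : Y ∈ comps (Subgroup.closure (insert g P1))) :
    2 * ∑ x ∈ Y, Nat.log 2 (cls (Subgroup.closure P1) x).card +
        (Y.filter fun x => x ∈ Dst (Subgroup.closure P1) g).card ≤
      2 * ∑ x ∈ Y, Nat.log 2 (cls (Subgroup.closure (insert g P1)) x).card := by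
  classical
  obtain ⟨Γ, hΓ⟩ : ∃ Γ, Γ = Subgroup.closure P1 := ⟨_, rfl⟩
  obtain ⟨Γ', hΓ'⟩ : ∃ Γ', Γ' = Subgroup.closure (insert g P1) := ⟨_, rfl⟩
  rw [← hΓ'] at hY
  rw [← hΓ, ← hΓ']
  have hle : Γ ≤ Γ' := by
    rw [hΓ, hΓ']
    exact Subgroup.closure_mono (Set.subset_insert g P1)
  have hg : g ∈ Γ' := by
    rw [hΓ']
    exact Subgroup.subset_closure (Set.mem_insert g P1)
  obtain ⟨x0, hx0, -⟩ := exists_rep hY
  obtain ⟨x1, hx1, hmax⟩ := Finset.exists_max_image Y (fun x => (cls Γ x).card) ⟨x0, hx0⟩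
  have hb : ∀ x ∈ Y, cls Γ' x = Y := fun x hx => (eq_cls hY hx).symm
  have hsub : ∀ x ∈ Y, cls Γ x ⊆ Y := fun x hx => (hb x hx) ▸ cls_mono hle x
  have hlog : ∀ x ∈ Y, Nat.log 2 (cls Γ x).card + (if x ∈ cls Γ x1 then 0 else 1) ≤
      Nat.log 2 (cls Γ' x).card := by
    intro x hx
    by_cases hx' : x ∈ cls Γ x1
    · rw [if_pos hx', Nat.add_zero]
      exact Nat.log_mono_right (Finset.card_le_card (cls_mono hle x))
    · rw [if_neg hx']
      have hdis : Disjoint (cls Γ x) (cls Γ x1) := by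
        refine comps_disj (cls_mem_comps x) (cls_mem_comps x1) fun h => hx' ?_
        rw [← h]
        exact self_mem_cls x
      have h1 : (cls Γ x).card + (cls Γ x1).card ≤ Y.card := by
        rw [← Finset.card_union_of_disjoint hdis]
        exact Finset.card_le_card (Finset.union_subset (hsub x hx) (hsub x1 hx1))
      have h2 := hmax x hx
      have h3 : 0 < (cls Γ x).card := Finset.card_pos.2 ⟨x, self_mem_cls x⟩
      have h4 : (cls Γ x).card * 2 ≤ (cls Γ' x).card := by
        rw [hb x hx]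
        omega
      have h5 := Nat.log_mul_base (b := 2) (n := (cls Γ x).card) (by norm_num) h3.ne'
      rw [← h5]
      exact Nat.log_mono_right h4
  have hsum : ∑ x ∈ Y, Nat.log 2 (cls Γ x).card + (Y.filter fun x => x ∉ cls Γ x1).card ≤
      ∑ x ∈ Y, Nat.log 2 (cls Γ' x).card := by
    rw [Finset.card_filter, ← Finset.sum_add_distrib]
    refine Finset.sum_le_sum fun x hx => ?_
    refine le_trans (le_of_eq ?_) (hlog x hx)
    by_cases hx' : x ∈ cls Γ x1
    · rw [if_pos hx', if_neg (not_not.2 hx')]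
    · rw [if_neg hx', if_pos hx']
  have hD : (Y.filter fun x => x ∈ Dst Γ g).card ≤ 2 * (Y.filter fun x => x ∉ cls Γ x1).card := by
    have h1 : (Y.filter fun x => x ∈ Dst Γ g) ⊆
        ((Y.filter fun x => x ∈ Dst Γ g).filter fun x => x ∈ cls Γ x1) ∪
          (Y.filter fun x => x ∉ cls Γ x1) := by
      intro x hx
      rw [Finset.mem_union, Finset.mem_filter (p := fun x => x ∈ cls Γ x1),
        Finset.mem_filter (p := fun x => x ∉ cls Γ x1)]
      by_cases hx' : x ∈ cls Γ x1
      · exact Or.inl ⟨hx, hx'⟩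
      · exact Or.inr ⟨(Finset.mem_filter.1 hx).1, hx'⟩
    have h2 : ((Y.filter fun x => x ∈ Dst Γ g).filter fun x => x ∈ cls Γ x1).card ≤
        (Y.filter fun x => x ∉ cls Γ x1).card := by
      refine Finset.card_le_card_of_injOn g ?_ (g.injective.injOn)
      intro x hx
      have hx2 := Finset.mem_coe.1 hx
      rw [Finset.mem_filter, Finset.mem_filter, mem_Dst] at hx2
      obtain ⟨⟨h3, h4⟩, h5⟩ := hx2
      rw [Finset.mem_coe, Finset.mem_filter]
      refine ⟨(apply_mem hY hg).2 h3, fun h6 => h4 ?_⟩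
      rw [cls_eq h6, cls_eq h5]
    have h3 := (Finset.card_le_card h1).trans (Finset.card_union_le _ _)
    omega
  omega

theorem potential (P1 : Set (Equiv.Perm V)) (g : Equiv.Perm V) :
    2 * ∑ x, Nat.log 2 (cls (Subgroup.closure P1) x).card + (Dst (Subgroup.closure P1) g).card ≤
      2 * ∑ x, Nat.log 2 (cls (Subgroup.closure (insert g P1)) x).card := by
  classical
  have h1 := Finset.sum_le_sum fun Y (hY : Y ∈ comps (Subgroup.closure (insert g P1))) =>
    ch_two P1 g Y hY
  rw [Finset.sum_add_distrib, ← Finset.mul_sum, ← Finset.mul_sum,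
    sum_comps (Γ := Subgroup.closure (insert g P1))
      (fun x => Nat.log 2 (cls (Subgroup.closure P1) x).card),
    sum_comps (Γ := Subgroup.closure (insert g P1))
      (fun x => Nat.log 2 (cls (Subgroup.closure (insert g P1)) x).card)] at h1
  have h2 : ∑ Y ∈ comps (Subgroup.closure (insert g P1)),
      (Y.filter fun x => x ∈ Dst (Subgroup.closure P1) g).card =
        (Dst (Subgroup.closure P1) g).card := by
    have h3 : ∀ Y ∈ comps (Subgroup.closure (insert g P1)),
        (Y.filter fun x => x ∈ Dst (Subgroup.closure P1) g).card =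
          ∑ x ∈ Y, if x ∈ Dst (Subgroup.closure P1) g then 1 else 0 := fun Y _ =>
      Finset.card_filter _ _
    rw [Finset.sum_congr rfl h3, sum_comps (Γ := Subgroup.closure (insert g P1))
      (fun x => if x ∈ Dst (Subgroup.closure P1) g then 1 else 0), ← Finset.card_filter]
    congr 1
    ext x
    simp
  rw [h2] at h1
  exact h1

variable (S : Sys V)

theorem crossing {f : Equiv.Perm V} (hf : f ∈ S.P) {k R0 : ℕ}
    (hmany : ∀ P1 : Finset (Equiv.Perm V), (P1 : Set (Equiv.Perm V)) ⊆ S.P →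
      R0 ≤ (comps (Subgroup.closure (P1 : Set (Equiv.Perm V)))).card →
      ∃ g ∈ S.P, k < (Dst (Subgroup.closure (P1 : Set (Equiv.Perm V))) g).card)
    (hr : R0 ≤ (comps (Subgroup.closure ({f} : Set (Equiv.Perm V)))).card) :
    ∃ P1 : Finset (Equiv.Perm V), (P1 : Set (Equiv.Perm V)) ⊆ S.P ∧ f ∈ P1 ∧
      R0 ≤ (comps (Subgroup.closure (P1 : Set (Equiv.Perm V)))).card ∧
      k * P1.card ≤ k + 2 * (Fintype.card V * Nat.log 2 (Fintype.card V)) ∧
      ∃ g ∈ S.P, k < (Dst (Subgroup.closure (P1 : Set (Equiv.Perm V))) g).card ∧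
        (comps (Subgroup.closure (insert g (P1 : Set (Equiv.Perm V))))).card < R0 := by
  classical
  obtain ⟨Φ, hΦ⟩ : ∃ Φ : Finset (Equiv.Perm V) → ℕ, ∀ Q : Finset (Equiv.Perm V),
      Φ Q = ∑ x, Nat.log 2 (cls (Subgroup.closure (Q : Set (Equiv.Perm V))) x).card :=
    ⟨_, fun _ => rfl⟩
  have hne : ((univ : Finset (Finset (Equiv.Perm V))).filter fun Q : Finset (Equiv.Perm V) =>
      (Q : Set (Equiv.Perm V)) ⊆ S.P ∧ f ∈ Q ∧
        R0 ≤ (comps (Subgroup.closure (Q : Set (Equiv.Perm V)))).card ∧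
          k * Q.card ≤ k + 2 * Φ Q).Nonempty := by
    refine ⟨{f}, ?_⟩
    rw [Finset.mem_filter]
    refine ⟨Finset.mem_univ _, ?_, Finset.mem_singleton_self f, ?_, ?_⟩
    · rw [Finset.coe_singleton]
      exact Set.singleton_subset_iff.2 hf
    · rw [Finset.coe_singleton]
      exact hr
    · rw [Finset.card_singleton, mul_one]
      exact Nat.le_add_right _ _
  obtain ⟨P1, hP1, hmax⟩ := Finset.exists_max_image _ Φ hne
  rw [Finset.mem_filter] at hP1
  obtain ⟨-, h1, h2, h3, h4⟩ := hP1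
  obtain ⟨g, hg, hgk⟩ := hmany P1 h1 h3
  have hpot := potential (P1 : Set (Equiv.Perm V)) g
  have hΦi : Φ (insert g P1) =
      ∑ x, Nat.log 2 (cls (Subgroup.closure (insert g (P1 : Set (Equiv.Perm V)))) x).card := by
    rw [hΦ, Finset.coe_insert]
  rw [← hΦi, ← hΦ P1] at hpot
  have hbd : Φ P1 ≤ Fintype.card V * Nat.log 2 (Fintype.card V) := by
    rw [hΦ]
    refine (Finset.sum_le_card_nsmul univ _ (Nat.log 2 (Fintype.card V)) fun x _ =>
      Nat.log_mono_right (Finset.card_le_univ _)).trans ?_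
    rw [Finset.card_univ, smul_eq_mul]
  refine ⟨P1, h1, h2, h3, by omega, g, hg, hgk, ?_⟩
  by_contra hc
  rw [not_lt] at hc
  have h5 := hmax (insert g P1) (by
    rw [Finset.mem_filter]
    refine ⟨Finset.mem_univ _, ?_, Finset.mem_insert_of_mem h2, ?_, ?_⟩
    · rw [Finset.coe_insert]
      exact Set.insert_subset hg h1
    · rw [Finset.coe_insert]
      exact hc
    · have h6 : k * (insert g P1).card ≤ k * (P1.card + 1) :=
        Nat.mul_le_mul_left k (Finset.card_insert_le g P1)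
      rw [mul_add, mul_one] at h6
      omega)
  omega

end Pool.Agent.SYT
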