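import Pool.Agent.SYT.OrbI

/-!
# SYT-Mid: the middle lemma

Project SYT (MP_a3a126_co), paper proof in /team-store/a3a126_87.md, section 4 (L3), (L4).
* `walk` (purely numerical): `F 0 = β`. `F 0 ≤ F c + c`. Take `i < a` with `F i = α` (periodicity); `β ≤ α + i`, so
  `c ≤ i`; `F c ≤ F i + (i - c) ≤ α + (a - 1 - c)`.
* `middle`: `O = orb f (x, f^j x)`, by `iv_bounds` its levels are `[α, β]`, `β + 1 - α = |iv| ≥ a - e`. All the elements
  of `O` are `(y, f^j y)`, `(f^j y, y)` with `y ∈ cyc f x`. Choose `y` in the cycle with `wt (y, f^j y) = β`;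
  `F i = wt (f^i y, f^(j+i) y)` has period `a`, so `walk` applies. `x = f^c y`, `c < a`.
  Case `a ≤ 8 c ≤ 7 a`: `z = f^j x`; `(x, z) = f^c (y, f^j y)`, `(f x, f z)` is at position `c + 1`.
  Else `z = f^(a-j) x`, then `f^j z = x`, `(z, x) = f^c' (y, f^j y)` with `c' = c - j` (if `8 c > 7 a`) or
  `c' = c + a - j` (if `8 c < a`), and `a ≤ 8 c' ≤ 7 a` because `a < 4 j`, `2 j < a`. In both cases with the
  position `c`: `walk` gives `β ≤ w x z + c` and `w x z + c + 1 ≤ α + a`, `c` and `c + 1` are `≤ β - α` because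
  `β - α ≥ a - e - 1`, `a/8 ≥ 4 e ≥ e + 2`. So `w x z ≤ β - c + e ≤ β - 3 e`, `w x z ≥ β - 7 a/8 ≥ α + 3 e - 1`,
  `w (f x) (f z) ≤ β - (c+1) + e ≤ β - 3 e`. (`e = a / 32`, so `32 e ≤ a < 32 e + 32`, `a ≥ 64`, `e ≥ 2`.)
-/

set_option autoImplicit false

open Finset

namespace Pool.Agent.SYT

theorem walk {F : ℕ → ℕ} {a α β c : ℕ} (ha : 1 ≤ a) (hper : ∀ i, F (i + a) = F i)
    (hstep : ∀ i, F i ≤ F (i + 1) + 1) (h0 : F 0 = β) (hmin : ∀ i, α ≤ F i)
    (hat : ∃ i, F i = α) (hc : α + c ≤ β) : β ≤ F c + c ∧ F c + c + 1 ≤ α + a := by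
  have h1 : ∀ i k, F i ≤ F (i + k) + k := by
    intro i k
    induction k with
    | zero => simp
    | succ k ih =>
      have := hstep (i + k)
      rw [show i + (k + 1) = i + k + 1 by ring]
      omega
  have h2 : ∀ i q, F (i + a * q) = F i := by
    intro i q
    induction q with
    | zero => simp
    | succ q ih => rw [show i + a * (q + 1) = (i + a * q) + a by ring, hper, ih]
  obtain ⟨i, hi⟩ := hat
  obtain ⟨k, hk, hka⟩ : ∃ k, k < a ∧ F k = α := by
    refine ⟨i % a, Nat.mod_lt _ (by omega), ?_⟩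
    have := h2 (i % a) (i / a)
    rw [Nat.mod_add_div] at this
    rw [← this, hi]
  have h3 := h1 0 c
  have h4 := h1 0 k
  rw [Nat.zero_add] at h3 h4
  have h5 := h1 c (k - c)
  rw [show c + (k - c) = k by omega] at h5
  omega

variable {V : Type} [Fintype V] [DecidableEq V] (S : Sys V) {f : Equiv.Perm V}

theorem middle (hf : f ∈ S.P) {x : V} {a e j : ℕ} (ha : (cyc f x).card = a) (h64 : 64 ≤ a)
    (he : e = a / 32) (hj1 : a < 4 * j) (hj2 : 2 * j < a)
    (hdef : a ≤ (S.iv (orb f (x, (f ^ j) x))).card + e) :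
    ∃ z, (z = (f ^ j) x ∨ z = (f ^ (a - j)) x) ∧
      ∃ α β, (∀ t, t ∈ S.iv (orb f (x, (f ^ j) x)) ↔ α ≤ t ∧ t ≤ β) ∧
        α + 3 * e ≤ S.w x z + 1 ∧ S.w x z + 3 * e ≤ β ∧ S.w (f x) (f z) + 3 * e ≤ β := by
  obtain ⟨α, β, hαβ, hiv, hcard⟩ := iv_bounds S hf (x, (f ^ j) x)
  rw [hcard] at hdef
  have hfa : (f ^ a) x = x := by rw [← ha]; exact pow_card f x
  obtain ⟨G, hG⟩ : ∃ G : ℕ → ℕ, ∀ m, G m = S.wt (mv (f ^ m) (x, (f ^ j) x)) := ⟨_, fun _ => rfl⟩
  have hGw : ∀ m, G m = S.w ((f ^ m) x) ((f ^ m) ((f ^ j) x)) := fun m => hG m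
  have hper : ∀ m, G (m + a) = G m := by
    intro m
    rw [hGw, hGw]
    have e1 : (f ^ (m + a)) x = (f ^ m) x := by rw [pow_add, Equiv.Perm.mul_apply, hfa]
    have e2 : (f ^ (m + a)) ((f ^ j) x) = (f ^ m) ((f ^ j) x) := by
      rw [← Equiv.Perm.mul_apply, ← Equiv.Perm.mul_apply, ← pow_add, ← pow_add,
        show m + a + j = (m + j) + a by ring, pow_add f (m + j) a, Equiv.Perm.mul_apply, hfa]
    rw [e1, e2]
  have hperq : ∀ m q, G (m + a * q) = G m := by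
    intro m q
    induction q with
    | zero => simp
    | succ q ih => rw [show m + a * (q + 1) = (m + a * q) + a by ring, hper, ih]
  have hstep : ∀ m, G m ≤ G (m + 1) + 1 := by
    intro m
    have h := wt_step S hf (mv (f ^ m) (x, (f ^ j) x))
    rw [← mv_mul, ← pow_succ'] at h
    rw [hG, hG]
    exact h
  have hatt : ∀ t, t ∈ S.iv (orb f (x, (f ^ j) x)) → ∃ m, G m = t := by
    intro t ht
    obtain ⟨q, hq, rfl⟩ := (mem_iv S).1 ht
    obtain ⟨m, hm | hm⟩ := (mem_orb f).1 hq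
    · exact ⟨m, by rw [hG, hm]⟩
    · exact ⟨m, by rw [hG, hm, wt_swap]⟩
  have hge : ∀ m, α ≤ G m := by
    intro m
    refine ((hiv (G m)).1 ?_).1
    exact (mem_iv S).2 ⟨mv (f ^ m) (x, (f ^ j) x), (mem_orb f).2 ⟨m, Or.inl rfl⟩, (hG m).symm⟩
  obtain ⟨i0, hi0⟩ := hatt β ((hiv β).2 ⟨hαβ, le_rfl⟩)
  obtain ⟨k0, hk0⟩ := hatt α ((hiv α).2 ⟨le_rfl, hαβ⟩)
  obtain ⟨i, hi, hiβ⟩ : ∃ i, i < a ∧ G i = β := by
    refine ⟨i0 % a, Nat.mod_lt _ (by omega), ?_⟩
    have := hperq (i0 % a) (i0 / a)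
    rw [Nat.mod_add_div] at this
    rw [← this, hi0]
  have key : ∀ c, a ≤ 8 * c → 8 * c ≤ 7 * a →
      α + 3 * e ≤ G (i + c) + 1 ∧ G (i + c) + 3 * e ≤ β ∧ G (i + c + 1) + 3 * e ≤ β := by
    intro c h1 h2
    have hF : ∀ c', α + c' ≤ β → β ≤ G (i + c') + c' ∧ G (i + c') + c' + 1 ≤ α + a := by
      intro c' hc'
      refine walk (F := fun k => G (i + k)) (by omega) (fun k => ?_) (fun k => ?_) ?_
        (fun k => hge _) ⟨k0 + i * (a - 1), ?_⟩ hc'
      · show G (i + (k + a)) = G (i + k)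
        rw [← add_assoc, hper]
      · exact hstep (i + k)
      · exact hiβ
      · show G (i + (k0 + i * (a - 1))) = α
        have e1 : i + (k0 + i * (a - 1)) = k0 + a * i := by
          obtain ⟨b, rfl⟩ : ∃ b, a = b + 1 := ⟨a - 1, by omega⟩
          rw [Nat.add_sub_cancel]
          ring
        rw [e1, hperq, hk0]
    have h3 := hF c (by omega)
    have h4 := hF (c + 1) (by omega)
    rw [show i + (c + 1) = i + c + 1 from rfl] at h4
    omega
  have hGx : ∀ m, (∃ q, m = a * q) → G m = S.w x ((f ^ j) x) ∧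
      G (m + 1) = S.w (f x) (f ((f ^ j) x)) := by
    rintro m ⟨q, rfl⟩
    refine ⟨?_, ?_⟩
    · have := hperq 0 q
      rw [Nat.zero_add] at this
      rw [this, hGw]
      rfl
    · rw [add_comm, hperq, hGw]
      rfl
  have hGz : ∀ m, (∃ q, m + j = a * (q + 1)) → G m = S.w x ((f ^ (a - j)) x) ∧
      G (m + 1) = S.w (f x) (f ((f ^ (a - j)) x)) := by
    rintro m ⟨q, hq⟩
    obtain ⟨l, hl⟩ : ∃ l, a = l + j := ⟨a - j, by omega⟩
    have hm : m = l + a * q := by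
      have : a * (q + 1) = a * q + a := by ring
      omega
    have hl2 : a - j = l := by omega
    have hxx : (f ^ l) ((f ^ j) x) = x := by
      rw [← Equiv.Perm.mul_apply, ← pow_add, ← hl, hfa]
    rw [hl2]
    refine ⟨?_, ?_⟩
    · rw [hm, hperq, hGw, hxx, S.symm]
    · rw [hm, show l + a * q + 1 = (l + 1) + a * q by ring, hperq, hGw, pow_succ' f l,
        Equiv.Perm.mul_apply, Equiv.Perm.mul_apply, hxx, S.symm]
  obtain ⟨c, hca, hci⟩ : ∃ c, c < a ∧ (∃ q, i + c = a * q) := by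
    rcases Nat.eq_zero_or_pos i with h | h
    · exact ⟨0, by omega, 0, by omega⟩
    · exact ⟨a - i, by omega, 1, by omega⟩
  by_cases hA : a ≤ 8 * c ∧ 8 * c ≤ 7 * a
  · refine ⟨(f ^ j) x, Or.inl rfl, α, β, hiv, ?_⟩
    obtain ⟨h1, h2⟩ := hGx (i + c) hci
    rw [← h1, ← h2]
    exact key c hA.1 hA.2
  · refine ⟨(f ^ (a - j)) x, Or.inr rfl, α, β, hiv, ?_⟩
    obtain ⟨q, hq⟩ := hci
    obtain ⟨c', h1, h2, h3⟩ : ∃ c', a ≤ 8 * c' ∧ 8 * c' ≤ 7 * a ∧
        ∃ q, i + c' + j = a * (q + 1) := by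
      rcases Nat.lt_or_ge (8 * c) a with h | h
      · exact ⟨c + a - j, by omega, by omega, q, by
          have : a * (q + 1) = a * q + a := by ring
          omega⟩
      · obtain ⟨q', rfl⟩ : ∃ q', q = q' + 1 := by
          rcases Nat.eq_zero_or_pos q with h0 | h0
          · subst h0
            exfalso
            omega
          · exact ⟨q - 1, by omega⟩
        exact ⟨c - j, by omega, by omega, q', by omega⟩
    obtain ⟨h4, h5⟩ := hGz (i + c') h3
    rw [← h4, ← h5]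
    exact key c' h1 h2

end Pool.Agent.SYT
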