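import Pool.Agent.SYT.Exc
import Pool.Agent.SYT.Mid

/-! Two states with close rows force a short cycle or a large deficiency (project SYT). -/

set_option autoImplicit false

open Finset

namespace Pool.Agent.SYT

theorem overlap {I : Finset ℕ} (hI : ∀ a ∈ I, ∀ b ∈ I, ∀ t, a ≤ t → t ≤ b → t ∈ I) {e u α β : ℕ}
    (he : e ≤ I.card) (hu : u ∈ I) (h1 : α + e ≤ u + 1) (h2 : u + e ≤ β + 1) {J : Finset ℕ}
    (hJ : ∀ t, t ∈ J ↔ α ≤ t ∧ t ≤ β) : e ≤ (J ∩ I).card := by
  rcases Nat.eq_zero_or_pos e with h0 | h0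
  · omega
  by_cases h3 : ∃ t ∈ I, u + e ≤ t
  · obtain ⟨t, ht, h4⟩ := h3
    have h5 : Ico u (u + e) ⊆ J ∩ I := by
      intro s hs
      rw [mem_Ico] at hs
      rw [mem_inter, hJ]
      exact ⟨⟨by omega, by omega⟩, hI u hu t ht s (by omega) (by omega)⟩
    have h6 := card_le_card h5
    rw [Nat.card_Ico] at h6
    omega
  by_cases h4 : ∃ t ∈ I, t + e ≤ u
  · obtain ⟨t, ht, h5⟩ := h4
    have h6 : Ico (u + 1 - e) (u + 1) ⊆ J ∩ I := by
      intro s hs
      rw [mem_Ico] at hs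
      rw [mem_inter, hJ]
      exact ⟨⟨by omega, by omega⟩, hI t ht u hu s (by omega) (by omega)⟩
    have h7 := card_le_card h6
    rw [Nat.card_Ico] at h7
    omega
  push Not at h3 h4
  have h5 : I ⊆ J ∩ I := by
    intro s hs
    rw [mem_inter, hJ]
    have h6 := h3 s hs
    have h7 := h4 s hs
    exact ⟨⟨by omega, by omega⟩, hs⟩
  exact he.trans (card_le_card h5)

variable {V : Type} [Fintype V] [DecidableEq V] (S : Sys V) {f : Equiv.Perm V}

theorem close (hf : f ∈ S.P) {K : ℕ} (hK : ∀ x, Fintype.card V ≤ K * (cyc f x).card) {x y : V}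
    (hxy : y ≠ x) {a e : ℕ} (ha : (cyc f x).card = a) (h64 : 64 ≤ a) (he : e = a / 32)
    {T : Finset V}
    (hT : ∀ v, v ∉ T → v ≠ x → v ≠ y ∧ S.w x v ≤ S.w y v + e ∧ S.w y v ≤ S.w x v + e) :
    Fintype.card V * a ≤ 12 * Fintype.card V + 4 * Fintype.card V * T.card + 328 * K * S.d := by
  classical
  have h1 : ∀ j : ℕ, ∃ z : V, a < 4 * j → 2 * j < a →
      a ≤ (S.iv (orb f (x, (f ^ j) x))).card + e →
      (z = (f ^ j) x ∨ z = (f ^ (a - j)) x) ∧
        ∃ α β, (∀ t, t ∈ S.iv (orb f (x, (f ^ j) x)) ↔ α ≤ t ∧ t ≤ β) ∧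
          α + 3 * e ≤ S.w x z + 1 ∧ S.w x z + 3 * e ≤ β ∧ S.w (f x) (f z) + 3 * e ≤ β := by
    intro j
    by_cases h : a < 4 * j ∧ 2 * j < a ∧ a ≤ (S.iv (orb f (x, (f ^ j) x))).card + e
    · obtain ⟨z, hz, hz2⟩ := middle S hf ha h64 he h.1 h.2.1 h.2.2
      exact ⟨z, fun _ _ _ => ⟨hz, hz2⟩⟩
    · exact ⟨x, fun a1 a2 a3 => absurd ⟨a1, a2, a3⟩ h⟩
  choose z hz using h1
  have h2 := exc S hK ha h64 he (z := z) (Y := {y}) (T := T)
    (fun h => hxy (mem_singleton.1 h).symm) (fun j a1 a2 a3 => (hz j a1 a2 a3).1) (by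
      intro j a1 a2 a3 hT'
      obtain ⟨hz1, α, β, hiv, b1, b2, -⟩ := hz j a1 a2 a3
      have hne : z j ≠ x := by
        intro h
        rcases hz1 with h3 | h3
        · have h4 := pow_inj f (x := x) (i := j) (j := 0) (by omega) (by omega)
            (by rw [← h3, h, pow_zero]; rfl)
          omega
        · have h4 := pow_inj f (x := x) (i := a - j) (j := 0) (by omega) (by omega)
            (by rw [← h3, h, pow_zero]; rfl)
          omega
      obtain ⟨c1, c2, c3⟩ := hT (z j) hT' hne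
      refine ⟨y, mem_singleton_self _, c1.symm, Or.inr ?_⟩
      by_cases hc : (S.iv (orb f (y, z j))).card < e
      · exact Or.inl hc
      · refine Or.inr (overlap (u := S.w y (z j)) (α := α) (β := β) ?_ (not_lt.1 hc) ?_
          (by omega) (by omega) hiv)
        · exact fun s hs t ht r h3 h4 => iv_interval S hf hs ht h3 h4
        · exact (mem_iv S).2 ⟨(y, z j), self_mem_orb f _, rfl⟩)
  rw [card_singleton] at h2
  linarith

end Pool.Agent.SYT
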