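import Pool.Agent.SYT.Orb

/-!
# SYT-Cls: orbits of a group of permutations on the states (components)

Project SYT (MP_a3a126_co). Elementary facts on `cls Γ x` and the partition `comps Γ`.
-/

set_option autoImplicit false

open Finset

namespace Pool.Agent.SYT

variable {V : Type} [Fintype V] [DecidableEq V] {Γ : Subgroup (Equiv.Perm V)}

theorem mem_cls {x y : V} : y ∈ cls Γ x ↔ ∃ γ ∈ Γ, γ x = y := by
  simp [cls]

theorem self_mem_cls (x : V) : x ∈ cls Γ x :=
  mem_cls.2 ⟨1, one_mem _, rfl⟩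

theorem cls_eq {x y : V} (h : y ∈ cls Γ x) : cls Γ y = cls Γ x := by
  obtain ⟨γ, hγ, rfl⟩ := mem_cls.1 h
  ext z
  rw [mem_cls, mem_cls]
  constructor
  · rintro ⟨δ, hδ, rfl⟩
    exact ⟨δ * γ, mul_mem hδ hγ, rfl⟩
  · rintro ⟨δ, hδ, rfl⟩
    exact ⟨δ * γ⁻¹, mul_mem hδ (inv_mem hγ), by simp⟩

theorem mem_cls_iff {x y : V} : y ∈ cls Γ x ↔ cls Γ y = cls Γ x :=
  ⟨cls_eq, fun h => h ▸ self_mem_cls y⟩

theorem cls_apply {γ : Equiv.Perm V} (h : γ ∈ Γ) (x : V) : cls Γ (γ x) = cls Γ x :=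
  cls_eq (mem_cls.2 ⟨γ, h, rfl⟩)

theorem cls_mem_comps (x : V) : cls Γ x ∈ comps Γ := by
  simp [comps]

theorem eq_cls {Y : Finset V} (hY : Y ∈ comps Γ) {x : V} (hx : x ∈ Y) : Y = cls Γ x := by
  simp only [comps, mem_image, mem_univ, true_and] at hY
  obtain ⟨z, rfl⟩ := hY
  exact (cls_eq hx).symm

theorem exists_rep {Y : Finset V} (hY : Y ∈ comps Γ) : ∃ x, x ∈ Y ∧ Y = cls Γ x := by
  simp only [comps, mem_image, mem_univ, true_and] at hY
  obtain ⟨z, rfl⟩ := hY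
  exact ⟨z, self_mem_cls z, rfl⟩

theorem comps_disj {Y Y' : Finset V} (hY : Y ∈ comps Γ) (hY' : Y' ∈ comps Γ) (h : Y ≠ Y') :
    Disjoint Y Y' := by
  rw [disjoint_left]
  intro x hx hx'
  exact h ((eq_cls hY hx).trans (eq_cls hY' hx').symm)

theorem apply_mem {Y : Finset V} (hY : Y ∈ comps Γ) {γ : Equiv.Perm V} (h : γ ∈ Γ) {x : V} :
    γ x ∈ Y ↔ x ∈ Y := by
  obtain ⟨z, hz, rfl⟩ := exists_rep hY
  rw [mem_cls_iff, mem_cls_iff, cls_apply h]

private theorem clsAux_biUnion : (comps Γ).biUnion id = (univ : Finset V) := by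
  ext x
  simp only [mem_biUnion, id, mem_univ, iff_true]
  exact ⟨cls Γ x, cls_mem_comps x, self_mem_cls x⟩

theorem sum_comps {M : Type*} [AddCommMonoid M] (F : V → M) :
    ∑ Y ∈ comps Γ, ∑ x ∈ Y, F x = ∑ x, F x := by
  rw [← clsAux_biUnion (Γ := Γ), sum_biUnion]
  · rfl
  · intro Y hY Y' hY' h
    exact comps_disj hY hY' h

theorem sum_card_comps : ∑ Y ∈ comps Γ, Y.card = Fintype.card V := by
  have h := sum_comps (Γ := Γ) (fun _ : V => 1)
  simpa using h

theorem cls_mono {Γ' : Subgroup (Equiv.Perm V)} (h : Γ ≤ Γ') (x : V) : cls Γ x ⊆ cls Γ' x := by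
  intro y hy
  obtain ⟨γ, hγ, rfl⟩ := mem_cls.1 hy
  exact mem_cls.2 ⟨γ, h hγ, rfl⟩

theorem comps_pos [Nonempty V] : 1 ≤ (comps Γ).card :=
  card_pos.2 ⟨cls Γ (Classical.arbitrary V), cls_mem_comps _⟩

/-- a class of functions constant on the components of `closure P1` -/
theorem const_of_letters {P1 : Set (Equiv.Perm V)} {α : Type*} {F : V → α}
    (h : ∀ g ∈ P1, ∀ x, F (g x) = F x) {x y : V} (hy : y ∈ cls (Subgroup.closure P1) x) :
    F y = F x := by
  classical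
  obtain ⟨γ, hγ, rfl⟩ := mem_cls.1 hy
  have h1 := closure_closed1 (U := univ.filter fun z => F z = F x) (by
    intro g hg z hz
    simp only [mem_filter, mem_univ, true_and] at hz ⊢
    rw [h g hg, hz]) hγ x (by simp)
  simpa using h1

/-- a set containing `x` and closed under the letters contains the component -/
theorem cls_sub {P1 : Set (Equiv.Perm V)} {U : Finset V} (h : ∀ g ∈ P1, ∀ x ∈ U, g x ∈ U) {x : V}
    (hx : x ∈ U) : cls (Subgroup.closure P1) x ⊆ U := by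
  intro y hy
  obtain ⟨γ, hγ, rfl⟩ := mem_cls.1 hy
  exact closure_closed1 h hγ x hx

/-- the number of pairs in `Y × Y'` is at most ... : sums over pairs of components -/
theorem sum_pairs {M : Type*} [AddCommMonoid M] (F : V × V → M) :
    ∑ Y ∈ comps Γ, ∑ Y' ∈ comps Γ, ∑ p ∈ Y ×ˢ Y', F p = ∑ p, F p := by
  rw [Fintype.sum_prod_type, ← sum_comps (Γ := Γ)]
  refine sum_congr rfl fun Y _ => ?_
  simp_rw [sum_product]
  rw [sum_comm]
  exact sum_congr rfl fun x _ => sum_comps (Γ := Γ) fun y => F (x, y)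

/-- filtered pairs counted over pairs of components -/
theorem card_pairs (A : Finset (V × V)) :
    A.card = ∑ Y ∈ comps Γ, ∑ Y' ∈ comps Γ, (A.filter fun p => p.1 ∈ Y ∧ p.2 ∈ Y').card := by
  classical
  have h : A.card = ∑ p, if p ∈ A then 1 else 0 := by simp
  rw [h, ← sum_pairs (Γ := Γ)]
  refine sum_congr rfl fun Y _ => sum_congr rfl fun Y' _ => ?_
  rw [← sum_filter, sum_const, smul_eq_mul, mul_one]
  refine card_bij (fun p _ => p) ?_ (fun _ _ _ _ h => h) ?_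
  · intro p hp
    simp only [mem_filter, mem_product] at hp ⊢
    exact ⟨hp.2, hp.1⟩
  · intro p hp
    simp only [mem_filter] at hp
    exact ⟨p, by simp [mem_filter, mem_product, hp.1, hp.2], rfl⟩

end Pool.Agent.SYT
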