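import Pool.Agent.SYT.Sheet

/-!
# SYT-Edge: the counting functions of the sheets vary little along a letter

Project SYT (MP_a3a126_co), paper proof in /team-store/a3a126_87.md, section 2 (edge). `df a b = |a - b|`.
* `sum_phi`: for fixed `x`, the `q ∈ Q` with `q.1 = x` (all `Z`, all sheets `Q` of `Z`) are disjoint subsets of
  `{(x, v)}`, at most `card V` elements: `∑_{Q ∈ sheets Z} phi Q x = #{v ∈ Z : x ≠ v} ≤ |Z|` (`sum_sheets`) and
  `∑_Z |Z| = card V`.
* `phi_edge`: `phi Q x - phi Q (g x) ≤ #{q ∈ Q : q.1 = x, g q.2 ∉ Z}` since `mv g` maps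
  `{q ∈ Q : q.1 = x, g q.2 ∈ Z}` injectively into `{q ∈ Q : q.1 = g x}` (`sheet_step`). Summed over the sheets
  of `Z` and over `Z`: `≤ #{v : cls (g v) ≠ cls v} = (Dst Γ g).card` (`g v ∉ Z = cls v`).
  `phi Q (g x) - phi Q x ≤ #{q ∈ Q : q.1 = g x, g⁻¹ q.2 ∉ Z}` (`sheet_back`), summed: at most
  `#{v : cls (g⁻¹ v) ≠ cls v} = (Dst Γ g).card` (substitute `v = g u`).
-/

set_option autoImplicit false

open Finset

namespace Pool.Agent.SYT

variable {V : Type} [Fintype V] [DecidableEq V]

/-- the distance of two natural numbers -/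
def df (a b : ℕ) : ℕ := (a - b) + (b - a)

theorem mem_Dst {Γ : Subgroup (Equiv.Perm V)} {g : Equiv.Perm V} {x : V} :
    x ∈ Dst Γ g ↔ cls Γ (g x) ≠ cls Γ x := by
  simp [Dst]

variable (S : Sys V)

/-- sums over the sheets of the number of elements with a property -/
private theorem se_sheets (Z : Finset V) (p : V × V → Prop) [DecidablePred p] :
    ∑ Q ∈ S.sheets Z, (Q.filter p).card = ((base Z).filter p).card := by
  simp only [card_filter]
  exact sum_sheets S Z fun q => if p q then 1 else 0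

private theorem se_base (Z : Finset V) (x : V) (r : V → Prop) [DecidablePred r] :
    ((base Z).filter fun q => q.1 = x ∧ r q.2).card ≤ (Z.filter r).card := by
  refine card_le_card_of_injOn (fun q => q.2) ?_ ?_
  · intro q hq
    have h := mem_filter.1 hq
    exact mem_filter.2 ⟨(mem_base.1 h.1).2, h.2.2⟩
  · intro q hq q' hq' h
    have h1 := (mem_filter.1 hq).2.1
    have h2 := (mem_filter.1 hq').2.1
    exact Prod.ext (h1.trans h2.symm) h

private theorem se_comps {Γ : Subgroup (Equiv.Perm V)} (r : V → Prop) [DecidablePred r] :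
    ∑ Z ∈ comps Γ, (Z.filter r).card = (univ.filter r).card := by
  simp only [card_filter]
  exact sum_comps fun v => if r v then 1 else 0

private theorem se_one {Z : Finset V} {Q : Finset (V × V)} (hQ : Q ∈ S.sheets Z)
    {g : Equiv.Perm V} (hg : g ∈ S.P) (x : V) :
    phi Q x ≤ phi Q (g x) + (Q.filter fun q => q.1 = x ∧ g q.2 ∉ Z).card := by
  have h1 : (Q.filter fun q => q.1 = x) =
      (Q.filter fun q => q.1 = x ∧ g q.2 ∈ Z) ∪ (Q.filter fun q => q.1 = x ∧ g q.2 ∉ Z) := by
    ext q
    rw [mem_union, mem_filter, mem_filter, mem_filter]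
    tauto
  have h2 : (Q.filter fun q => q.1 = x ∧ g q.2 ∈ Z).card ≤ phi Q (g x) := by
    unfold phi
    refine card_le_card_of_injOn (mv g) ?_ (mv_injective g).injOn
    intro q hq
    have h := mem_filter.1 hq
    refine mem_filter.2 ⟨sheet_step S hQ h.1 hg h.2.2, ?_⟩
    show g q.1 = g x
    rw [h.2.1]
  calc phi Q x = (Q.filter fun q => q.1 = x).card := rfl
    _ ≤ _ := by rw [h1]; exact card_union_le _ _
    _ ≤ _ := Nat.add_le_add_right h2 _

private theorem se_two {Z : Finset V} {Q : Finset (V × V)} (hQ : Q ∈ S.sheets Z)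
    {g : Equiv.Perm V} (hg : g ∈ S.P) (x : V) :
    phi Q (g x) ≤ phi Q x + (Q.filter fun q => q.1 = g x ∧ g.symm q.2 ∉ Z).card := by
  have h1 : (Q.filter fun q => q.1 = g x) =
      (Q.filter fun q => q.1 = g x ∧ g.symm q.2 ∈ Z) ∪
        (Q.filter fun q => q.1 = g x ∧ g.symm q.2 ∉ Z) := by
    ext q
    rw [mem_union, mem_filter, mem_filter, mem_filter]
    tauto
  have h2 : (Q.filter fun q => q.1 = g x ∧ g.symm q.2 ∈ Z).card ≤ phi Q x := by
    unfold phi
    refine card_le_card_of_injOn (fun q => (g.symm q.1, g.symm q.2)) ?_ ?_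
    · intro q hq
      have h := mem_filter.1 hq
      have h3 : mv g (g.symm q.1, g.symm q.2) = q := by
        show (g (g.symm q.1), g (g.symm q.2)) = q
        rw [Equiv.apply_symm_apply, Equiv.apply_symm_apply]
      refine mem_filter.2 ⟨sheet_back S hQ h.2.2 hg (by rw [h3]; exact h.1), ?_⟩
      show g.symm q.1 = x
      rw [h.2.1, Equiv.symm_apply_apply]
    · intro q _ q' _ h
      have h4 := Prod.ext_iff.1 h
      exact Prod.ext (g.symm.injective h4.1) (g.symm.injective h4.2)
  calc phi Q (g x) = (Q.filter fun q => q.1 = g x).card := rfl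
    _ ≤ _ := by rw [h1]; exact card_union_le _ _
    _ ≤ _ := Nat.add_le_add_right h2 _

theorem sum_phi {P1 : Set (Equiv.Perm V)} (x : V) :
    ∑ Z ∈ comps (Subgroup.closure P1), ∑ Q ∈ S.sheets Z, phi Q x ≤ Fintype.card V := by
  have h : ∀ Z ∈ comps (Subgroup.closure P1), ∑ Q ∈ S.sheets Z, phi Q x ≤ Z.card := by
    intro Z _
    unfold phi
    rw [se_sheets]
    have h1 := se_base Z x (fun _ => True)
    simp only [and_true, filter_true] at h1
    exact h1
  exact (sum_le_sum h).trans (le_of_eq sum_card_comps)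

theorem phi_edge {P1 : Set (Equiv.Perm V)} (h1 : P1 ⊆ S.P) {g : Equiv.Perm V} (hg : g ∈ S.P)
    (x : V) :
    ∑ Z ∈ comps (Subgroup.closure P1), ∑ Q ∈ S.sheets Z, df (phi Q x) (phi Q (g x)) ≤
      2 * (Dst (Subgroup.closure P1) g).card := by
  have hA : ∀ Z ∈ comps (Subgroup.closure P1),
      ∑ Q ∈ S.sheets Z, df (phi Q x) (phi Q (g x)) ≤
        (Z.filter fun v => v ∈ Dst (Subgroup.closure P1) g).card +
          (Z.filter fun v => g.symm v ∈ Dst (Subgroup.closure P1) g).card := by
    intro Z hZ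
    have h2 : ∀ Q ∈ S.sheets Z, df (phi Q x) (phi Q (g x)) ≤
        (Q.filter fun q => q.1 = x ∧ g q.2 ∉ Z).card +
          (Q.filter fun q => q.1 = g x ∧ g.symm q.2 ∉ Z).card := by
      intro Q hQ
      have h3 := se_one S hQ hg x
      have h4 := se_two S hQ hg x
      unfold df
      omega
    refine (sum_le_sum h2).trans ?_
    rw [sum_add_distrib, se_sheets, se_sheets]
    refine Nat.add_le_add ((se_base Z x (fun v => g v ∉ Z)).trans (card_le_card ?_))
      ((se_base Z (g x) (fun v => g.symm v ∉ Z)).trans (card_le_card ?_))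
    · intro v hv
      obtain ⟨hv1, hv2⟩ := mem_filter.1 hv
      refine mem_filter.2 ⟨hv1, mem_Dst.2 fun h => hv2 ?_⟩
      rw [eq_cls hZ hv1]
      exact mem_cls_iff.2 h
    · intro v hv
      obtain ⟨hv1, hv2⟩ := mem_filter.1 hv
      refine mem_filter.2 ⟨hv1, mem_Dst.2 fun h => hv2 ?_⟩
      rw [Equiv.apply_symm_apply] at h
      rw [eq_cls hZ hv1]
      exact mem_cls_iff.2 h.symm
  refine (sum_le_sum hA).trans ?_
  rw [sum_add_distrib, se_comps, se_comps]
  have h5 : (univ.filter fun v => v ∈ Dst (Subgroup.closure P1) g).card =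
      (Dst (Subgroup.closure P1) g).card := by
    congr 1
    ext v
    rw [mem_filter]
    exact ⟨fun h => h.2, fun h => ⟨mem_univ _, h⟩⟩
  have h6 : (univ.filter fun v => g.symm v ∈ Dst (Subgroup.closure P1) g).card =
      (Dst (Subgroup.closure P1) g).card := by
    rw [← card_map g.toEmbedding (s := Dst (Subgroup.closure P1) g)]
    congr 1
    ext v
    rw [mem_filter, mem_map]
    constructor
    · rintro ⟨-, h⟩
      exact ⟨g.symm v, h, g.apply_symm_apply v⟩
    · rintro ⟨u, hu, rfl⟩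
      refine ⟨mem_univ _, ?_⟩
      show g.symm (g u) ∈ _
      rwa [Equiv.symm_apply_apply]
  rw [h5, h6]
  omega

end Pool.Agent.SYT
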