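import Pool.Agent.SYT.NDT
import Pool.Agent.SYT.Edge

/-!
# SYT-Join: adding one letter to the group

Project SYT (MP_a3a126_co), paper proof in /team-store/a3a126_87.md, section 3. `Γ = closure P1`,
`Γ' = closure (insert g P1)`, `D = Dst Γ g`, `r`, `r'` the numbers of components of `Γ`, `Γ'`, `𝒜 = meetc g D` the
`g`-cycles meeting `D`.
* `two_le_meet`: a `g`-cycle `A` meeting `D` has at least two elements in `D`: if only `x ∈ A` is in `D`,
  then `cls (g^(i+1) x) = cls (g^i x)` for all `i` with `g^i x ≠ x`, so `cls (g x) = cls x` going around the cycle.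
  Hence `2 |𝒜| ≤ |D|`. Also `D ⊆ ⋃ 𝒜`, so `|D| ≤ ∑_{A ∈ 𝒜} |A| ≤ card V`.
* `join_count`: choose `x_A ∈ A ∩ D` for every `A ∈ 𝒜`, `D' = D \ {x_A : A ∈ 𝒜}`, `|D'| = |D| - |𝒜|`. The space of the
  functions `F : V → ℚ` constant on the components of `Γ` has dimension `r`; those with `F (g x) = F x` for
  all `x ∈ D'` form a subspace of dimension `≥ r - |D'|`; such an `F` is constant on the components of
  `Γ'`: `F (g x) = F x` holds for `x ∉ D` and `x ∈ D'`, and for `x = x_A` by going around the cycle `A`; so the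
  dimension is `≤ r'` (e.g. linear maps `(comps Γ → ℚ) → (D' → ℚ)`, `LinearMap.finrank_range_add_finrank_ker`, and
  an injective linear map from the kernel into `comps Γ' → ℚ`). Any combinatorial proof is fine as well
  (adding one edge joins at most two classes).
-/

set_option autoImplicit false

open Finset

namespace Pool.Agent.SYT

variable {V : Type} [Fintype V] [DecidableEq V]

private theorem joi_ring {α : Type*} (F : V → α) (g : Equiv.Perm V) (a : V)
    (h : ∀ x ∈ cls (Subgroup.closure {g}) a, x ≠ a → F (g x) = F x) : F (g a) = F a := by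
  have hper : a ∈ Function.periodicPts g := g.injective.mem_periodicPts a
  have hn := Function.minimalPeriod_pos_of_mem_periodicPts hper
  have key : ∀ i, i + 1 ≤ Function.minimalPeriod g a → F (g^[i + 1] a) = F (g a) := by
    intro i
    induction i with
    | zero => intro _; simp
    | succ i ih =>
      intro hi
      have h1 : g^[i + 1] a ∈ cls (Subgroup.closure {g}) a := by
        rw [mem_cls]
        exact ⟨g ^ (i + 1), Subgroup.pow_mem _ (Subgroup.subset_closure (Set.mem_singleton g)) _,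
          by rw [Equiv.Perm.iterate_eq_pow]⟩
      have h2 : g^[i + 1] a ≠ a := fun h0 =>
        Function.not_isPeriodicPt_of_pos_of_lt_minimalPeriod (Nat.succ_ne_zero i) hi h0
      rw [Function.iterate_succ_apply', h _ h1 h2]
      exact ih (Nat.le_of_succ_le hi)
  obtain ⟨m, hm⟩ : ∃ m, Function.minimalPeriod g a = m + 1 :=
    ⟨Function.minimalPeriod g a - 1, (Nat.sub_add_cancel hn).symm⟩
  have h1 := key m (le_of_eq hm.symm)
  rw [← hm, Function.iterate_minimalPeriod] at h1
  exact h1.symm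

private theorem joi_mem {g : Equiv.Perm V} {D A : Finset V} :
    A ∈ meetc g D ↔ A ∈ comps (Subgroup.closure {g}) ∧ (A ∩ D).Nonempty := by
  simp [meetc]

private theorem joi_notD {Γ : Subgroup (Equiv.Perm V)} {g : Equiv.Perm V} {x : V}
    (h : x ∉ Dst Γ g) : cls Γ (g x) = cls Γ x := by
  by_contra h1
  exact h (mem_Dst.2 h1)

theorem two_le_meet (Γ : Subgroup (Equiv.Perm V)) (g : Equiv.Perm V) :
    2 * (meetc g (Dst Γ g)).card ≤ (Dst Γ g).card := by
  have h1 : ∀ A ∈ meetc g (Dst Γ g), 2 ≤ (A ∩ Dst Γ g).card := by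
    intro A hA
    obtain ⟨hA1, x, hx⟩ := joi_mem.1 hA
    by_contra hlt
    have hx' := mem_inter.1 hx
    have hone : ∀ y ∈ A ∩ Dst Γ g, y = x := by
      intro y hy
      by_contra hne
      have h2 : ({y, x} : Finset V) ⊆ A ∩ Dst Γ g := by
        intro z hz
        rw [mem_insert, mem_singleton] at hz
        rcases hz with rfl | rfl
        · exact hy
        · exact hx
      have h3 := card_le_card h2
      rw [card_pair hne] at h3
      omega
    refine mem_Dst.1 hx'.2 (joi_ring (cls Γ) g x fun y hy hne => joi_notD fun hyD => hne ?_)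
    refine hone y (mem_inter.2 ⟨?_, hyD⟩)
    rw [eq_cls hA1 hx'.1]
    exact hy
  have h2 : (meetc g (Dst Γ g)).card * 2 ≤ ∑ A ∈ meetc g (Dst Γ g), (A ∩ Dst Γ g).card := by
    rw [← smul_eq_mul]
    exact card_nsmul_le_sum _ _ _ h1
  have h3 : ∑ A ∈ meetc g (Dst Γ g), (A ∩ Dst Γ g).card =
      ((meetc g (Dst Γ g)).biUnion fun A => A ∩ Dst Γ g).card := by
    rw [card_biUnion]
    intro A hA B hB hne
    exact (comps_disj (joi_mem.1 hA).1 (joi_mem.1 hB).1 hne).mono inter_subset_left
      inter_subset_left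
  have h4 : ((meetc g (Dst Γ g)).biUnion fun A => A ∩ Dst Γ g).card ≤ (Dst Γ g).card :=
    card_le_card (biUnion_subset.2 fun A _ => inter_subset_right)
  omega

theorem meet_mass (Γ : Subgroup (Equiv.Perm V)) (g : Equiv.Perm V) :
    (Dst Γ g).card ≤ ∑ A ∈ meetc g (Dst Γ g), A.card := by
  have h1 : Dst Γ g ⊆ (meetc g (Dst Γ g)).biUnion id := by
    intro x hx
    rw [mem_biUnion]
    exact ⟨cls (Subgroup.closure {g}) x,
      joi_mem.2 ⟨cls_mem_comps x, x, mem_inter.2 ⟨self_mem_cls x, hx⟩⟩, self_mem_cls x⟩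
  exact (card_le_card h1).trans card_biUnion_le

theorem join_count (P1 : Set (Equiv.Perm V)) (g : Equiv.Perm V) :
    (comps (Subgroup.closure P1)).card + (meetc g (Dst (Subgroup.closure P1) g)).card ≤
      (Dst (Subgroup.closure P1) g).card + (comps (Subgroup.closure (insert g P1))).card := by
  classical
  obtain ⟨Γ, hΓ⟩ : ∃ Γ, Γ = Subgroup.closure P1 := ⟨_, rfl⟩
  obtain ⟨Γ', hΓ'⟩ : ∃ Γ', Γ' = Subgroup.closure (insert g P1) := ⟨_, rfl⟩
  rw [← hΓ, ← hΓ']
  rcases isEmpty_or_nonempty V with hV | hV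
  · have h1 : (comps Γ).card = 0 := by simp [comps]
    have h2 : (meetc g (Dst Γ g)).card = 0 := by simp [meetc, comps]
    omega
  have hex : ∀ A ∈ meetc g (Dst Γ g), ∃ x, x ∈ A ∩ Dst Γ g := fun A hA => (joi_mem.1 hA).2
  choose! pick hpick using hex
  obtain ⟨D', hD'⟩ : ∃ D' : Finset V, D' = (Dst Γ g).filter
    fun x => x ≠ pick (cls (Subgroup.closure {g}) x) := ⟨_, rfl⟩
  have hcard : D'.card + (meetc g (Dst Γ g)).card ≤ (Dst Γ g).card := by
    have h1 : (meetc g (Dst Γ g)).card ≤ ((Dst Γ g).filter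
        fun x => ¬ x ≠ pick (cls (Subgroup.closure {g}) x)).card := by
      refine card_le_card_of_injOn pick (fun A hA => ?_) fun A hA B hB h => ?_
      · have h2 := mem_inter.1 (hpick A hA)
        refine mem_coe.2 (mem_filter.2 ⟨h2.2, ?_⟩)
        rw [not_not, ← eq_cls (joi_mem.1 hA).1 h2.1]
      · by_contra hne
        have h2 := mem_inter.1 (hpick A hA)
        have h3 := mem_inter.1 (hpick B hB)
        rw [← h] at h3
        exact disjoint_left.1 (comps_disj (joi_mem.1 hA).1 (joi_mem.1 hB).1 hne) h2.1 h3.1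
    have h2 := card_filter_add_card_filter_not (s := Dst Γ g)
      (fun x => x ≠ pick (cls (Subgroup.closure {g}) x))
    rw [← hD'] at h2
    omega
  -- the linear algebra
  let T : (↥(comps Γ) → ℚ) →ₗ[ℚ] (↥D' → ℚ) :=
    { toFun := fun f x => f ⟨cls Γ (g x.1), cls_mem_comps _⟩ - f ⟨cls Γ x.1, cls_mem_comps _⟩
      map_add' := fun f f' => by
        funext x
        simp only [Pi.add_apply]
        ring
      map_smul' := fun c f => by
        funext x
        simp only [Pi.smul_apply, smul_eq_mul, RingHom.id_apply]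
        ring }
  have hrep : ∀ Y ∈ comps Γ', ∃ x, x ∈ Y := fun Y hY => by
    obtain ⟨x, hx, -⟩ := exists_rep hY
    exact ⟨x, hx⟩
  choose! rep hrep using hrep
  let R : (↥(comps Γ) → ℚ) →ₗ[ℚ] (↥(comps Γ') → ℚ) :=
    { toFun := fun f Y => f ⟨cls Γ (rep Y.1), cls_mem_comps _⟩
      map_add' := fun f f' => by
        funext x
        simp only [Pi.add_apply]
      map_smul' := fun c f => by
        funext x
        simp only [Pi.smul_apply, smul_eq_mul, RingHom.id_apply] }
  have hinj : Function.Injective (R.domRestrict (LinearMap.ker T)) := by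
    rw [injective_iff_map_eq_zero]
    rintro ⟨f, hf⟩ h0
    have hf' : ∀ x : ↥D', f ⟨cls Γ (g x.1), cls_mem_comps _⟩ = f ⟨cls Γ x.1, cls_mem_comps _⟩ := by
      intro x
      have h1 := congrFun (LinearMap.mem_ker.1 hf) x
      exact sub_eq_zero.1 h1
    have hF1 : ∀ x, x ≠ pick (cls (Subgroup.closure {g}) x) →
        f ⟨cls Γ (g x), cls_mem_comps _⟩ = f ⟨cls Γ x, cls_mem_comps _⟩ := by
      intro x hx
      by_cases hxD : x ∈ Dst Γ g
      · exact hf' ⟨x, by rw [hD']; exact mem_filter.2 ⟨hxD, hx⟩⟩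
      · congr 2
        exact joi_notD hxD
    have hF2 : ∀ x, f ⟨cls Γ (g x), cls_mem_comps _⟩ = f ⟨cls Γ x, cls_mem_comps _⟩ := by
      intro x
      by_cases hx : x ≠ pick (cls (Subgroup.closure {g}) x)
      · exact hF1 x hx
      rw [not_not] at hx
      refine joi_ring (fun y => f ⟨cls Γ y, cls_mem_comps _⟩) g x fun y hy hne => hF1 y ?_
      intro h1
      rw [cls_eq hy, ← hx] at h1
      exact hne h1
    have hF3 : ∀ h ∈ insert g P1, ∀ x, f ⟨cls Γ (h x), cls_mem_comps _⟩ =
        f ⟨cls Γ x, cls_mem_comps _⟩ := by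
      rintro h (rfl | hh) x
      · exact hF2 x
      · congr 2
        refine cls_apply ?_ x
        rw [hΓ]
        exact Subgroup.subset_closure hh
    have hzero : ∀ x, f ⟨cls Γ x, cls_mem_comps _⟩ = 0 := by
      intro x
      have h1 : rep (cls Γ' x) ∈ cls Γ' x := hrep _ (cls_mem_comps x)
      rw [hΓ'] at h1
      have h2 := const_of_letters (F := fun y => f ⟨cls Γ y, cls_mem_comps _⟩) hF3 h1
      rw [← hΓ'] at h2
      have h3 := congrFun h0 ⟨cls Γ' x, cls_mem_comps x⟩
      exact h2.symm.trans h3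
    apply Subtype.ext
    funext Y
    obtain ⟨x, -, hx⟩ := exists_rep Y.2
    have h1 : Y = ⟨cls Γ x, cls_mem_comps _⟩ := Subtype.ext hx
    rw [h1]
    exact hzero x
  have h1 := LinearMap.finrank_range_add_finrank_ker T
  have h2 : Module.finrank ℚ (LinearMap.range T) ≤ Module.finrank ℚ (↥D' → ℚ) :=
    Submodule.finrank_le _
  have h3 := LinearMap.finrank_le_finrank_of_injective hinj
  rw [Module.finrank_fintype_fun_eq_card, Fintype.card_coe] at h1 h2 h3
  omega

end Pool.Agent.SYT
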