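import Pool.Agent.SYT.Both
import Pool.Agent.SYT.Join

/-!
# SYT-CrossI: the crossing inequality

Project SYT (MP_a3a126_co), paper proof in /team-store/a3a126_87.md, section 3 (CROSSING INEQUALITY).
`Γ = closure P1`, `D = Dst Γ g`, `m = |D|`, `n = card V`. The pairs with a state in `D` (`card_meet`) are covered by:
`Coll` (`≤ 3 d`), `Pre` (`≤ 3 d`), `ND P1` (`nd_total`), the part of `ND {g}` meeting `D` (`nd_meet`), and the pairs outside
`Pre` descended both by `g` and by some `f ∈ P1` (`both_desc`; descending: `wt (mv f p) < wt p` is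
`wt (mv f p) + 1 = wt p` by `wt_step`). Take `r1 = |meetc g D|`, `n1` = their mass.
-/

set_option autoImplicit false

open Finset

namespace Pool.Agent.SYT

variable {V : Type} [Fintype V] [DecidableEq V] (S : Sys V)

open Classical in
private theorem crossi_cover {P1 : Finset (Equiv.Perm V)} (h1 : (P1 : Set (Equiv.Perm V)) ⊆ S.P)
    {g : Equiv.Perm V} (hg : g ∈ S.P) (D : Finset V) :
    ((off V).filter fun p => p.1 ∈ D ∨ p.2 ∈ D).card ≤
      S.Coll.card + S.Pre.card + (S.ND (P1 : Set (Equiv.Perm V))).card +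
        ((S.ND {g}).filter fun p => p.1 ∈ D ∨ p.2 ∈ D).card +
        ((off V).filter fun p => p ∉ S.Pre ∧ (p.1 ∈ D ∨ p.2 ∈ D) ∧
          S.wt (mv g p) + 1 = S.wt p ∧ ∃ f ∈ P1, S.wt (mv f p) + 1 = S.wt p).card := by
  refine le_trans (card_le_card (t := (((S.Coll ∪ S.Pre) ∪ S.ND (P1 : Set (Equiv.Perm V))) ∪
    ((S.ND {g}).filter fun p => p.1 ∈ D ∨ p.2 ∈ D)) ∪
    ((off V).filter fun p => p ∉ S.Pre ∧ (p.1 ∈ D ∨ p.2 ∈ D) ∧
          S.wt (mv g p) + 1 = S.wt p ∧ ∃ f ∈ P1, S.wt (mv f p) + 1 = S.wt p)) ?_) ?_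
  · intro p hp
    obtain ⟨hp1, hp2⟩ := mem_filter.1 hp
    by_cases hc : p ∈ S.Coll
    · exact mem_union_left _ (mem_union_left _ (mem_union_left _ (mem_union_left _ hc)))
    by_cases hpre : p ∈ S.Pre
    · exact mem_union_left _ (mem_union_left _ (mem_union_left _ (mem_union_right _ hpre)))
    by_cases hn : ∀ f ∈ (P1 : Set (Equiv.Perm V)), S.wt p ≤ S.wt (mv f p)
    · exact mem_union_left _ (mem_union_left _ (mem_union_right _
        ((mem_ND S).2 ⟨mem_off.1 hp1, hc, hn⟩)))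
    by_cases hng : S.wt p ≤ S.wt (mv g p)
    · refine mem_union_left _ (mem_union_right _ (mem_filter.2 ⟨(mem_ND S).2
        ⟨mem_off.1 hp1, hc, ?_⟩, hp2⟩))
      intro f hf
      rw [Set.mem_singleton_iff] at hf
      rw [hf]
      exact hng
    push Not at hn
    obtain ⟨f, hf, hf2⟩ := hn
    refine mem_union_right _ (mem_filter.2 ⟨hp1, hpre, hp2, ?_, f, mem_coe.1 hf, ?_⟩)
    · have := wt_step S hg p
      omega
    · have := wt_step S (h1 hf) p
      omega
  · refine (card_union_le _ _).trans (Nat.add_le_add_right ?_ _)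
    refine (card_union_le _ _).trans (Nat.add_le_add_right ?_ _)
    refine (card_union_le _ _).trans (Nat.add_le_add_right ?_ _)
    exact card_union_le _ _

theorem cross_ineq {P1 : Finset (Equiv.Perm V)} (h1 : (P1 : Set (Equiv.Perm V)) ⊆ S.P)
    {g : Equiv.Perm V} (hg : g ∈ S.P) {n m r r' : ℕ} (hn : n = Fintype.card V)
    (hm : m = (Dst (Subgroup.closure (P1 : Set (Equiv.Perm V))) g).card)
    (hr : r = (comps (Subgroup.closure (P1 : Set (Equiv.Perm V)))).card)
    (hr' : r' = (comps (Subgroup.closure (insert g (P1 : Set (Equiv.Perm V))))).card) :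
    ∃ r1 n1 : ℕ, 2 * r1 ≤ m ∧ m ≤ n1 ∧ m ≤ n ∧ r + r1 ≤ m + r' ∧
      2 * m * n + sd (Subgroup.closure (P1 : Set (Equiv.Perm V))) + r1 * n1 ≤
        (r + 1) * n + 2 * r1 * n + 2 * n + P1.card * n + m ^ 2 + m + 6 * S.d := by
  classical
  subst hn hm hr hr'
  refine ⟨(meetc g (Dst (Subgroup.closure (P1 : Set (Equiv.Perm V))) g)).card,
    ∑ A ∈ meetc g (Dst (Subgroup.closure (P1 : Set (Equiv.Perm V))) g), A.card,
    two_le_meet _ _, meet_mass _ _, card_le_univ _, join_count _ _, ?_⟩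
  have e1 := card_meet (Dst (Subgroup.closure (P1 : Set (Equiv.Perm V))) g)
  have e2 := crossi_cover S h1 hg (Dst (Subgroup.closure (P1 : Set (Equiv.Perm V))) g)
  have e3 := card_coll S
  have e4 := card_pre S
  have e5 := nd_total S h1
  have e6 := nd_meet S hg (Dst (Subgroup.closure (P1 : Set (Equiv.Perm V))) g)
  have e7 := both_desc S h1 hg
  generalize (Dst (Subgroup.closure (P1 : Set (Equiv.Perm V))) g) = D at *
  have e8 : ((off V).filter fun p => p ∉ S.Pre ∧ (p.1 ∈ D ∨ p.2 ∈ D) ∧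
          S.wt (mv g p) + 1 = S.wt p ∧ ∃ f ∈ P1, S.wt (mv f p) + 1 = S.wt p).card ≤
      P1.card * Fintype.card V := by
    refine le_trans (le_of_eq ?_) e7
    congr 1
  have e9 : ((off V).filter fun p => p.1 ∈ D ∨ p.2 ∈ D).card + D.card ^ 2 + D.card =
      2 * D.card * Fintype.card V := by
    rw [← e1]
  have e10 : ((S.ND {g}).filter fun p => p.1 ∈ D ∨ p.2 ∈ D).card +
        (meetc g D).card * ∑ A ∈ meetc g D, A.card ≤
      2 * (meetc g D).card * Fintype.card V + 2 * Fintype.card V := e6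
  generalize ((off V).filter fun p => p.1 ∈ D ∨ p.2 ∈ D).card = b1 at *
  linarith

end Pool.Agent.SYT
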