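import Pool.Agent.SYT.NDT

/-! Small components and the sum of the differences (project SYT). -/

set_option autoImplicit false

open Finset

namespace Pool.Agent.SYT

variable {V : Type} [Fintype V] [DecidableEq V]

theorem comps_le {P1 : Set (Equiv.Perm V)} {f : Equiv.Perm V} (hf : f ∈ P1) {G : ℕ}
    (hG : Fintype.card V ≤ G * (univ.filter fun x => f (f x) ≠ x).card) :
    3 * (comps (Subgroup.closure P1)).card * Fintype.card V ≤
      Fintype.card V ^ 2 + 9 * G * sd (Subgroup.closure P1) := by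
  classical
  set Γ := Subgroup.closure P1 with hΓ
  obtain ⟨Sm, hSm⟩ : ∃ Sm, Sm = (comps Γ).filter fun Y => Y.card ≤ 2 := ⟨_, rfl⟩
  obtain ⟨Bg, hBg⟩ : ∃ Bg, Bg = (comps Γ).filter fun Y => ¬ Y.card ≤ 2 := ⟨_, rfl⟩
  have hr : Sm.card + Bg.card = (comps Γ).card := by
    rw [hSm, hBg]
    exact card_filter_add_card_filter_not _
  obtain ⟨m3, hm3⟩ : ∃ m3, m3 = ∑ Y ∈ Bg, Y.card := ⟨_, rfl⟩
  have hBgm : ∀ Y ∈ Bg, Y ∈ comps Γ ∧ 3 ≤ Y.card := by
    intro Y hY
    rw [hBg, mem_filter] at hY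
    exact ⟨hY.1, by omega⟩
  have hfΓ : f ∈ Γ := Subgroup.subset_closure hf
  have h1 : (univ.filter fun x => f (f x) ≠ x).card ≤ m3 := by
    have h2 : (univ.filter fun x => f (f x) ≠ x) ⊆ Bg.biUnion id := by
      intro x hx
      have hx' := (mem_filter.1 hx).2
      rw [mem_biUnion]
      refine ⟨cls Γ x, ?_, self_mem_cls x⟩
      rw [hBg, mem_filter]
      refine ⟨cls_mem_comps x, ?_⟩
      have h3 : f x ≠ x := by
        intro h
        apply hx'
        rw [h, h]
      have h4 : f (f x) ≠ f x := fun h => h3 (f.injective h)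
      have h5 : ({x, f x, f (f x)} : Finset V) ⊆ cls Γ x := by
        intro z hz
        simp only [mem_insert, mem_singleton] at hz
        rcases hz with rfl | rfl | rfl
        · exact self_mem_cls _
        · exact mem_cls.2 ⟨f, hfΓ, rfl⟩
        · exact mem_cls.2 ⟨f * f, mul_mem hfΓ hfΓ, rfl⟩
      have h6 := card_le_card h5
      rw [card_eq_three.2 ⟨x, f x, f (f x), h3.symm, hx'.symm, h4.symm, rfl⟩] at h6
      omega
    refine (card_le_card h2).trans (card_biUnion_le.trans ?_)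
    rw [hm3]
    exact le_of_eq rfl
  have h2 : m3 ≤ Fintype.card V := by
    rw [hm3, ← sum_card_comps (Γ := Γ)]
    exact sum_le_sum_of_subset fun Y hY => (hBgm Y hY).1
  have h3 : 3 * Bg.card ≤ m3 := by
    rw [hm3, mul_comm, ← smul_eq_mul, ← sum_const]
    exact sum_le_sum fun Y hY => (hBgm Y hY).2
  have h4 : Sm.card * m3 ≤ 3 * sd Γ := by
    have h5 : ∑ Y ∈ Bg, ∑ Y' ∈ Sm, (Y.card - Y'.card) ≤ sd Γ := by
      unfold sd
      refine (sum_le_sum fun Y _ => sum_le_sum_of_subset (f := fun Y' => Y.card - Y'.card)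
        (s := Sm) (t := comps Γ) ?_).trans ?_
      · rw [hSm]
        exact filter_subset _ _
      · exact sum_le_sum_of_subset fun Y hY => (hBgm Y hY).1
    have h6 : ∀ Y ∈ Bg, Sm.card * Y.card ≤ 3 * ∑ Y' ∈ Sm, (Y.card - Y'.card) := by
      intro Y hY
      have h7 := (hBgm Y hY).2
      rw [mul_sum, ← smul_eq_mul, ← sum_const]
      refine sum_le_sum fun Y' hY' => ?_
      rw [hSm, mem_filter] at hY'
      omega
    have h8 := sum_le_sum h6
    rw [← mul_sum, ← mul_sum, ← hm3] at h8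
    omega
  have h9 : Fintype.card V ≤ G * m3 := hG.trans (Nat.mul_le_mul_left _ h1)
  rw [← hr]
  have h10 : 3 * Sm.card * Fintype.card V ≤ 9 * G * sd Γ := by
    calc 3 * Sm.card * Fintype.card V ≤ 3 * Sm.card * (G * m3) := Nat.mul_le_mul_left _ h9
      _ = 3 * G * (Sm.card * m3) := by ring
      _ ≤ 3 * G * (3 * sd Γ) := Nat.mul_le_mul_left _ h4
      _ = 9 * G * sd Γ := by ring
  have h11 : 3 * Bg.card * Fintype.card V ≤ Fintype.card V ^ 2 := by
    rw [sq]
    exact Nat.mul_le_mul_right _ (h3.trans h2)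
  calc 3 * (Sm.card + Bg.card) * Fintype.card V =
      3 * Sm.card * Fintype.card V + 3 * Bg.card * Fintype.card V := by ring
    _ ≤ 9 * G * sd Γ + Fintype.card V ^ 2 := Nat.add_le_add h10 h11
    _ = _ := Nat.add_comm _ _

end Pool.Agent.SYT
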