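import Pool.Agent.SYT.Many
import Pool.Agent.SYT.Chain
import Pool.Agent.SYT.CrossI
import Pool.Agent.SYT.Small

/-!
# SYT-Few: a letter with many states in cycles of length at least three has few cycles

Project SYT (MP_a3a126_co), paper proof in /team-store/a3a126_87.md, section 3.
-/

set_option autoImplicit false

open Finset

namespace Pool.Agent.SYT

private theorem few_num {n m r r' r1 n1 j d sd G k : ℝ} (hn : 0 < n) (hG : 0 ≤ G) (hj : 0 ≤ j)
    (hd : 0 ≤ d) (hr1 : 0 ≤ r1) (hsd : 0 ≤ sd)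
    (hk : n ≤ 24576 * k) (hkm : k ≤ m) (h2 : 2 * r1 ≤ m) (hmn1 : m ≤ n1) (hmn : m ≤ n)
    (hrr : r + r1 ≤ m + r') (hr' : r' ≤ 6144)
    (hmain : 2 * m * n + sd + r1 * n1 ≤ (r + 1) * n + 2 * r1 * n + 2 * n + j * n + m ^ 2 + m + 6 * d)
    (hsm : 3 * r * n ≤ n ^ 2 + 9 * G * sd)
    (heps : 400000 * (G + 1) * ((6148 + j) * n + 6 * d) ≤ n ^ 2) : False := by
  obtain ⟨ε, hε⟩ : ∃ ε, ε = (6148 + j) * n + 6 * d := ⟨_, rfl⟩
  rw [← hε] at heps
  have hε0 : 0 ≤ ε := by rw [hε]; positivity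
  have hm0 : 0 ≤ m := by linarith
  have e1 : (r + r1) * n ≤ (m + r') * n := mul_le_mul_of_nonneg_right hrr hn.le
  have e2 : r' * n ≤ 6144 * n := mul_le_mul_of_nonneg_right hr' hn.le
  have e3 : r1 * m ≤ r1 * n1 := mul_le_mul_of_nonneg_left hmn1 hr1
  have h1 : (m - r1) * (n - m) + sd ≤ ε := by
    rw [hε]; nlinarith
  have h0 : 0 ≤ (m - r1) * (n - m) := mul_nonneg (by linarith) (by linarith)
  have hsd1 : sd ≤ ε := by linarith
  -- size of n - m
  obtain ⟨e, he⟩ : ∃ e, e = n - m := ⟨_, rfl⟩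
  have he0 : 0 ≤ e := by rw [he]; linarith
  have h2' : m * e ≤ 2 * ε := by
    have : m * e ≤ 2 * ((m - r1) * e) := by nlinarith
    rw [← he] at h1 h0
    linarith
  have h3 : n * e ≤ 49152 * ε := by
    have : n * e ≤ 24576 * (m * e) := by nlinarith
    linarith
  -- lower bound for r
  have h4 : n ^ 2 - e ^ 2 - 2 * ε ≤ 2 * r * n := by
    have e4 : r1 * (2 * n - m) ≤ m / 2 * (2 * n - m) :=
      mul_le_mul_of_nonneg_right (by linarith) (by linarith)
    have hm' : m = n - e := by rw [he]; ring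
    have e5 : 2 * m * n + r1 * m ≤ (r + 1) * n + 2 * r1 * n + 2 * n + j * n + m ^ 2 + m + 6 * d := by
      linarith
    rw [hε]
    subst hm'
    nlinarith
  have h5 : 3 * (2 * r * n) ≤ 2 * n ^ 2 + 18 * G * ε := by
    have : G * sd ≤ G * ε := mul_le_mul_of_nonneg_left hsd1 hG
    nlinarith
  have h6 : n ^ 2 ≤ 3 * e ^ 2 + (6 + 18 * G) * ε := by nlinarith
  have h7 : e * 8 ≤ n := by
    have : 400000 * ε ≤ n ^ 2 := by nlinarith [mul_nonneg hG hε0]
    have h8 : n * (e * 8) ≤ n * n := by nlinarith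
    exact le_of_mul_le_mul_left h8 hn
  have h8 : 3 * e ^ 2 * 64 ≤ 3 * n ^ 2 := by nlinarith
  have h9 : (6 + 18 * G) * ε * 20000 ≤ n ^ 2 := by nlinarith [mul_nonneg hG hε0]
  nlinarith [pow_pos hn 2]

private theorem sq_le_two_pow (L : ℕ) : (1 + L) ^ 2 ≤ 4 * 2 ^ L := by
  induction L with
  | zero => norm_num
  | succ L ih =>
    rw [pow_succ 2 L]
    rcases Nat.lt_or_ge L 3 with h | h
    · interval_cases L <;> norm_num
    · nlinarith

private theorem log_small (C : ℕ) : ∃ n0 : ℕ, ∀ n, n0 ≤ n → C * (1 + Nat.log 2 n) ≤ n := by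
  refine ⟨4 * C ^ 2 + 1, fun n hn => ?_⟩
  have h1 := sq_le_two_pow (Nat.log 2 n)
  have h2 : 2 ^ Nat.log 2 n ≤ n := Nat.pow_log_le_self 2 (by omega)
  have h3 : (C * (1 + Nat.log 2 n)) ^ 2 ≤ n ^ 2 := by
    calc (C * (1 + Nat.log 2 n)) ^ 2 = C ^ 2 * (1 + Nat.log 2 n) ^ 2 := by ring
      _ ≤ C ^ 2 * (4 * n) := Nat.mul_le_mul_left _ (by omega)
      _ = (4 * C ^ 2) * n := by ring
      _ ≤ n * n := Nat.mul_le_mul_right _ (by omega)
      _ = n ^ 2 := by ring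
  exact (Nat.pow_le_pow_iff_left (by norm_num)).1 h3

theorem few (G : ℕ) : ∃ K' n0 : ℕ, ∀ (V : Type) [Fintype V] [DecidableEq V] (S : Sys V)
    (f : Equiv.Perm V), f ∈ S.P →
    Fintype.card V ≤ G * (univ.filter fun x => f (f x) ≠ x).card →
    n0 ≤ Fintype.card V → K' * S.d ≤ Fintype.card V ^ 2 →
    (comps (Subgroup.closure ({f} : Set (Equiv.Perm V)))).card < 6144 := by
  obtain ⟨n0, hn0⟩ := log_small (800000 * (G + 1) * 60000)
  refine ⟨4800000 * (G + 1), max n0 24576, ?_⟩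
  intro V _ _ S f hf hG hn hd
  obtain ⟨n, hnV⟩ : ∃ n, n = Fintype.card V := ⟨_, rfl⟩
  rw [← hnV] at hn hd hG
  have hn1 : n0 ≤ n := le_trans (le_max_left _ _) hn
  have hn2 : 24576 ≤ n := le_trans (le_max_right _ _) hn
  have hlog := hn0 n hn1
  by_contra hcon
  push Not at hcon
  obtain ⟨k, hk⟩ : ∃ k, k = n / 12288 := ⟨_, rfl⟩
  have hk1 : 12288 * k ≤ n := by rw [hk]; exact Nat.mul_div_le _ _
  have hk2 : n ≤ 24576 * k := by omega
  have hk3 : 0 < k := by omega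
  have hd3 : 3072 * S.d < n ^ 2 := by
    have h1 : 4800000 * S.d ≤ 4800000 * (G + 1) * S.d := by nlinarith [Nat.zero_le (G * S.d)]
    have h2 : 0 < n ^ 2 := by positivity
    omega
  have hmany : ∀ P1 : Finset (Equiv.Perm V), (P1 : Set (Equiv.Perm V)) ⊆ S.P →
      6144 ≤ (comps (Subgroup.closure (P1 : Set (Equiv.Perm V)))).card →
      ∃ g ∈ S.P, k < (Dst (Subgroup.closure (P1 : Set (Equiv.Perm V))) g).card := by
    intro P1 h1 h2
    by_contra hc
    push Not at hc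
    have h3 := many S h1 hc (by rw [← hnV]; exact hk1) (by rw [← hnV]; omega)
      (by rw [← hnV]; exact hd3)
    omega
  obtain ⟨P1, hP1, hfP1, hr, hj, g, hg, hkm, hr'⟩ := crossing S hf hmany hcon
  rw [← hnV] at hj
  obtain ⟨m, hm⟩ : ∃ m, m = (Dst (Subgroup.closure (P1 : Set (Equiv.Perm V))) g).card := ⟨_, rfl⟩
  obtain ⟨r, hrr⟩ : ∃ r, r = (comps (Subgroup.closure (P1 : Set (Equiv.Perm V)))).card := ⟨_, rfl⟩
  obtain ⟨r', hrr'⟩ : ∃ r, r = (comps (Subgroup.closure (insert g (P1 : Set (Equiv.Perm V))))).card :=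
    ⟨_, rfl⟩
  obtain ⟨r1, n1, c1, c2, c3, c4, c5⟩ := cross_ineq S hP1 hg hnV hm hrr hrr'
  have hsm := comps_le (P1 := (P1 : Set (Equiv.Perm V))) (f := f) (by simpa using hfP1)
    (G := G) (by rw [← hnV]; exact hG)
  rw [← hnV, ← hrr] at hsm
  rw [← hm] at hkm
  rw [← hrr'] at hr'
  obtain ⟨sd', hsd⟩ : ∃ s, s = sd (Subgroup.closure (P1 : Set (Equiv.Perm V))) := ⟨_, rfl⟩
  rw [← hsd] at hsm c5
  obtain ⟨j, hjj⟩ : ∃ j, j = P1.card := ⟨_, rfl⟩
  rw [← hjj] at hj c5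
  obtain ⟨d, hdd⟩ : ∃ d, d = S.d := ⟨_, rfl⟩
  rw [← hdd] at hd c5
  obtain ⟨L, hL⟩ : ∃ L, L = Nat.log 2 n := ⟨_, rfl⟩
  rw [← hL] at hj hlog
  have hj2 : j ≤ 1 + 49152 * L := by
    have h1 : k * j ≤ k * (1 + 49152 * L) := by nlinarith [Nat.zero_le L]
    exact Nat.le_of_mul_le_mul_left h1 hk3
  have heps : 400000 * (G + 1) * ((6148 + j) * n + 6 * d) ≤ n ^ 2 := by
    have h1 : 6148 + j ≤ 60000 * (1 + L) := by omega
    have h2 : 800000 * (G + 1) * ((6148 + j) * n) ≤ n * n := by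
      calc 800000 * (G + 1) * ((6148 + j) * n) ≤ 800000 * (G + 1) * ((60000 * (1 + L)) * n) := by
            gcongr
        _ = (800000 * (G + 1) * 60000 * (1 + L)) * n := by ring
        _ ≤ n * n := Nat.mul_le_mul_right _ hlog
    nlinarith
  exact few_num (n := n) (m := m) (r := r) (r' := r') (r1 := r1) (n1 := n1) (j := j) (d := d)
    (sd := sd') (G := G) (k := k) (by exact_mod_cast (by omega : 0 < n)) (by positivity)
    (by positivity) (by positivity) (by positivity) (by positivity) (by exact_mod_cast hk2)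
    (by exact_mod_cast hkm.le) (by exact_mod_cast c1) (by exact_mod_cast c2)
    (by exact_mod_cast c3) (by exact_mod_cast c4) (by exact_mod_cast hr'.le)
    (by exact_mod_cast c5) (by exact_mod_cast hsm) (by exact_mod_cast heps)

end Pool.Agent.SYT
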