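import Pool.Agent.SYT.TypeI
import Pool.Agent.SYT.Few

/-!
# SYT-Core: the letter `f` is an `n`-cycle

Project SYT (MP_a3a126_co), paper proof in /team-store/a3a126_87.md, sections 3 (end) and 5.
`few G` gives `K'`, `n0`. Then all components of `closure {f}` have `≥ n / K` elements, `K = 49152`: `mc` with `P1 = {f}`:
`M ≤ b n + 2 n r b ≤ 12287 b n` (`r ≤ 6143`), `8 M ≥ 3 n²`. So `type_one` applies (with `K' ≥ 2000000 K⁴`,
`n0 ≥ 1000000 K³`): `S.P ⊆ {1, f}`, and by `S.trans` the powers of `f` act transitively.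
-/

set_option autoImplicit false

open Finset

namespace Pool.Agent.SYT

theorem core (G : ℕ) : ∃ K' n0 : ℕ, 1 ≤ K' ∧ ∀ (V : Type) [Fintype V] [DecidableEq V] (S : Sys V)
    (f : Equiv.Perm V), f ∈ S.P →
    Fintype.card V ≤ G * (univ.filter fun x => f (f x) ≠ x).card →
    n0 ≤ Fintype.card V → K' * S.d ≤ Fintype.card V ^ 2 →
    ∀ x y : V, ∃ i : ℕ, f^[i] x = y := by
  obtain ⟨K', n0, h⟩ := few G
  refine ⟨K' + 2000000 * 49152 ^ 4, n0 + 1000000 * 49152 ^ 3, by omega, ?_⟩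
  intro V _ _ S f hf hG hn hd
  obtain ⟨n, hnV⟩ : ∃ n, n = Fintype.card V := ⟨_, rfl⟩
  rw [← hnV] at hn hd
  rw [add_mul] at hd
  have hr := h V S f hf hG (by rw [← hnV]; omega) (by rw [← hnV]; omega)
  have hd1 : 2000000 * 49152 ^ 4 * S.d ≤ n ^ 2 := by omega
  have hd2 : 100 * S.d ≤ n ^ 2 := by
    have : 100 * S.d ≤ 2000000 * 49152 ^ 4 * S.d := Nat.mul_le_mul_right _ (by norm_num)
    omega
  have hn1 : 1000000 * 49152 ^ 3 ≤ n := by omega
  have hn2 : 1000 ≤ n := le_trans (by norm_num) hn1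
  have hM := two_M_add S
  rw [← hnV] at hM
  have hM2 : 3 * n ^ 2 ≤ 8 * S.M := by
    obtain ⟨m, rfl⟩ : ∃ m, n = m + 1 := ⟨n - 1, by omega⟩
    simp only [Nat.add_sub_cancel] at hM
    nlinarith
  have hK : ∀ x, Fintype.card V ≤ 49152 * (cyc f x).card := by
    intro x
    have h1 := mc S (P1 := ({f} : Set (Equiv.Perm V))) (by simpa using hf)
      (Y := cyc f x) (cls_mem_comps x)
    rw [← hnV] at h1 ⊢
    obtain ⟨b, hb⟩ : ∃ b, b = (cyc f x).card := ⟨_, rfl⟩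
    obtain ⟨r, hrr⟩ : ∃ r, r = (comps (Subgroup.closure ({f} : Set (Equiv.Perm V)))).card := ⟨_, rfl⟩
    rw [← hrr] at h1 hr
    rw [← hb] at h1 ⊢
    have h2 : r * b ≤ 6143 * b := Nat.mul_le_mul_right _ (by omega)
    have h3 : 2 * n * (r * b) ≤ 2 * n * (6143 * b) := Nat.mul_le_mul_left _ h2
    have h4 : n * n ≤ n * (49152 * b) := by nlinarith
    exact Nat.le_of_mul_le_mul_left h4 (by omega)
  have hP : ∀ g ∈ S.P, g = 1 ∨ g = f := fun g hg =>
    type_one S hf (by norm_num : 1 ≤ 49152) hK (by rw [← hnV]; exact hn1)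
      (by rw [← hnV]; exact hd1) hg
  have hle : Subgroup.closure S.P ≤ Subgroup.closure ({f} : Set (Equiv.Perm V)) := by
    rw [Subgroup.closure_le]
    intro g hg
    rcases hP g hg with rfl | rfl
    · exact Subgroup.one_mem _
    · exact Subgroup.subset_closure rfl
  intro x y
  obtain ⟨γ, hγ, hxy⟩ := S.trans x y
  have h1 : y ∈ cyc f x := mem_cls.2 ⟨γ, hle hγ, hxy⟩
  obtain ⟨i, hi⟩ := (mem_cyc f).1 h1
  exact ⟨i, by rw [Equiv.Perm.iterate_eq_pow]; exact hi⟩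

end Pool.Agent.SYT
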