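import Pool.Agent.SYT.Cls

/-!
# SYT-CycB: the cycle of a state under one permutation

Project SYT (MP_a3a126_co). `cyc f x = cls (closure {f}) x`. Elementary: `(cyc f x).card` is the minimal period
of `f` at `x`. Hint: `Subgroup.closure_singleton`/`Subgroup.mem_zpowers_iff`, finite order, `Function.minimalPeriod`,
`Equiv.Perm.iterate_eq_pow`, `Function.iterate_injOn_Iio_minimalPeriod` (compare
`Helper41.Circ.minPeriod` in Pool/Agent/Helper41/Circ/Defs.lean).
-/

set_option autoImplicit false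

open Finset

namespace Pool.Agent.SYT

variable {V : Type} [Fintype V] [DecidableEq V] (f : Equiv.Perm V)

private theorem cycBAux_inv (i : ℕ) : ∃ j : ℕ, (f ^ i)⁻¹ = f ^ j := by
  have hf : IsOfFinOrder f := isOfFinOrder_of_finite f
  have h : (f ^ i)⁻¹ ∈ Submonoid.powers f := by
    rw [hf.mem_powers_iff_mem_zpowers]
    exact inv_mem (Subgroup.pow_mem _ (Subgroup.mem_zpowers f) i)
  obtain ⟨j, hj⟩ := h
  exact ⟨j, hj.symm⟩

private theorem cycBAux_mem {x y : V} : y ∈ cyc f x ↔ ∃ i : ℕ, (f ^ i) x = y := by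
  unfold cyc
  rw [mem_cls]
  constructor
  · rintro ⟨γ, hγ, hy⟩
    have hf : IsOfFinOrder f := isOfFinOrder_of_finite f
    rw [← Subgroup.zpowers_eq_closure, ← hf.mem_powers_iff_mem_zpowers] at hγ
    obtain ⟨i, hi⟩ := hγ
    refine ⟨i, ?_⟩
    rw [← hy, ← hi]
  · rintro ⟨i, hi⟩
    exact ⟨f ^ i, pow_mem (Subgroup.subset_closure (Set.mem_singleton f)) i, hi⟩

private theorem cycBAux_pos (x : V) : 0 < Function.minimalPeriod f x := by
  apply Function.minimalPeriod_pos_of_mem_periodicPts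
  refine ⟨orderOf f, orderOf_pos f, ?_⟩
  unfold Function.IsPeriodicPt Function.IsFixedPt
  rw [Equiv.Perm.iterate_eq_pow, pow_orderOf_eq_one]
  rfl

private theorem cycBAux_card (x : V) : (cyc f x).card = Function.minimalPeriod f x := by
  have h : cyc f x = (range (Function.minimalPeriod f x)).image (fun i => (f ^ i) x) := by
    ext y
    rw [cycBAux_mem f, mem_image]
    constructor
    · rintro ⟨i, hi⟩
      refine ⟨i % Function.minimalPeriod f x,
        mem_range.2 (Nat.mod_lt _ (cycBAux_pos f x)), ?_⟩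
      rw [← hi, ← Equiv.Perm.iterate_eq_pow, ← Equiv.Perm.iterate_eq_pow,
        Function.iterate_mod_minimalPeriod_eq]
    · rintro ⟨i, _, hi⟩
      exact ⟨i, hi⟩
  rw [h, card_image_of_injOn, card_range]
  intro i hi j hj hij
  have hij' : (f ^ i) x = (f ^ j) x := hij
  rw [← Equiv.Perm.iterate_eq_pow, ← Equiv.Perm.iterate_eq_pow] at hij'
  exact Function.iterate_injOn_Iio_minimalPeriod
    (Set.mem_Iio.2 (mem_range.1 (mem_coe.1 hi))) (Set.mem_Iio.2 (mem_range.1 (mem_coe.1 hj))) hij'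

theorem mem_cyc {x y : V} : y ∈ cyc f x ↔ ∃ i : ℕ, (f ^ i) x = y := by
  exact cycBAux_mem f

theorem mem_cyc_lt {x y : V} : y ∈ cyc f x ↔ ∃ i < (cyc f x).card, (f ^ i) x = y := by
  rw [cycBAux_card f x, mem_cyc f]
  constructor
  · rintro ⟨i, hi⟩
    refine ⟨i % Function.minimalPeriod f x, Nat.mod_lt _ (cycBAux_pos f x), ?_⟩
    rw [← hi, ← Equiv.Perm.iterate_eq_pow, ← Equiv.Perm.iterate_eq_pow,
      Function.iterate_mod_minimalPeriod_eq]
  · rintro ⟨i, _, hi⟩
    exact ⟨i, hi⟩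

theorem pow_card (x : V) : (f ^ (cyc f x).card) x = x := by
  rw [cycBAux_card f x, ← Equiv.Perm.iterate_eq_pow]
  exact Function.iterate_minimalPeriod

theorem pow_inj {x : V} {i j : ℕ} (hi : i < (cyc f x).card) (hj : j < (cyc f x).card)
    (h : (f ^ i) x = (f ^ j) x) : i = j := by
  rw [cycBAux_card f x] at hi hj
  rw [← Equiv.Perm.iterate_eq_pow, ← Equiv.Perm.iterate_eq_pow] at h
  exact Function.iterate_injOn_Iio_minimalPeriod (Set.mem_Iio.2 hi) (Set.mem_Iio.2 hj) h

theorem cyc_pos (x : V) : 1 ≤ (cyc f x).card := by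
  rw [cycBAux_card f x]
  exact cycBAux_pos f x

theorem cyc_pow (x : V) (i : ℕ) : cyc f ((f ^ i) x) = cyc f x := by
  unfold cyc
  exact cls_apply (pow_mem (Subgroup.subset_closure (Set.mem_singleton f)) i) x

theorem pow_inv_mem (i : ℕ) : ∃ j : ℕ, (f ^ i)⁻¹ = f ^ j := by
  obtain ⟨j, hj⟩ := cycBAux_inv f i
  exact ⟨j, hj⟩

end Pool.Agent.SYT
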