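import Mathlib

/-!
# SYT: systems of levels of pairs (MP_a3a126_co), definitions

All pairs are ordered pairs. `w x y` is the least length of a word merging `x` and `y`, `P` is the
set of the permutation letters, `M` the largest level.
-/

set_option autoImplicit false

open Finset

namespace Pool.Agent.SYT

variable {V : Type} [Fintype V] [DecidableEq V]

/-- levels of pairs and the permutation letters -/
structure Sys (V : Type) [Fintype V] [DecidableEq V] where
  /-- the level of a pair -/
  w : V → V → ℕ
  /-- the permutation letters -/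
  P : Set (Equiv.Perm V)
  /-- the largest level -/
  M : ℕ
  symm : ∀ x y, w x y = w y x
  self : ∀ x, w x x = 0
  pos : ∀ x y, x ≠ y → 0 < w x y
  step : ∀ g ∈ P, ∀ x y, w x y ≤ w (g x) (g y) + 1
  le_M : ∀ x y, w x y ≤ M
  surj : ∀ t, 1 ≤ t → t ≤ M → ∃ x y, w x y = t
  trans : ∀ x y, ∃ γ ∈ Subgroup.closure P, γ x = y
  row : ∀ x y t, (univ.filter fun z => t + Fintype.card V ≤ w x z).card ≤
    (univ.filter fun z => t ≤ w y z).card

/-- the action of a permutation on ordered pairs -/
def mv (g : Equiv.Perm V) (p : V × V) : V × V := (g p.1, g p.2)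

/-- the level of an ordered pair -/
def Sys.wt (S : Sys V) (p : V × V) : ℕ := S.w p.1 p.2

/-- the deficiency -/
def Sys.d (S : Sys V) : ℕ := Fintype.card V * (Fintype.card V - 1) - 2 * S.M

/-- the ordered pairs of distinct states -/
def off (V : Type) [Fintype V] [DecidableEq V] : Finset (V × V) := univ.filter fun p => p.1 ≠ p.2

/-- the ordered pairs of level `t` -/
def Sys.lvl (S : Sys V) (t : ℕ) : Finset (V × V) := (off V).filter fun p => S.wt p = t

/-- the pairs whose level is not single -/
def Sys.Coll (S : Sys V) : Finset (V × V) := (off V).filter fun p => 2 < (S.lvl (S.wt p)).card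

/-- the pairs for which the level below is not single -/
def Sys.Pre (S : Sys V) : Finset (V × V) := (off V).filter fun p => 2 < (S.lvl (S.wt p - 1)).card

open Classical in
/-- the orbit of a state under a subgroup -/
noncomputable def cls (Γ : Subgroup (Equiv.Perm V)) (x : V) : Finset V :=
  univ.filter fun y => ∃ γ ∈ Γ, γ x = y

open Classical in
/-- the orbits (components) of a subgroup -/
noncomputable def comps (Γ : Subgroup (Equiv.Perm V)) : Finset (Finset V) := univ.image (cls Γ)

open Classical in
/-- the states that `g` moves to another component -/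
noncomputable def Dst (Γ : Subgroup (Equiv.Perm V)) (g : Equiv.Perm V) : Finset V :=
  univ.filter fun x => cls Γ (g x) ≠ cls Γ x

/-- one step of a pair with second state in `Z` -/
def Sys.Stp (S : Sys V) (Z : Finset V) (p q : V × V) : Prop :=
  p.2 ∈ Z ∧ ∃ g ∈ S.P, g p.2 ∈ Z ∧ q = mv g p

open Classical in
/-- the sheet of a pair -/
noncomputable def Sys.sh (S : Sys V) (Z : Finset V) (p : V × V) : Finset (V × V) :=
  univ.filter fun q => Relation.EqvGen (S.Stp Z) p q

/-- the pairs with second state in `Z` -/
def base (Z : Finset V) : Finset (V × V) := (off V).filter fun p => p.2 ∈ Z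

open Classical in
/-- the sheets of `Z` -/
noncomputable def Sys.sheets (S : Sys V) (Z : Finset V) : Finset (Finset (V × V)) :=
  (base Z).image (S.sh Z)

/-- the number of pairs of `Q` with first state `x` -/
def phi (Q : Finset (V × V)) (x : V) : ℕ := (Q.filter fun q => q.1 = x).card

/-- good pairs -/
def Sys.Good (S : Sys V) (Γ : Subgroup (Equiv.Perm V)) (p : V × V) : Prop :=
  cls Γ p.1 ≠ cls Γ p.2 ∧ p ∉ S.Coll ∧
    ∃ q ∈ S.sh (cls Γ p.1) p.swap, q ∉ S.Coll ∧ q.1 ∉ cls Γ p.2

open Classical in
/-- the unordered orbit of a pair under the powers of `f`, as a set of ordered pairs -/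
noncomputable def orb (f : Equiv.Perm V) (p : V × V) : Finset (V × V) :=
  univ.filter fun q => ∃ i : ℕ, q = ((f ^ i : Equiv.Perm V) p.1, (f ^ i : Equiv.Perm V) p.2) ∨
    q = ((f ^ i : Equiv.Perm V) p.2, (f ^ i : Equiv.Perm V) p.1)

/-- the levels of the pairs of an orbit -/
def Sys.iv (S : Sys V) (O : Finset (V × V)) : Finset ℕ := O.image S.wt

open Classical in
/-- the orbits of pairs -/
noncomputable def orbs (f : Equiv.Perm V) : Finset (Finset (V × V)) := (off V).image (orb f)

/-- the cycle of `x` under `f` -/
noncomputable def cyc (f : Equiv.Perm V) (x : V) : Finset V := cls (Subgroup.closure {f}) x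

end Pool.Agent.SYT
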