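import Pool.Agent.SYT.NDT

/-!
# SYT-Ec: pairs on which two letters differ twice

Project SYT (MP_a3a126_co), paper proof in /team-store/a3a126_87.md, section 4 (|Ec|). `n = card V`.
-/

set_option autoImplicit false

open Finset

namespace Pool.Agent.SYT

variable {V : Type} [Fintype V] [DecidableEq V]

/-- the pairs on which `f` and `g` differ -/
def Bad (f g : Equiv.Perm V) : Finset (V × V) :=
  (off V).filter fun p => mv g p ≠ mv f p ∧ mv g p ≠ (mv f p).swap

theorem mem_Bad {f g : Equiv.Perm V} {p : V × V} :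
    p ∈ Bad f g ↔ p.1 ≠ p.2 ∧ mv g p ≠ mv f p ∧ mv g p ≠ (mv f p).swap := by
  simp [Bad, mem_off]

/-- the pairs in `Bad` moved by `g` to another pair in `Bad` -/
def Ec (f g : Equiv.Perm V) : Finset (V × V) :=
  (Bad f g).filter fun p => mv g p ∈ Bad f g ∧ mv g p ≠ p ∧ mv g p ≠ p.swap

variable (S : Sys V)

private theorem ecx_nd {f g : Equiv.Perm V} (hf : f ∈ S.P) (hg : g ∈ S.P) {p : V × V}
    (hb : p ∈ Bad f g) (h1 : p ∉ S.Pre) (h2 : p ∉ S.Coll) (h3 : p ∉ S.ND {f}) :
    p ∈ S.ND {g} := by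
  obtain ⟨b1, b2, b3⟩ := mem_Bad.1 hb
  refine (mem_ND S).2 ⟨b1, h2, fun g' hg' => ?_⟩
  rw [Set.mem_singleton_iff.1 hg']
  by_contra hlt
  have h4 : S.wt p ≤ S.wt (mv g p) + 1 := wt_step S hg p
  have h5 : S.wt p ≤ S.wt (mv f p) + 1 := wt_step S hf p
  by_cases h6 : S.wt p ≤ S.wt (mv f p)
  · refine h3 ((mem_ND S).2 ⟨b1, h2, fun f' hf' => ?_⟩)
    rw [Set.mem_singleton_iff.1 hf']
    exact h6
  · rcases pre_single S b1 h1 (q := mv f p) (q' := mv g p) (mv_off.2 b1) (mv_off.2 b1)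
      (by omega) (by omega) with h7 | h7
    · exact b2 h7
    · exact b3 h7

theorem card_Ec {f g : Equiv.Perm V} (hf : f ∈ S.P) (hg : g ∈ S.P) :
    (Ec f g).card ≤ 12 * S.d +
      2 * ((comps (Subgroup.closure ({f} : Set (Equiv.Perm V)))).card + 1) * Fintype.card V := by
  classical
  obtain ⟨X, hX⟩ : ∃ X, X = S.Pre ∪ S.Coll ∪ S.ND {f} := ⟨_, rfl⟩
  have hnX : ∀ p, p ∉ X → p ∉ S.Pre ∧ p ∉ S.Coll ∧ p ∉ S.ND {f} := by
    intro p hp
    rw [hX, mem_union, mem_union] at hp
    push Not at hp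
    exact ⟨hp.1.1, hp.1.2, hp.2⟩
  have hsub : Ec f g ⊆ X ∪ X.image (mv g⁻¹) := by
    intro p hp
    obtain ⟨h1, h2, h3, h4⟩ := mem_filter.1 hp
    by_contra hc
    rw [mem_union] at hc
    push Not at hc
    have h5 : mv g p ∉ X := fun h => hc.2 (mem_image.2 ⟨mv g p, h, mv_inv_mv g p⟩)
    obtain ⟨a1, a2, a3⟩ := hnX p hc.1
    obtain ⟨b1, b2, b3⟩ := hnX _ h5
    have h6 := ecx_nd S hf hg h1 a1 a2 a3
    have h7 := ecx_nd S hf hg h2 b1 b2 b3
    rcases nd_same S (Set.singleton_subset_iff.2 hg) h6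
      (Subgroup.subset_closure (Set.mem_singleton g)) h7 with h8 | h8
    · exact h3 h8
    · exact h4 h8
  have hX1 : X.card ≤ 6 * S.d +
      ((comps (Subgroup.closure ({f} : Set (Equiv.Perm V)))).card + 1) * Fintype.card V := by
    have h1 := nd_total S (P1 := {f}) (Set.singleton_subset_iff.2 hf)
    have h2 := card_pre S
    have h3 := card_coll S
    have h4 : X.card ≤ S.Pre.card + S.Coll.card + (S.ND {f}).card := by
      rw [hX]
      exact (card_union_le _ _).trans (Nat.add_le_add_right (card_union_le _ _) _)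
    omega
  have h1 : (Ec f g).card ≤ X.card + X.card :=
    (card_le_card hsub).trans ((card_union_le _ _).trans (Nat.add_le_add_left card_image_le _))
  have h2 : 12 * S.d +
      2 * ((comps (Subgroup.closure ({f} : Set (Equiv.Perm V)))).card + 1) * Fintype.card V =
      (6 * S.d +
      ((comps (Subgroup.closure ({f} : Set (Equiv.Perm V)))).card + 1) * Fintype.card V) +
      (6 * S.d +
      ((comps (Subgroup.closure ({f} : Set (Equiv.Perm V)))).card + 1) * Fintype.card V) := by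
    ring
  rw [h2]
  exact h1.trans (Nat.add_le_add hX1 hX1)

end Pool.Agent.SYT
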