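import Pool.Agent.SYT.Fill

/-!
# SYT-Ends: good elements of a sheet lie over at most two components

Project SYT (MP_a3a126_co), paper proof in /team-store/a3a126_87.md, section 2 (ends). A good element lies over the
upper or over the lower end of the interval of levels of the sheet; one component for each end.
-/

set_option autoImplicit false

open Finset

namespace Pool.Agent.SYT

variable {V : Type} [Fintype V] [DecidableEq V] (S : Sys V)

private theorem ends_X {P1 : Set (Equiv.Perm V)} {Z : Finset V}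
    (hZ : Z ∈ comps (Subgroup.closure P1)) {Q : Finset (V × V)} (hQ : Q ∈ S.sheets Z) {p q : V × V}
    (hp : p ∈ Q) (hne : cls (Subgroup.closure P1) p.1 ≠ cls (Subgroup.closure P1) p.2)
    (hq : q ∈ S.sh (cls (Subgroup.closure P1) p.1) p.swap) :
    p.1 ≠ p.2 ∧ p.2 ∈ Z ∧ cls (Subgroup.closure P1) p.2 = Z ∧
      p.swap ∈ base (cls (Subgroup.closure P1) p.1) ∧ q.1 ≠ q.2 ∧
      q.2 ∈ cls (Subgroup.closure P1) p.1 ∧ q.2 ∉ Z := by
  have h1 := mem_base.1 (sheet_sub_base S hQ hp)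
  have h2 : cls (Subgroup.closure P1) p.2 = Z := (eq_cls hZ h1.2).symm
  have h3 : p.swap ∈ base (cls (Subgroup.closure P1) p.1) :=
    mem_base.2 ⟨fun h => h1.1 h.symm, self_mem_cls p.1⟩
  have h4 := mem_base.1 (sh_sub_base S h3 hq)
  refine ⟨h1.1, h1.2, h2, h3, h4.1, h4.2, fun h5 => hne ?_⟩
  rw [h2, eq_cls hZ h5, cls_eq h4.2]

/-- the level of `q` is not a level of the sheet -/
private theorem ends_B {P1 : Set (Equiv.Perm V)} (h1 : P1 ⊆ S.P) {Z : Finset V}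
    (hZ : Z ∈ comps (Subgroup.closure P1)) {Q : Finset (V × V)} (hQ : Q ∈ S.sheets Z) {p q : V × V}
    (hp : p ∈ Q) (hne : cls (Subgroup.closure P1) p.1 ≠ cls (Subgroup.closure P1) p.2)
    (hq : q ∈ S.sh (cls (Subgroup.closure P1) p.1) p.swap) (hqc : q ∉ S.Coll)
    (hq1 : q.1 ∉ cls (Subgroup.closure P1) p.2) {p1 p2 : V × V} (hp1 : p1 ∈ Q) (hp2 : p2 ∈ Q)
    (ha : S.wt p1 ≤ S.wt q) (hb : S.wt q ≤ S.wt p2) : False := by
  obtain ⟨e1, e2, e3, e4, e5, e6, e7⟩ := ends_X S hZ hQ hp hne hq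
  obtain ⟨r, hr, hrt⟩ := filling S h1 hZ hQ hp1 hp2 ha hb
  have h2 := mem_base.1 (sheet_sub_base S hQ hr)
  rcases single S e5 hqc h2.1 hrt with h3 | h3
  · rw [h3] at h2
    exact e7 h2.2
  · rw [h3] at h2
    rw [e3] at hq1
    exact hq1 h2.2

/-- an element of the sheet whose level lies between the levels of `p` and `q` -/
private theorem ends_A {P1 : Set (Equiv.Perm V)} (h1 : P1 ⊆ S.P) {Z : Finset V}
    (hZ : Z ∈ comps (Subgroup.closure P1)) {Q : Finset (V × V)} (hQ : Q ∈ S.sheets Z) {p q : V × V}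
    (hp : p ∈ Q) (hne : cls (Subgroup.closure P1) p.1 ≠ cls (Subgroup.closure P1) p.2)
    (hq : q ∈ S.sh (cls (Subgroup.closure P1) p.1) p.swap) {p2 : V × V} (hp2 : p2 ∈ Q)
    (hc : p2 ∉ S.Coll)
    (h : (S.wt p ≤ S.wt p2 ∧ S.wt p2 ≤ S.wt q) ∨ (S.wt q ≤ S.wt p2 ∧ S.wt p2 ≤ S.wt p)) :
    cls (Subgroup.closure P1) p2.1 = cls (Subgroup.closure P1) p.1 := by
  obtain ⟨e1, e2, e3, e4, e5, e6, e7⟩ := ends_X S hZ hQ hp hne hq
  have hX := cls_mem_comps (Γ := Subgroup.closure P1) p.1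
  have hQ' := sh_mem_sheets S e4
  have hs := self_mem_sh S (cls (Subgroup.closure P1) p.1) p.swap
  have h2 := mem_base.1 (sheet_sub_base S hQ hp2)
  obtain ⟨r, hr, hrt⟩ : ∃ r ∈ S.sh (cls (Subgroup.closure P1) p.1) p.swap, S.wt r = S.wt p2 := by
    rcases h with ⟨ha, hb⟩ | ⟨ha, hb⟩
    · exact filling S h1 hX hQ' hs hq (by rw [wt_swap]; exact ha) hb
    · exact filling S h1 hX hQ' hq hs ha (by rw [wt_swap]; exact hb)
  have h3 := mem_base.1 (sh_sub_base S e4 hr)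
  rcases single S h2.1 hc h3.1 hrt with h4 | h4
  · rw [h4] at h3
    exfalso
    apply hne
    rw [e3, eq_cls hZ h2.2, cls_eq h3.2]
  · rw [h4] at h3
    exact cls_eq h3.2

open Classical in
theorem ends {P1 : Set (Equiv.Perm V)} (h1 : P1 ⊆ S.P) {Z : Finset V}
    (hZ : Z ∈ comps (Subgroup.closure P1)) {Q : Finset (V × V)} (hQ : Q ∈ S.sheets Z) :
    ((Q.filter fun p => S.Good (Subgroup.closure P1) p).image
      fun p => cls (Subgroup.closure P1) p.1).card ≤ 2 := by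
  obtain ⟨U, hU⟩ : ∃ U : Finset (V × V), ∀ p, p ∈ U ↔ p ∈ Q ∧ S.Good (Subgroup.closure P1) p ∧
      ∃ q ∈ S.sh (cls (Subgroup.closure P1) p.1) p.swap, q ∉ S.Coll ∧
        q.1 ∉ cls (Subgroup.closure P1) p.2 ∧ S.wt p < S.wt q :=
    ⟨Q.filter fun p => S.Good (Subgroup.closure P1) p ∧
      ∃ q ∈ S.sh (cls (Subgroup.closure P1) p.1) p.swap, q ∉ S.Coll ∧
        q.1 ∉ cls (Subgroup.closure P1) p.2 ∧ S.wt p < S.wt q, fun p => mem_filter⟩
  obtain ⟨D, hD⟩ : ∃ D : Finset (V × V), ∀ p, p ∈ D ↔ p ∈ Q ∧ S.Good (Subgroup.closure P1) p ∧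
      ∃ q ∈ S.sh (cls (Subgroup.closure P1) p.1) p.swap, q ∉ S.Coll ∧
        q.1 ∉ cls (Subgroup.closure P1) p.2 ∧ S.wt q < S.wt p :=
    ⟨Q.filter fun p => S.Good (Subgroup.closure P1) p ∧
      ∃ q ∈ S.sh (cls (Subgroup.closure P1) p.1) p.swap, q ∉ S.Coll ∧
        q.1 ∉ cls (Subgroup.closure P1) p.2 ∧ S.wt q < S.wt p, fun p => mem_filter⟩
  have hU1 : (U.image fun p => cls (Subgroup.closure P1) p.1).card ≤ 1 := by
    rw [card_le_one]
    have key : ∀ a ∈ U, ∀ b ∈ U, S.wt a ≤ S.wt b →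
        cls (Subgroup.closure P1) a.1 = cls (Subgroup.closure P1) b.1 := by
      intro a ha b hb hab
      obtain ⟨a1, a2, q, a3, a4, a5, a6⟩ := (hU a).1 ha
      obtain ⟨b1, b2, -⟩ := (hU b).1 hb
      refine (ends_A S h1 hZ hQ a1 a2.1 a3 b1 b2.2.1 (Or.inl ⟨hab, ?_⟩)).symm
      by_contra h
      exact ends_B S h1 hZ hQ a1 a2.1 a3 a4 a5 a1 b1 a6.le (le_of_not_ge h)
    intro X hX Y hY
    obtain ⟨a, ha, rfl⟩ := mem_image.1 hX
    obtain ⟨b, hb, rfl⟩ := mem_image.1 hY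
    rcases le_total (S.wt a) (S.wt b) with h | h
    · exact key a ha b hb h
    · exact (key b hb a ha h).symm
  have hD1 : (D.image fun p => cls (Subgroup.closure P1) p.1).card ≤ 1 := by
    rw [card_le_one]
    have key : ∀ a ∈ D, ∀ b ∈ D, S.wt b ≤ S.wt a →
        cls (Subgroup.closure P1) a.1 = cls (Subgroup.closure P1) b.1 := by
      intro a ha b hb hab
      obtain ⟨a1, a2, q, a3, a4, a5, a6⟩ := (hD a).1 ha
      obtain ⟨b1, b2, -⟩ := (hD b).1 hb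
      refine (ends_A S h1 hZ hQ a1 a2.1 a3 b1 b2.2.1 (Or.inr ⟨?_, hab⟩)).symm
      by_contra h
      exact ends_B S h1 hZ hQ a1 a2.1 a3 a4 a5 b1 a1 (le_of_not_ge h) a6.le
    intro X hX Y hY
    obtain ⟨a, ha, rfl⟩ := mem_image.1 hX
    obtain ⟨b, hb, rfl⟩ := mem_image.1 hY
    rcases le_total (S.wt a) (S.wt b) with h | h
    · exact (key b hb a ha h).symm
    · exact key a ha b hb h
  have hsub : ((Q.filter fun p => S.Good (Subgroup.closure P1) p).image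
      fun p => cls (Subgroup.closure P1) p.1) ⊆ (U.image fun p => cls (Subgroup.closure P1) p.1) ∪
        (D.image fun p => cls (Subgroup.closure P1) p.1) := by
    intro X hX
    obtain ⟨p, hp, rfl⟩ := mem_image.1 hX
    obtain ⟨hpQ, hpG⟩ := mem_filter.1 hp
    obtain ⟨q, q1, q2, q3⟩ := hpG.2.2
    rw [mem_union]
    rcases lt_trichotomy (S.wt p) (S.wt q) with h | h | h
    · exact Or.inl (mem_image.2 ⟨p, (hU p).2 ⟨hpQ, hpG, q, q1, q2, q3, h⟩, rfl⟩)
    · exact (ends_B S h1 hZ hQ hpQ hpG.1 q1 q2 q3 hpQ hpQ h.le h.ge).elim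
    · exact Or.inr (mem_image.2 ⟨p, (hD p).2 ⟨hpQ, hpG, q, q1, q2, q3, h⟩, rfl⟩)
  have h2 := (card_le_card hsub).trans (card_union_le _ _)
  omega

end Pool.Agent.SYT
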