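import Pool.Agent.SYT.OrbC

/-! # SYT-Exc: counting the exceptional indices -/

set_option autoImplicit false

open Finset

namespace Pool.Agent.SYT

variable {V : Type} [Fintype V] [DecidableEq V] (S : Sys V) {f : Equiv.Perm V}

private lemma exc_cover {ι : Type} [DecidableEq ι] (A A1 A2 A5 : Finset ι) (Y : Finset V)
    (B : V → Finset ι) (hA : A ⊆ A1 ∪ A2 ∪ A5 ∪ Y.biUnion B) (n c1 c2 c5 cB : ℕ)
    (h1 : n * A1.card ≤ c1) (h2 : n * A2.card ≤ c2) (h5 : n * A5.card ≤ c5)
    (hB : ∀ y ∈ Y, n * (B y).card ≤ cB) : n * A.card ≤ c1 + c2 + c5 + Y.card * cB := by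
  have h3 : A.card ≤ A1.card + A2.card + A5.card + (Y.biUnion B).card := by
    refine le_trans (card_le_card hA) ?_
    refine le_trans (card_union_le _ _) ?_
    refine Nat.add_le_add_right ?_ _
    refine le_trans (card_union_le _ _) ?_
    exact Nat.add_le_add_right (card_union_le _ _) _
  have h4 : n * (Y.biUnion B).card ≤ Y.card * cB := by
    refine le_trans (Nat.mul_le_mul_left _ card_biUnion_le) ?_
    rw [mul_sum]
    refine le_trans (sum_le_sum hB) ?_
    rw [sum_const, smul_eq_mul]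
  calc n * A.card ≤ n * (A1.card + A2.card + A5.card + (Y.biUnion B).card) :=
        Nat.mul_le_mul_left _ h3
    _ = n * A1.card + n * A2.card + n * A5.card + n * (Y.biUnion B).card := by ring
    _ ≤ c1 + c2 + c5 + Y.card * cB :=
        Nat.add_le_add (Nat.add_le_add (Nat.add_le_add h1 h2) h5) h4

theorem exc {K : ℕ} (hK : ∀ x, Fintype.card V ≤ K * (cyc f x).card) {x : V} {a e : ℕ}
    (ha : (cyc f x).card = a) (h64 : 64 ≤ a) (he : e = a / 32) {z : ℕ → V} {Y T : Finset V}
    (hY : x ∉ Y)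
    (hz : ∀ j, a < 4 * j → 2 * j < a → a ≤ (S.iv (orb f (x, (f ^ j) x))).card + e →
      (z j = (f ^ j) x ∨ z j = (f ^ (a - j)) x))
    (h : ∀ j, a < 4 * j → 2 * j < a → a ≤ (S.iv (orb f (x, (f ^ j) x))).card + e → z j ∉ T →
      ∃ y ∈ Y, y ≠ z j ∧ (orb f (y, z j) = orb f (x, (f ^ j) x) ∨
        (S.iv (orb f (y, z j))).card < e ∨
        e ≤ (S.iv (orb f (x, (f ^ j) x)) ∩ S.iv (orb f (y, z j))).card)) :
    Fintype.card V * a ≤ 4 * Fintype.card V + 4 * Fintype.card V * T.card +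
      8 * Fintype.card V * Y.card + (320 + 8 * Y.card) * K * S.d := by
  classical
  obtain ⟨n, hn⟩ : ∃ n, n = Fintype.card V := ⟨_, rfl⟩
  obtain ⟨O, hO⟩ : ∃ O : ℕ → Finset (V × V), ∀ j, O j = orb f (x, (f ^ j) x) :=
    ⟨fun j => orb f (x, (f ^ j) x), fun _ => rfl⟩
  obtain ⟨A, hA⟩ : ∃ A : Finset ℕ, A = Ico (a / 4 + 1) ((a + 1) / 2) := ⟨_, rfl⟩
  have hAm : ∀ j ∈ A, a < 4 * j ∧ 2 * j < a := by
    intro j hj
    rw [hA, mem_Ico] at hj
    omega
  have hAc : a ≤ 4 * A.card + 4 := by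
    rw [hA, Nat.card_Ico]
    omega
  have hpos : ∀ j ∈ A, 0 < j := fun j hj => by
    have := (hAm j hj).1
    omega
  have hne : ∀ j ∈ A, x ≠ (f ^ j) x := by
    intro j hj hx
    have h1 := hAm j hj
    have h2 := pow_inj f (x := x) (i := 0) (j := j) (by omega) (by omega) (by
      rw [pow_zero]
      exact hx)
    omega
  have hOo : ∀ j ∈ A, O j ∈ orbs f := by
    intro j hj
    rw [hO]
    exact orb_mem_orbs f (p := (x, (f ^ j) x)) (hne j hj)
  have hOi : ∀ j ∈ A, ∀ j' ∈ A, O j = O j' → j = j' := by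
    intro j hj j' hj' hjj
    rw [hO, hO] at hjj
    exact orb_inj ha (hpos j hj) (hAm j hj).2 (hpos j' hj') (hAm j' hj').2 hjj
  have hnK : ∀ m c : ℕ, a * m ≤ c → n * m ≤ K * c := by
    intro m c hmc
    have h1 : n ≤ K * a := by
      rw [hn, ← ha]
      exact hK x
    calc n * m ≤ K * a * m := Nat.mul_le_mul_right _ h1
      _ = K * (a * m) := by ring
      _ ≤ K * c := Nat.mul_le_mul_left _ hmc
  obtain ⟨A1, hA1⟩ : ∃ A1 : Finset ℕ, A1 = A.filter (fun j => (S.iv (O j)).card + e < a) := ⟨_, rfl⟩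
  obtain ⟨A2, hA2⟩ : ∃ A2 : Finset ℕ, A2 = A.filter (fun j => a ≤ (S.iv (O j)).card + e ∧ z j ∈ T) :=
    ⟨_, rfl⟩
  obtain ⟨B, hB⟩ : ∃ B : Finset ℕ, B = A.filter (fun j => a ≤ (S.iv (O j)).card + e) := ⟨_, rfl⟩
  have hBA : ∀ j ∈ B, j ∈ A := fun j hj => by
    rw [hB] at hj
    exact (mem_filter.1 hj).1
  have hBn : ∀ j ∈ B, a ≤ (S.iv (O j)).card + e := fun j hj => by
    rw [hB] at hj
    exact (mem_filter.1 hj).2
  have hzB : ∀ j ∈ B, z j = (f ^ j) x ∨ z j = (f ^ (a - j)) x := by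
    intro j hj
    have h1 := hAm j (hBA j hj)
    have h2 := hBn j hj
    rw [hO] at h2
    exact hz j h1.1 h1.2 h2
  have hzi : ∀ j ∈ B, ∀ j' ∈ B, z j = z j' → j = j' := by
    intro j hj j' hj' hjj
    have h1 := hAm j (hBA j hj)
    have h2 := hAm j' (hBA j' hj')
    have h3 := hzB j' hj'
    rw [← hjj] at h3
    exact pos_inj ha (hpos j (hBA j hj)) h1.2 (hpos j' (hBA j' hj')) h2.2 (hzB j hj) h3
  obtain ⟨A3, hA3⟩ : ∃ A3 : V → Finset ℕ, ∀ y, A3 y = B.filter (fun j => orb f (y, z j) = O j) :=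
    ⟨fun y => B.filter (fun j => orb f (y, z j) = O j), fun _ => rfl⟩
  obtain ⟨A4, hA4⟩ : ∃ A4 : V → Finset ℕ, ∀ y, A4 y =
      B.filter (fun j => y ≠ z j ∧ (S.iv (orb f (y, z j))).card < e) :=
    ⟨fun y => B.filter (fun j => y ≠ z j ∧ (S.iv (orb f (y, z j))).card < e), fun _ => rfl⟩
  obtain ⟨A5, hA5⟩ : ∃ A5 : Finset ℕ, A5 = B.filter (fun j => ∃ y, y ≠ z j ∧ orb f (y, z j) ≠ O j ∧
      e ≤ (S.iv (O j) ∩ S.iv (orb f (y, z j))).card) := ⟨_, rfl⟩
  have c1 : n * A1.card ≤ K * (16 * S.d) := by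
    apply hnK
    have h1 : ∑ j ∈ A1, ((O j).card - 2 * (S.iv (O j)).card) ≤ S.d := by
      refine le_trans ?_ (sum_defect S (f := f))
      have hinj : Set.InjOn O (A1 : Set ℕ) := by
        intro j hj j' hj' hjj
        rw [mem_coe, hA1, mem_filter] at hj hj'
        exact hOi j hj.1 j' hj'.1 hjj
      rw [← sum_image (f := fun o : Finset (V × V) => o.card - 2 * (S.iv o).card) hinj]
      apply sum_le_sum_of_subset
      intro o ho
      obtain ⟨j, hj, rfl⟩ := mem_image.1 ho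
      rw [hA1, mem_filter] at hj
      exact hOo j hj.1
    have h2 : A1.card * (2 * (e + 1)) ≤ ∑ j ∈ A1, ((O j).card - 2 * (S.iv (O j)).card) := by
      rw [← smul_eq_mul, ← sum_const]
      apply sum_le_sum
      intro j hj
      rw [hA1, mem_filter] at hj
      have h3 : (O j).card = 2 * a := by
        rw [hO]
        exact card_orb_mid ha (hpos j hj.1) (hAm j hj.1).2
      have h4 := hj.2
      omega
    have h3 : a ≤ 32 * (e + 1) := by omega
    calc a * A1.card ≤ 32 * (e + 1) * A1.card := Nat.mul_le_mul_right _ h3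
      _ = 16 * (A1.card * (2 * (e + 1))) := by ring
      _ ≤ 16 * S.d := Nat.mul_le_mul_left _ (le_trans h2 h1)
  have c2 : n * A2.card ≤ n * T.card := by
    apply Nat.mul_le_mul_left
    apply card_le_card_of_injOn z
    · intro j hj
      rw [mem_coe, hA2, mem_filter] at hj
      exact hj.2.2
    · intro j hj j' hj' hjj
      rw [mem_coe, hA2, mem_filter] at hj hj'
      refine hzi j ?_ j' ?_ hjj
      · rw [hB, mem_filter]
        exact ⟨hj.1, hj.2.1⟩
      · rw [hB, mem_filter]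
        exact ⟨hj'.1, hj'.2.1⟩
  have c3 : ∀ y ∈ Y, n * (A3 y).card ≤ n * 2 := by
    intro y hy
    apply Nat.mul_le_mul_left
    have hyx : y ≠ x := fun hyx => hY (hyx ▸ hy)
    refine same_orb hyx ha (J := A3 y) (z := z) ?_
    intro j hj
    rw [hA3, mem_filter] at hj
    have h1 := hAm j (hBA j hj.1)
    refine ⟨h1.1, h1.2, hzB j hj.1, ?_⟩
    rw [← hO, ← hj.2]
    exact self_mem_orb f _
  have c4 : ∀ y ∈ Y, n * (A4 y).card ≤ K * (2 * S.d) := by
    intro y hy
    have hc : ((A4 y).image z).card = (A4 y).card := by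
      apply card_image_of_injOn
      intro j hj j' hj' hjj
      rw [mem_coe, hA4, mem_filter] at hj hj'
      exact hzi j hj.1 j' hj'.1 hjj
    have h1 := small_iv (f := f) S (x := x) (y := y) (e := e) (by omega) (Zs := (A4 y).image z) (by
      intro w hw
      obtain ⟨j, hj, rfl⟩ := mem_image.1 hw
      rw [hA4, mem_filter] at hj
      refine ⟨?_, hj.2⟩
      rw [mem_cyc]
      rcases hzB j hj.1 with h2 | h2
      · exact ⟨j, h2.symm⟩
      · exact ⟨a - j, h2.symm⟩)
    rw [hc] at h1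
    have h2 : n ≤ K * (cyc f y).card := by
      rw [hn]
      exact hK y
    calc n * (A4 y).card ≤ K * (cyc f y).card * (A4 y).card := Nat.mul_le_mul_right _ h2
      _ = K * ((A4 y).card * (cyc f y).card) := by ring
      _ ≤ K * (2 * S.d) := Nat.mul_le_mul_left _ h1
  have c5 : n * A5.card ≤ K * (64 * S.d) := by
    apply hnK
    have hex : ∀ j ∈ A5, ∃ y, y ≠ z j ∧ orb f (y, z j) ≠ O j ∧
        e ≤ (S.iv (O j) ∩ S.iv (orb f (y, z j))).card := by
      intro j hj
      rw [hA5, mem_filter] at hj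
      exact hj.2
    have hA5A : ∀ j ∈ A5, j ∈ A := by
      intro j hj
      rw [hA5, mem_filter] at hj
      exact hBA j hj.1
    obtain ⟨O', hO'⟩ : ∃ O' : Finset (V × V) → Finset (V × V), ∀ o ∈ A5.image O,
        O' o ∈ orbs f ∧ O' o ≠ o ∧ e ≤ (S.iv o ∩ S.iv (O' o)).card := by
      have : ∀ o : Finset (V × V), ∃ o' : Finset (V × V), o ∈ A5.image O →
          o' ∈ orbs f ∧ o' ≠ o ∧ e ≤ (S.iv o ∩ S.iv o').card := by
        intro o
        by_cases ho : o ∈ A5.image O
        · obtain ⟨j, hj, rfl⟩ := mem_image.1 ho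
          obtain ⟨y, hy1, hy2, hy3⟩ := hex j hj
          exact ⟨orb f (y, z j), fun _ => ⟨orb_mem_orbs f (p := (y, z j)) hy1, hy2, hy3⟩⟩
        · exact ⟨o, fun h => absurd h ho⟩
      choose O' hO' using this
      exact ⟨O', hO'⟩
    have h1 := sum_overlap S (f := f) (𝒪 := A5.image O) (by
      intro o ho
      obtain ⟨j, hj, rfl⟩ := mem_image.1 ho
      exact hOo j (hA5A j hj)) O' (fun o ho => ⟨(hO' o ho).1, (hO' o ho).2.1⟩)
    have hc : (A5.image O).card = A5.card := by
      apply card_image_of_injOn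
      intro j hj j' hj' hjj
      exact hOi j (hA5A j (mem_coe.1 hj)) j' (hA5A j' (mem_coe.1 hj')) hjj
    have h2 : (A5.image O).card * e ≤ ∑ o ∈ A5.image O, (S.iv o ∩ S.iv (O' o)).card := by
      rw [← smul_eq_mul, ← sum_const]
      exact sum_le_sum fun o ho => (hO' o ho).2.2
    rw [hc] at h2
    have h3 : a ≤ 64 * e := by omega
    calc a * A5.card ≤ 64 * e * A5.card := Nat.mul_le_mul_right _ h3
      _ = 64 * (A5.card * e) := by ring
      _ ≤ 64 * S.d := Nat.mul_le_mul_left _ (le_trans h2 h1)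
  have hcov : A ⊆ A1 ∪ A2 ∪ A5 ∪ Y.biUnion (fun y => A3 y ∪ A4 y) := by
    intro j hj
    rw [mem_union, mem_union, mem_union, mem_biUnion]
    by_cases h1 : (S.iv (O j)).card + e < a
    · left; left; left
      rw [hA1, mem_filter]
      exact ⟨hj, h1⟩
    · have h1' : a ≤ (S.iv (O j)).card + e := not_lt.1 h1
      have hjB : j ∈ B := by
        rw [hB, mem_filter]
        exact ⟨hj, h1'⟩
      by_cases h2 : z j ∈ T
      · left; left; right
        rw [hA2, mem_filter]
        exact ⟨hj, h1', h2⟩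
      · have h3 := hAm j hj
        have h4 := h1'
        rw [hO] at h4
        obtain ⟨y, hy, hyz, hcase⟩ := h j h3.1 h3.2 h4 h2
        rw [← hO] at hcase
        by_cases h5 : orb f (y, z j) = O j
        · right
          refine ⟨y, hy, ?_⟩
          rw [mem_union]
          left
          rw [hA3, mem_filter]
          exact ⟨hjB, h5⟩
        · rcases hcase with h6 | h6 | h6
          · exact absurd h6 h5
          · right
            refine ⟨y, hy, ?_⟩
            rw [mem_union]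
            right
            rw [hA4, mem_filter]
            exact ⟨hjB, hyz, h6⟩
          · left; right
            rw [hA5, mem_filter]
            exact ⟨hjB, y, hyz, h5, h6⟩
  have hfin := exc_cover A A1 A2 A5 Y (fun y => A3 y ∪ A4 y) hcov n _ _ _
    (n * 2 + K * (2 * S.d)) c1 c2 c5 (by
      intro y hy
      calc n * (A3 y ∪ A4 y).card ≤ n * ((A3 y).card + (A4 y).card) :=
            Nat.mul_le_mul_left _ (card_union_le _ _)
        _ = n * (A3 y).card + n * (A4 y).card := by ring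
        _ ≤ n * 2 + K * (2 * S.d) := Nat.add_le_add (c3 y hy) (c4 y hy))
  rw [← hn]
  have h1 : n * a ≤ n * (4 * A.card + 4) := Nat.mul_le_mul_left _ hAc
  calc n * a ≤ n * (4 * A.card + 4) := h1
    _ = 4 * (n * A.card) + 4 * n := by ring
    _ ≤ 4 * (K * (16 * S.d) + n * T.card + K * (64 * S.d) +
        Y.card * (n * 2 + K * (2 * S.d))) + 4 * n :=
      Nat.add_le_add_right (Nat.mul_le_mul_left _ hfin) _
    _ = 4 * n + 4 * n * T.card + 8 * n * Y.card + (320 + 8 * Y.card) * K * S.d := by ring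

end Pool.Agent.SYT
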