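import Pool.Agent.SYT.Sheet

/-!
# SYT-Fill: the levels of a sheet form an interval

Project SYT (MP_a3a126_co). The set of the pairs of the sheet with a level larger than a missing level `t` is
invariant under the steps in both directions.
-/

set_option autoImplicit false

open Finset

namespace Pool.Agent.SYT

variable {V : Type} [Fintype V] [DecidableEq V] (S : Sys V)

private theorem fill_step {Z : Finset V} {Q : Finset (V × V)} (hQ : Q ∈ S.sheets Z) {t : ℕ}
    (hcon : ∀ r ∈ Q, S.wt r ≠ t) {g : Equiv.Perm V} (hg : g ∈ S.P) {q : V × V}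
    (hq : q ∈ Q.filter fun r => t < S.wt r) (h : g q.2 ∈ Z) :
    mv g q ∈ Q.filter fun r => t < S.wt r := by
  rw [mem_filter] at hq ⊢
  have h1 := sheet_step S hQ hq.1 hg h
  have h2 := wt_step S hg q
  have h3 := hcon _ h1
  exact ⟨h1, by omega⟩

private theorem fill_card {P1 : Set (Equiv.Perm V)} (h1 : P1 ⊆ S.P) {Z : Finset V}
    (hZ : Z ∈ comps (Subgroup.closure P1)) {Q : Finset (V × V)} (hQ : Q ∈ S.sheets Z) {t : ℕ}
    (hcon : ∀ r ∈ Q, S.wt r ≠ t) {v v' : V} (hv : v ∈ Z) (hv' : v' ∈ Z) :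
    (univ.filter fun x => (x, v) ∈ Q.filter fun r => t < S.wt r).card ≤
      (univ.filter fun x => (x, v') ∈ Q.filter fun r => t < S.wt r).card := by
  have h2 : v' ∈ cls (Subgroup.closure P1) v := by
    rw [← eq_cls hZ hv]
    exact hv'
  obtain ⟨γ, hγ, rfl⟩ := mem_cls.1 h2
  have hU : ∀ g ∈ P1, ∀ q ∈ Q.filter fun r => t < S.wt r,
      mv g q ∈ Q.filter fun r => t < S.wt r := by
    intro g hg q hq
    have h3 := (mem_base.1 (sheet_sub_base S hQ (mem_filter.1 hq).1)).2
    exact fill_step S hQ hcon (h1 hg) hq ((apply_mem hZ (Subgroup.subset_closure hg)).2 h3)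
  refine card_le_card_of_injOn γ ?_ ?_
  · intro x hx
    have h3 := (mem_filter.1 (mem_coe.1 hx)).2
    exact mem_coe.2 (mem_filter.2 ⟨mem_univ _, closure_closed hU hγ (x, v) h3⟩)
  · intro x _ y _ h
    exact γ.injective h

private theorem fill_iff {P1 : Set (Equiv.Perm V)} (h1 : P1 ⊆ S.P) {Z : Finset V}
    (hZ : Z ∈ comps (Subgroup.closure P1)) {Q : Finset (V × V)} (hQ : Q ∈ S.sheets Z) {t : ℕ}
    (hcon : ∀ r ∈ Q, S.wt r ≠ t) {p q : V × V} (hpq : S.Stp Z p q) :
    p ∈ (Q.filter fun r => t < S.wt r) ↔ q ∈ Q.filter fun r => t < S.wt r := by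
  obtain ⟨hp, g, hg, hgp, rfl⟩ := hpq
  constructor
  · intro h
    exact fill_step S hQ hcon hg h hgp
  · intro h
    obtain ⟨x, v⟩ := p
    have hsub : (univ.filter fun x => (x, v) ∈ Q.filter fun r => t < S.wt r).image g ⊆
        univ.filter fun x => (x, g v) ∈ Q.filter fun r => t < S.wt r := by
      intro y hy
      obtain ⟨x', hx', rfl⟩ := mem_image.1 hy
      exact mem_filter.2 ⟨mem_univ _, fill_step S hQ hcon hg (mem_filter.1 hx').2 hgp⟩
    have heq := eq_of_subset_of_card_le hsub (by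
      rw [card_image_of_injective _ g.injective]
      exact fill_card S h1 hZ hQ hcon hgp hp)
    have h2 : g x ∈ univ.filter fun x => (x, g v) ∈ Q.filter fun r => t < S.wt r :=
      mem_filter.2 ⟨mem_univ _, h⟩
    rw [← heq] at h2
    obtain ⟨x', hx', h3⟩ := mem_image.1 h2
    rw [← g.injective h3]
    exact (mem_filter.1 hx').2

theorem filling {P1 : Set (Equiv.Perm V)} (h1 : P1 ⊆ S.P) {Z : Finset V}
    (hZ : Z ∈ comps (Subgroup.closure P1)) {Q : Finset (V × V)} (hQ : Q ∈ S.sheets Z)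
    {p q : V × V} (hp : p ∈ Q) (hq : q ∈ Q) {t : ℕ} (ha : S.wt p ≤ t) (hb : t ≤ S.wt q) :
    ∃ r ∈ Q, S.wt r = t := by
  by_contra hcon'
  have hcon : ∀ r ∈ Q, S.wt r ≠ t := fun r hr h => hcon' ⟨r, hr, h⟩
  have h2 : q ∈ S.sh Z p := by
    rw [← sheet_eq S hQ hp]
    exact hq
  rw [mem_sh] at h2
  have h3 : ∀ a b : V × V, Relation.EqvGen (S.Stp Z) a b →
      (a ∈ (Q.filter fun r => t < S.wt r) ↔ b ∈ Q.filter fun r => t < S.wt r) := by
    intro a b hab
    induction hab with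
    | rel a b h => exact fill_iff S h1 hZ hQ hcon h
    | refl a => exact Iff.rfl
    | symm a b _ ih => exact ih.symm
    | trans a b c _ _ ih1 ih2 => exact ih1.trans ih2
  have h4 := hcon q hq
  have h5 : p ∈ Q.filter fun r => t < S.wt r :=
    (h3 p q h2).2 (mem_filter.2 ⟨hq, by omega⟩)
  have h6 := (mem_filter.1 h5).2
  omega

end Pool.Agent.SYT
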