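import Pool.Agent.SYT.OfAut
import Pool.Agent.SYT.Core
import Pool.Agent.Helper41.Circ.Main

/-!
# SYT-Fin: triples in automata with transitive permutation letters

Project SYT (MP_a3a126_co).
-/

set_option autoImplicit false

open Finset

namespace Pool.Agent.SYT

open Pool.Agent.WD

variable {V : Type} [Fintype V] [DecidableEq V]

private theorem fin_greedy {Ω : Set (V → V)} (hs : Sync Ω) (x y z : V) :
    ∃ w, Over Ω w ∧ w.length ≤ 2 * top Ω ∧ act w x = act w y ∧ act w x = act w z := by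
  obtain ⟨u, u1, u2, u3⟩ := exists_merge hs x y
  obtain ⟨v, v1, v2, v3⟩ := exists_merge hs (act u x) (act u z)
  have h1 := lev_le_top Ω x y
  have h2 := lev_le_top Ω (act u x) (act u z)
  refine ⟨u ++ v, over_append.2 ⟨u1, v1⟩, ?_, ?_, ?_⟩
  · rw [List.length_append, u2, v2]
    omega
  · rw [act_append, act_append, u3]
  · rw [act_append, act_append, v3]

/-- the constants for `f` with `n ≤ G · #{x : f (f x) ≠ x}` -/
theorem triple_nat (G : ℕ) : ∃ K' n0 : ℕ, 1 ≤ K' ∧ ∀ (n : ℕ) (Ω : Finset (Fin n → Fin n)),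
    Sync (Ω : Set (Fin n → Fin n)) →
    (∀ x y : Fin n, ∃ u, Over (bij (Ω : Set (Fin n → Fin n))) u ∧ act u x = y) →
    (∃ f ∈ Ω, Function.Bijective f ∧ n ≤ G * (univ.filter fun x => f (f x) ≠ x).card) →
    ∀ x y z : Fin n, ({x, y, z} : Finset (Fin n)).card = 3 →
      ∃ w, Over (Ω : Set (Fin n → Fin n)) w ∧
      (w.length ≤ n0 * n ∨ 3 * w.length ≤ 2 * n ^ 2 ∨ K' * w.length + n ^ 2 ≤ K' * n ^ 2) ∧
      act w x = act w y ∧ act w x = act w z := by
  obtain ⟨K', n0, hK', h⟩ := core G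
  refine ⟨K', n0, hK', ?_⟩
  intro n Ω hs ht hf x y z hc3
  have hne : Nonempty (Fin n) := ⟨x⟩
  obtain ⟨S, hS⟩ : ∃ S, S = ofAut (Ω : Set (Fin n → Fin n)) hs ht := ⟨_, rfl⟩
  have hM : S.M = top (Ω : Set (Fin n → Fin n)) := by rw [hS]; rfl
  have h2M := two_M_add S
  rw [Fintype.card_fin] at h2M
  obtain ⟨w, hw1, hw2, hw3, hw4⟩ := fin_greedy hs x y z
  rw [← hM] at hw2
  have hnn : n * (n - 1) ≤ n ^ 2 := by
    rw [pow_two]; exact Nat.mul_le_mul_left _ (by omega)
  rcases Nat.lt_or_ge n n0 with hn | hn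
  · refine ⟨w, hw1, Or.inl ?_, hw3, hw4⟩
    have : n * n ≤ n0 * n := Nat.mul_le_mul_right _ hn.le
    have : n ^ 2 = n * n := pow_two n
    omega
  rcases Nat.lt_or_ge (n ^ 2) (K' * S.d) with hd | hd
  · refine ⟨w, hw1, Or.inr (Or.inr ?_), hw3, hw4⟩
    have h1 : K' * w.length + K' * S.d ≤ K' * n ^ 2 := by
      rw [← Nat.mul_add]
      exact Nat.mul_le_mul_left _ (by omega)
    omega
  obtain ⟨f, hfΩ, hfb, hG⟩ := hf
  have hcyc : ∀ x y : Fin n, ∃ i : ℕ, f^[i] x = y := by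
    have := h (Fin n) S (Equiv.ofBijective f hfb) (by rw [hS]; exact hfΩ)
      (by rw [Fintype.card_fin]; exact hG) (by rw [Fintype.card_fin]; exact hn)
      (by rw [Fintype.card_fin]; exact hd)
    exact this
  obtain ⟨r, hr, q, hq⟩ := hs
  obtain ⟨v, hv1, hv2, p, hp⟩ := Helper41.Circ.main (Ω := Ω) hfΩ hcyc (r := r)
    (fun g hg => by simpa using hr g hg) hq {x, y, z} 2 (by omega)
  have hfil : (({x, y, z} : Finset (Fin n)).filter fun t => Helper41.Circ.act v t = p) =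
      {x, y, z} := by
    refine eq_of_subset_of_card_le (filter_subset _ _) ?_
    rw [hc3]
    omega
  have hall : ∀ t ∈ ({x, y, z} : Finset (Fin n)), act v t = p := fun t ht => by
    rw [← hfil] at ht
    exact (mem_filter.1 ht).2
  refine ⟨v, fun g hg => by simpa using hv1 g hg, Or.inr (Or.inl ?_), ?_, ?_⟩
  · rw [hc3] at hv2
    have : 3 * (2 * n / 3) ≤ 2 * n := Nat.mul_div_le _ _
    nlinarith
  · rw [hall x (by simp), hall y (by simp)]
  · rw [hall x (by simp), hall z (by simp)]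

end Pool.Agent.SYT
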