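import Pool.Agent.SYT.Ec

/-!
# SYT-FixM: a letter is near the identity or near `f`

Project SYT (MP_a3a126_co), paper proof in /team-store/a3a126_87.md, section 4 (3a). `n = card V`, `f` without
fixed states.
* `fix_mov`: `x` moved by `g`, `v` fixed by `g`: `p = (x, v)`, `mv g p = (g x, v) ≠ p`, `≠ p.swap`. `p ∈ Bad f g` unless
  `f x = v`: `(g x, v) = (f x, f v)` is impossible (`f v ≠ v`), `(g x, v) = (f v, f x)` gives `v = f x`. `mv g p ∈ Bad f g`
  unless `v = f (g x)`: `mv g (g x, v) = (g (g x), v)`, `mv f (g x, v) = (f (g x), f v)`. So at most two `v` are lost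
  for each `x`: `|Mov| |Fix| ≤ |Ec| + 2 n`.
* `dd_mov`: `x` with `f x ≠ g x`, `g x ≠ x`; `v` with `f (g v) ≠ g (g v)`. `p = (x, v) ∈ Ec f g` unless `v = x`, or
  `g v = f x` (then `v = g⁻¹ (f x)`; `p ∉ Bad` needs `(g x, g v) = (f v, f x)` as `f x ≠ g x`), or `mv g p ∉ Bad`: as
  `f (g v) ≠ g (g v)` this needs `f (g v) = g (g x)`, one `v`; or `mv g p = p.swap`: `v = g x`. So at least
  `|D| - 4` values `v` are good for each `x` (`#{v : g v ∈ D} = |D|`).
* `near_or`: `μ = |Mov|`, `φ = |Fix| = n - μ`, `μ φ ≤ E`. If `2 μ ≤ n` then `n μ ≤ 2 E`. Else `n φ ≤ 2 E`, and for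
  `D = {f x ≠ g x}`: `(|D| - φ)(|D| - 4) ≤ |D ∩ Mov| (|D| - 4) ≤ E ≤ t²`, so `|D| < φ + t + 5`.
-/

set_option autoImplicit false

open Finset

namespace Pool.Agent.SYT

variable {V : Type} [Fintype V] [DecidableEq V]

theorem fix_mov {f : Equiv.Perm V} (hfix : ∀ x, f x ≠ x) (g : Equiv.Perm V) :
    (univ.filter fun x => g x ≠ x).card * (univ.filter fun x => g x = x).card ≤
      (Ec f g).card + 2 * Fintype.card V := by
  have hsub : (univ.filter fun x => g x ≠ x) ×ˢ (univ.filter fun x => g x = x) ⊆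
      (Ec f g ∪ univ.image (fun x => (x, f x))) ∪ univ.image (fun x => (x, f (g x))) := by
    rintro ⟨x, v⟩ h
    rw [mem_product, mem_filter, mem_filter] at h
    obtain ⟨⟨_, hx⟩, _, hv⟩ := h
    simp only at hx hv
    by_cases h1 : v = f x
    · exact mem_union_left _ (mem_union_right _ (mem_image.2 ⟨x, mem_univ _, by rw [h1]⟩))
    by_cases h2 : v = f (g x)
    · exact mem_union_right _ (mem_image.2 ⟨x, mem_univ _, by rw [h2]⟩)
    refine mem_union_left _ (mem_union_left _ ?_)
    have hxv : x ≠ v := by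
      rintro rfl
      exact hx hv
    have hgx : g x ≠ v := by
      intro h3
      rw [← hv] at h3
      exact hxv (g.injective h3)
    have hm : mv g (x, v) = (g x, v) := by
      show (g x, g v) = _
      rw [hv]
    unfold Ec
    rw [mem_filter, mem_Bad, mem_Bad, hm]
    refine ⟨⟨hxv, ?_, ?_⟩, ⟨hgx, ?_, ?_⟩, ?_, ?_⟩
    · intro h3
      exact hfix v (congrArg Prod.snd h3).symm
    · intro h3
      exact h1 (congrArg Prod.snd h3)
    · intro h3
      have h4 : g v = f v := congrArg Prod.snd h3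
      rw [hv] at h4
      exact hfix v h4.symm
    · intro h3
      have h4 : g v = f (g x) := congrArg Prod.snd h3
      rw [hv] at h4
      exact h2 h4
    · intro h3
      exact hx (congrArg Prod.fst h3)
    · intro h3
      exact hxv (congrArg Prod.snd h3).symm
  rw [← card_product]
  have hi : ∀ F : V → V × V, (univ.image F).card ≤ Fintype.card V := fun F => card_image_le
  have h1 := card_le_card hsub
  have h2 := card_union_le (Ec f g ∪ univ.image (fun x => (x, f x))) (univ.image (fun x => (x, f (g x))))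
  have h3 := card_union_le (Ec f g) (univ.image (fun x => (x, f x)))
  have h4 := hi (fun x => (x, f x))
  have h5 := hi (fun x => (x, f (g x)))
  omega

theorem dd_mov (f g : Equiv.Perm V) :
    (univ.filter fun x => f x ≠ g x ∧ g x ≠ x).card * ((univ.filter fun x => f x ≠ g x).card - 4) ≤
      (Ec f g).card := by
  have hDg : (univ.filter fun v => f (g v) ≠ g (g v)).card = (univ.filter fun x => f x ≠ g x).card := by
    refine card_bij (fun v _ => g v) ?_ ?_ ?_
    · intro v hv
      exact mem_filter.2 ⟨mem_univ _, (mem_filter.1 hv).2⟩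
    · intro v _ w _ h
      exact g.injective h
    · intro y hy
      obtain ⟨v, rfl⟩ := g.surjective y
      exact ⟨v, mem_filter.2 ⟨mem_univ _, (mem_filter.1 hy).2⟩, rfl⟩
  have h1 : ((Ec f g).filter fun p => p.1 ∈ (univ.filter fun x => f x ≠ g x ∧ g x ≠ x)).card =
      ∑ x ∈ (univ.filter fun x => f x ≠ g x ∧ g x ≠ x),
        (((Ec f g).filter fun p => p.1 ∈ (univ.filter fun x => f x ≠ g x ∧ g x ≠ x)).filter
          fun p => p.1 = x).card := by
    refine card_eq_sum_card_fiberwise fun p hp => ?_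
    exact (mem_filter.1 (mem_coe.1 hp)).2
  refine le_trans ?_ (card_filter_le (Ec f g) fun p => p.1 ∈ (univ.filter fun x => f x ≠ g x ∧ g x ≠ x))
  rw [h1, ← smul_eq_mul]
  refine card_nsmul_le_sum _ _ _ fun x hx => ?_
  obtain ⟨hx1, hx2⟩ := (mem_filter.1 hx).2
  have h2 : (((univ.filter fun v => f (g v) ≠ g (g v)) \ {x, g⁻¹ (f x), g x, g⁻¹ (f⁻¹ (g (g x)))}).image
      fun v => (x, v)) ⊆
      (((Ec f g).filter fun p => p.1 ∈ (univ.filter fun x => f x ≠ g x ∧ g x ≠ x)).filter
          fun p => p.1 = x) := by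
    intro p hp
    obtain ⟨v, hv, rfl⟩ := mem_image.1 hp
    rw [mem_sdiff, mem_filter] at hv
    obtain ⟨⟨_, hv1⟩, hv2⟩ := hv
    simp only [mem_insert, mem_singleton, not_or] at hv2
    obtain ⟨n1, n2, n3, n4⟩ := hv2
    have hn2 : g v ≠ f x := by
      intro h
      apply n2
      rw [← h]
      simp
    have hn4 : f (g v) ≠ g (g x) := by
      intro h
      apply n4
      rw [← h]
      simp
    have hxv : x ≠ v := fun h => n1 h.symm
    refine mem_filter.2 ⟨mem_filter.2 ⟨?_, hx⟩, rfl⟩
    unfold Ec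
    rw [mem_filter, mem_Bad, mem_Bad]
    refine ⟨⟨hxv, ?_, ?_⟩, ⟨?_, ?_, ?_⟩, ?_, ?_⟩
    · intro h
      exact hx1 (congrArg Prod.fst h).symm
    · intro h
      exact hn2 (congrArg Prod.snd h)
    · intro h
      exact hxv (g.injective h)
    · intro h
      exact hv1 (congrArg Prod.snd h).symm
    · intro h
      exact hn4 (congrArg Prod.fst h).symm
    · intro h
      exact hx2 (congrArg Prod.fst h)
    · intro h
      exact n3 (congrArg Prod.fst h).symm
  have h3 := card_le_card h2
  rw [card_image_of_injective _ (fun v w h => congrArg Prod.snd h)] at h3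
  have h4 := le_card_sdiff ({x, g⁻¹ (f x), g x, g⁻¹ (f⁻¹ (g (g x)))} : Finset V)
    (univ.filter fun v => f (g v) ≠ g (g v))
  have h5 : ({x, g⁻¹ (f x), g x, g⁻¹ (f⁻¹ (g (g x)))} : Finset V).card ≤ 4 := card_le_four
  omega

theorem near_or {f : Equiv.Perm V} (hfix : ∀ x, f x ≠ x) (g : Equiv.Perm V) {E t : ℕ}
    (hE : (Ec f g).card + 2 * Fintype.card V ≤ E) (ht : E ≤ t ^ 2) :
    Fintype.card V * (univ.filter fun x => g x ≠ x).card ≤ 2 * E ∨
      Fintype.card V * (univ.filter fun x => f x ≠ g x).card ≤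
        2 * E + Fintype.card V * (t + 5) := by
  have h1 := fix_mov hfix g
  have h2 := dd_mov f g
  obtain ⟨n, hn⟩ : ∃ n, Fintype.card V = n := ⟨_, rfl⟩
  have h3 : (univ.filter fun x => g x ≠ x).card + (univ.filter fun x => g x = x).card = n := by
    rw [← hn, ← card_univ, add_comm]
    exact card_filter_add_card_filter_not (s := (univ : Finset V)) (fun x => g x = x)
  have h4 : (univ.filter fun x => f x ≠ g x).card ≤
      (univ.filter fun x => f x ≠ g x ∧ g x ≠ x).card + (univ.filter fun x => g x = x).card := by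
    refine (card_le_card (t := (univ.filter fun x => f x ≠ g x ∧ g x ≠ x) ∪
      (univ.filter fun x => g x = x)) ?_).trans (card_union_le _ _)
    intro x hx
    by_cases h : g x = x
    · exact mem_union_right _ (mem_filter.2 ⟨mem_univ _, h⟩)
    · exact mem_union_left _ (mem_filter.2 ⟨mem_univ _, (mem_filter.1 hx).2, h⟩)
  rw [hn] at h1 hE ⊢
  generalize (univ.filter fun x => g x ≠ x).card = μ at *
  generalize (univ.filter fun x => g x = x).card = φ at *
  generalize (univ.filter fun x => f x ≠ g x).card = D at *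
  generalize (univ.filter fun x => f x ≠ g x ∧ g x ≠ x).card = A at *
  generalize (Ec f g).card = C at *
  have h5 : μ * φ ≤ E := h1.trans hE
  by_cases h6 : 2 * μ ≤ n
  · left
    have h7 : n ≤ 2 * φ := by omega
    calc n * μ ≤ 2 * φ * μ := Nat.mul_le_mul_right _ h7
      _ = 2 * (μ * φ) := by ring
      _ ≤ 2 * E := Nat.mul_le_mul_left _ h5
  · right
    have h7 : n * φ ≤ 2 * E := by
      calc n * φ ≤ 2 * μ * φ := Nat.mul_le_mul_right _ (by omega)
        _ = 2 * (μ * φ) := by ring
        _ ≤ 2 * E := Nat.mul_le_mul_left _ h5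
    have h8 : D ≤ φ + (t + 5) := by
      by_contra h9
      have h10 : (t + 1) * (t + 1) ≤ A * (D - 4) := Nat.mul_le_mul (by omega) (by omega)
      have h11 : (t + 1) * (t + 1) = t ^ 2 + 2 * t + 1 := by ring
      omega
    calc n * D ≤ n * (φ + (t + 5)) := Nat.mul_le_mul_left _ h8
      _ = n * φ + n * (t + 5) := by ring
      _ ≤ _ := Nat.add_le_add_right h7 _

end Pool.Agent.SYT
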