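import Pool.Agent.SYT.Edge

/-!
# SYT-Tree: oscillation of the counting functions

Project SYT (MP_a3a126_co), paper proof in /team-store/a3a126_87.md, section 2 (tree). A set of components closed under
all the letters is everything, so the components are joined one after the other by pairs `(x, g)`, `g` a letter (`tree`).
`osc`: the oscillation of `phi Q` is at most the sum over the pairs of the tree, and the sums are exchanged.
-/

set_option autoImplicit false

open Finset

namespace Pool.Agent.SYT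

variable {V : Type} [Fintype V] [DecidableEq V] (S : Sys V)

private theorem tree_ind (P1 : Set (Equiv.Perm V)) (x0 : V) (k : ℕ) (hk : 1 ≤ k) :
    k ≤ (comps (Subgroup.closure P1)).card →
    ∃ K ⊆ comps (Subgroup.closure P1), K.card = k ∧ ∃ T : Finset (V × Equiv.Perm V), T.card ≤ k ∧
      (∀ e ∈ T, e.2 ∈ S.P) ∧ (∀ e ∈ T, cls (Subgroup.closure P1) (e.2 e.1) ∈ K) ∧
      ∀ F : V → ℕ, (∀ x y, y ∈ cls (Subgroup.closure P1) x → F y = F x) →
        ∀ x y, cls (Subgroup.closure P1) x ∈ K → cls (Subgroup.closure P1) y ∈ K →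
          df (F x) (F y) ≤ ∑ e ∈ T, df (F e.1) (F (e.2 e.1)) := by
  classical
  induction k, hk using Nat.le_induction with
  | base =>
    intro _
    refine ⟨{cls (Subgroup.closure P1) x0}, ?_, card_singleton _, ∅, by simp, by simp, by simp, ?_⟩
    · intro C hC
      rw [mem_singleton.1 hC]
      exact cls_mem_comps x0
    · intro F hF x y hx hy
      have h1 : F x = F x0 := hF x0 x (by rw [← mem_singleton.1 hx]; exact self_mem_cls x)
      have h2 : F y = F x0 := hF x0 y (by rw [← mem_singleton.1 hy]; exact self_mem_cls y)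
      rw [h1, h2]
      simp [df]
  | succ k hk ih =>
    intro hk1
    obtain ⟨K, hK, hKc, T, hT, hTP, hTK, hTF⟩ := ih (by omega)
    obtain ⟨C, hC, hCK⟩ : ∃ C ∈ comps (Subgroup.closure P1), C ∉ K := by
      by_contra hc
      push Not at hc
      have := card_le_card hc
      omega
    obtain ⟨y1, -, hy1⟩ := exists_rep hC
    obtain ⟨C0, hC0⟩ : K.Nonempty := card_pos.1 (by omega)
    obtain ⟨x1, -, hx1⟩ := exists_rep (hK hC0)
    obtain ⟨g, hg, x, hx, hgx⟩ : ∃ g ∈ S.P, ∃ x, cls (Subgroup.closure P1) x ∈ K ∧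
        cls (Subgroup.closure P1) (g x) ∉ K := by
      by_contra hc
      push Not at hc
      obtain ⟨γ, hγ, hγx⟩ := S.trans x1 y1
      have h1 : ∀ g ∈ S.P, ∀ x ∈ (univ.filter fun x => cls (Subgroup.closure P1) x ∈ K),
          g x ∈ (univ.filter fun x => cls (Subgroup.closure P1) x ∈ K) := by
        intro g hg x hx
        exact mem_filter.2 ⟨mem_univ _, hc g hg x (mem_filter.1 hx).2⟩
      have h2 := closure_closed1 h1 hγ x1 (mem_filter.2 ⟨mem_univ _, by rw [← hx1]; exact hC0⟩)
      rw [hγx] at h2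
      have h3 := (mem_filter.1 h2).2
      rw [← hy1] at h3
      exact hCK h3
    have hnT : (x, g) ∉ T := fun h => hgx (hTK _ h)
    refine ⟨insert (cls (Subgroup.closure P1) (g x)) K, ?_, ?_, insert (x, g) T, ?_, ?_, ?_, ?_⟩
    · exact insert_subset (cls_mem_comps _) hK
    · rw [card_insert_of_notMem hgx, hKc]
    · rw [card_insert_of_notMem hnT]
      omega
    · intro e he
      rcases mem_insert.1 he with rfl | he
      · exact hg
      · exact hTP e he
    · intro e he
      rcases mem_insert.1 he with rfl | he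
      · exact mem_insert_self _ _
      · exact mem_insert_of_mem (hTK e he)
    · intro F hF a b ha hb
      rw [sum_insert hnT]
      show df (F a) (F b) ≤ df (F x) (F (g x)) + ∑ e ∈ T, df (F e.1) (F (e.2 e.1))
      have hnew : ∀ c, cls (Subgroup.closure P1) c = cls (Subgroup.closure P1) (g x) → F c = F (g x) :=
        fun c hc => hF (g x) c (by rw [← hc]; exact self_mem_cls c)
      rcases mem_insert.1 ha with ha | ha <;> rcases mem_insert.1 hb with hb | hb
      · rw [hnew a ha, hnew b hb]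
        unfold df
        omega
      · have h1 := hTF F hF x b hx hb
        rw [hnew a ha]
        unfold df at h1 ⊢
        omega
      · have h1 := hTF F hF x a hx ha
        rw [hnew b hb]
        unfold df at h1 ⊢
        omega
      · have h1 := hTF F hF a b ha hb
        omega

theorem tree (P1 : Set (Equiv.Perm V)) :
    ∃ T : Finset (V × Equiv.Perm V), T.card ≤ (comps (Subgroup.closure P1)).card ∧
      (∀ e ∈ T, e.2 ∈ S.P) ∧
      ∀ F : V → ℕ, (∀ x y, y ∈ cls (Subgroup.closure P1) x → F y = F x) →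
        ∀ x y, df (F x) (F y) ≤ ∑ e ∈ T, df (F e.1) (F (e.2 e.1)) := by
  rcases isEmpty_or_nonempty V with hV | hV
  · exact ⟨∅, by simp, by simp, fun F _ x => hV.elim x⟩
  · obtain ⟨x0⟩ := hV
    have hpos : 1 ≤ (comps (Subgroup.closure P1)).card := card_pos.2 ⟨_, cls_mem_comps x0⟩
    obtain ⟨K, hK, hKc, T, hT, hTP, -, hTF⟩ := tree_ind S P1 x0 _ hpos le_rfl
    have hKe : K = comps (Subgroup.closure P1) := eq_of_subset_of_card_le hK hKc.ge
    refine ⟨T, hT, hTP, fun F hF x y => hTF F hF x y ?_ ?_⟩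
    · rw [hKe]
      exact cls_mem_comps x
    · rw [hKe]
      exact cls_mem_comps y

theorem osc {P1 : Set (Equiv.Perm V)} (h1 : P1 ⊆ S.P) {k : ℕ}
    (hk : ∀ g ∈ S.P, (Dst (Subgroup.closure P1) g).card ≤ k) :
    ∃ o : Finset (V × V) → ℕ,
      (∀ Z ∈ comps (Subgroup.closure P1), ∀ Q ∈ S.sheets Z, ∀ x y, phi Q x ≤ phi Q y + o Q) ∧
      ∑ Z ∈ comps (Subgroup.closure P1), ∑ Q ∈ S.sheets Z, o Q ≤
        2 * k * (comps (Subgroup.closure P1)).card := by
  obtain ⟨T, hT, hTP, hTF⟩ := tree S P1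
  refine ⟨fun Q => ∑ e ∈ T, df (phi Q e.1) (phi Q (e.2 e.1)), ?_, ?_⟩
  · intro Z hZ Q hQ x y
    have h2 := hTF (phi Q) (fun a b hb => phi_const S h1 hZ hQ hb) x y
    show phi Q x ≤ phi Q y + ∑ e ∈ T, df (phi Q e.1) (phi Q (e.2 e.1))
    unfold df at h2 ⊢
    omega
  · have h2 : ∑ Z ∈ comps (Subgroup.closure P1), ∑ Q ∈ S.sheets Z, ∑ e ∈ T, df (phi Q e.1) (phi Q (e.2 e.1)) =
        ∑ e ∈ T, ∑ Z ∈ comps (Subgroup.closure P1), ∑ Q ∈ S.sheets Z, df (phi Q e.1) (phi Q (e.2 e.1)) := by
      rw [sum_comm]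
      refine sum_congr rfl fun Z _ => ?_
      exact sum_comm
    show ∑ Z ∈ comps (Subgroup.closure P1), ∑ Q ∈ S.sheets Z, ∑ e ∈ T, df (phi Q e.1) (phi Q (e.2 e.1)) ≤ _
    rw [h2]
    refine (sum_le_card_nsmul T _ (2 * k) fun e he => ?_).trans ?_
    · exact (phi_edge S h1 (hTP e he) e.1).trans (Nat.mul_le_mul_left _ (hk _ (hTP e he)))
    · rw [smul_eq_mul, mul_comm]
      exact Nat.mul_le_mul_left _ hT

end Pool.Agent.SYT
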