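import Pool.Agent.SYT.Ends
import Pool.Agent.SYT.Tree
import Pool.Agent.SYT.Mass

/-!
# SYT-GoodC: the number of good pairs over moderate components

Project SYT (MP_a3a126_co), paper proof in /team-store/a3a126_87.md, section 2 (COUNT, good ones).
`r` = number of components, `n = card V`. A good pair `p` lies in `base Z`, `Z = cls p.2` (`p.1 ≠ p.2` because
the components differ), so in exactly one sheet `Q` of `Z`. By `ends` the good pairs of `Q` lie over at most
two components `X` (images of `cls p.1`), moderate ones only are counted here: for each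
`#{p ∈ Q : p.1 ∈ X} = ∑_{x ∈ X} phi Q x ≤ |X| (phi Q x₀ + o Q)` (`osc`, any fixed `x₀`), and `r |X| ≤ 2 n`. So
`r * (count in Q) ≤ 4 n (phi Q x₀ + o Q)`. Sum over `Z` and `Q`: `sum_phi` and `osc` give
`r * count ≤ 4 n (n + 2 k r)`. (If `V` is empty both sides are 0.)
-/

set_option autoImplicit false

open Finset

namespace Pool.Agent.SYT

variable {V : Type} [Fintype V] [DecidableEq V] (S : Sys V)

open Classical in
private theorem gc_sheet {P1 : Set (Equiv.Perm V)} (h1 : P1 ⊆ S.P) {Z : Finset V}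
    (hZ : Z ∈ comps (Subgroup.closure P1)) {Q : Finset (V × V)} (hQ : Q ∈ S.sheets Z) {x0 : V} {o : ℕ}
    (ho : ∀ x y, phi Q x ≤ phi Q y + o) :
    (comps (Subgroup.closure P1)).card * (Q.filter fun p =>
      S.Good (Subgroup.closure P1) p ∧ p.1 ∈ modr (Subgroup.closure P1)).card ≤
      4 * Fintype.card V * (phi Q x0 + o) := by
  obtain ⟨A, hA⟩ : ∃ A, A = Q.filter fun p =>
    S.Good (Subgroup.closure P1) p ∧ p.1 ∈ modr (Subgroup.closure P1) := ⟨_, rfl⟩
  obtain ⟨I, hI⟩ : ∃ I, I = A.image fun p => cls (Subgroup.closure P1) p.1 := ⟨_, rfl⟩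
  rw [← hA]
  have hI2 : I.card ≤ 2 := by
    refine le_trans (card_le_card ?_) (ends S h1 hZ hQ)
    rw [hI, hA]
    apply image_subset_image
    intro p hp
    rw [mem_filter] at hp ⊢
    exact ⟨hp.1, hp.2.1⟩
  have hc : A.card ≤ ∑ X ∈ I, (Q.filter fun q => q.1 ∈ X).card := by
    refine le_trans (card_le_card (t := I.biUnion fun X => Q.filter fun q => q.1 ∈ X) ?_) card_biUnion_le
    intro p hp
    rw [mem_biUnion]
    refine ⟨cls (Subgroup.closure P1) p.1, ?_, ?_⟩
    · rw [hI]
      exact mem_image_of_mem _ hp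
    · rw [hA, mem_filter] at hp
      exact mem_filter.2 ⟨hp.1, self_mem_cls _⟩
  have hX : ∀ X ∈ I, (comps (Subgroup.closure P1)).card * (Q.filter fun q => q.1 ∈ X).card ≤
      2 * Fintype.card V * (phi Q x0 + o) := by
    intro X hX
    rw [hI, mem_image] at hX
    obtain ⟨p, hp, rfl⟩ := hX
    rw [hA, mem_filter] at hp
    have hm := mem_modr.1 hp.2.2
    rw [sum_phi_set]
    have h2 : ∑ x ∈ cls (Subgroup.closure P1) p.1, phi Q x ≤
        (cls (Subgroup.closure P1) p.1).card * (phi Q x0 + o) := by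
      rw [← smul_eq_mul]
      exact sum_le_card_nsmul _ _ _ fun x _ => ho x x0
    calc (comps (Subgroup.closure P1)).card * ∑ x ∈ cls (Subgroup.closure P1) p.1, phi Q x
        ≤ (comps (Subgroup.closure P1)).card * ((cls (Subgroup.closure P1) p.1).card * (phi Q x0 + o)) :=
          Nat.mul_le_mul_left _ h2
      _ = ((cls (Subgroup.closure P1) p.1).card * (comps (Subgroup.closure P1)).card) * (phi Q x0 + o) := by ring
      _ ≤ 2 * Fintype.card V * (phi Q x0 + o) := Nat.mul_le_mul_right _ hm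
  calc (comps (Subgroup.closure P1)).card * A.card
      ≤ (comps (Subgroup.closure P1)).card * ∑ X ∈ I, (Q.filter fun q => q.1 ∈ X).card :=
        Nat.mul_le_mul_left _ hc
    _ = ∑ X ∈ I, (comps (Subgroup.closure P1)).card * (Q.filter fun q => q.1 ∈ X).card := mul_sum _ _ _
    _ ≤ ∑ X ∈ I, 2 * Fintype.card V * (phi Q x0 + o) := sum_le_sum hX
    _ = I.card * (2 * Fintype.card V * (phi Q x0 + o)) := by rw [sum_const, smul_eq_mul]
    _ ≤ 2 * (2 * Fintype.card V * (phi Q x0 + o)) := Nat.mul_le_mul_right _ hI2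
    _ = 4 * Fintype.card V * (phi Q x0 + o) := by ring

open Classical in
theorem good_count {P1 : Set (Equiv.Perm V)} (h1 : P1 ⊆ S.P) {k : ℕ}
    (hk : ∀ g ∈ S.P, (Dst (Subgroup.closure P1) g).card ≤ k) :
    (comps (Subgroup.closure P1)).card * (univ.filter fun p : V × V =>
      S.Good (Subgroup.closure P1) p ∧ p.1 ∈ modr (Subgroup.closure P1)).card ≤
    4 * Fintype.card V * (Fintype.card V + 2 * k * (comps (Subgroup.closure P1)).card) := by
  rcases isEmpty_or_nonempty V with hV | ⟨⟨x0⟩⟩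
  · rw [show (univ.filter fun p : V × V =>
      S.Good (Subgroup.closure P1) p ∧ p.1 ∈ modr (Subgroup.closure P1)) = ∅ from
        eq_empty_of_isEmpty _, card_empty, mul_zero]
    exact Nat.zero_le _
  obtain ⟨o, ho1, ho2⟩ := osc S h1 hk
  have hA : (univ.filter fun p : V × V =>
      S.Good (Subgroup.closure P1) p ∧ p.1 ∈ modr (Subgroup.closure P1)).card ≤
      ∑ Z ∈ comps (Subgroup.closure P1), ∑ Q ∈ S.sheets Z, (Q.filter fun p =>
        S.Good (Subgroup.closure P1) p ∧ p.1 ∈ modr (Subgroup.closure P1)).card := by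
    refine le_trans (card_le_card (t := (comps (Subgroup.closure P1)).biUnion fun Z =>
      (S.sheets Z).biUnion fun Q => Q.filter fun p =>
        S.Good (Subgroup.closure P1) p ∧ p.1 ∈ modr (Subgroup.closure P1)) ?_)
      (le_trans card_biUnion_le (sum_le_sum fun Z _ => card_biUnion_le))
    intro p hp
    have hp2 := (mem_filter.1 hp).2
    have hne : p.1 ≠ p.2 := fun h => hp2.1.1 (by rw [h])
    have hb : p ∈ base (cls (Subgroup.closure P1) p.2) := mem_base.2 ⟨hne, self_mem_cls _⟩
    rw [mem_biUnion]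
    refine ⟨cls (Subgroup.closure P1) p.2, cls_mem_comps _, ?_⟩
    rw [mem_biUnion]
    exact ⟨S.sh _ p, sh_mem_sheets S hb, mem_filter.2 ⟨self_mem_sh S _ p, hp2⟩⟩
  calc (comps (Subgroup.closure P1)).card * (univ.filter fun p : V × V =>
      S.Good (Subgroup.closure P1) p ∧ p.1 ∈ modr (Subgroup.closure P1)).card
      ≤ (comps (Subgroup.closure P1)).card * ∑ Z ∈ comps (Subgroup.closure P1), ∑ Q ∈ S.sheets Z,
        (Q.filter fun p =>
          S.Good (Subgroup.closure P1) p ∧ p.1 ∈ modr (Subgroup.closure P1)).card :=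
        Nat.mul_le_mul_left _ hA
    _ = ∑ Z ∈ comps (Subgroup.closure P1), ∑ Q ∈ S.sheets Z, (comps (Subgroup.closure P1)).card *
        (Q.filter fun p =>
          S.Good (Subgroup.closure P1) p ∧ p.1 ∈ modr (Subgroup.closure P1)).card := by
        rw [mul_sum]
        exact sum_congr rfl fun Z _ => mul_sum _ _ _
    _ ≤ ∑ Z ∈ comps (Subgroup.closure P1), ∑ Q ∈ S.sheets Z,
        4 * Fintype.card V * (phi Q x0 + o Q) :=
        sum_le_sum fun Z hZ => sum_le_sum fun Q hQ => gc_sheet S h1 hZ hQ (ho1 Z hZ Q hQ)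
    _ = 4 * Fintype.card V * (∑ Z ∈ comps (Subgroup.closure P1), ∑ Q ∈ S.sheets Z, phi Q x0 +
        ∑ Z ∈ comps (Subgroup.closure P1), ∑ Q ∈ S.sheets Z, o Q) := by
        rw [← sum_add_distrib, mul_sum]
        refine sum_congr rfl fun Z _ => ?_
        rw [← sum_add_distrib, mul_sum]
    _ ≤ 4 * Fintype.card V * (Fintype.card V + 2 * k * (comps (Subgroup.closure P1)).card) :=
        Nat.mul_le_mul_left _ (Nat.add_le_add (sum_phi S x0) ho2)

end Pool.Agent.SYT
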