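import Pool.Agent.SYT.Cls

/-!
# SYT-MC: components are large

Project SYT (MP_a3a126_co), paper proof in /team-store/a3a126_87.md, section 1. Every row contains a level near `t`
(`near_value`). For a component `Y` a level `t` which is not a level of a pair in `Y × V` is at distance at most `n` above
or below the interval of levels of one of the orbits of pairs meeting `Y × R`, `R` a set of representatives of the
components.
-/

set_option autoImplicit false

open Finset

namespace Pool.Agent.SYT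

variable {V : Type} [Fintype V] [DecidableEq V] (S : Sys V)

theorem near_value (x : V) {t : ℕ} (h1 : 1 ≤ t) (h2 : t ≤ S.M) :
    ∃ z, S.w x z ≤ t + Fintype.card V ∧ t ≤ S.w x z + Fintype.card V := by
  rcases Nat.lt_or_ge t (Fintype.card V) with h | h
  · refine ⟨x, ?_, by omega⟩
    rw [S.self]
    omega
  obtain ⟨y, z0, hy⟩ := S.surj t h1 h2
  have e1 : (univ.filter fun z => t + 1 + Fintype.card V ≤ S.w x z).card ≤
      (univ.filter fun z => t + 1 ≤ S.w y z).card := S.row x y (t + 1)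
  have e2 : (univ.filter fun z => t + 1 ≤ S.w y z).card < (univ.filter fun z => t ≤ S.w y z).card := by
    apply card_lt_card
    rw [ssubset_iff_of_subset]
    · refine ⟨z0, mem_filter.2 ⟨mem_univ _, hy.ge⟩, fun hc => ?_⟩
      have := (mem_filter.1 hc).2
      omega
    · intro z hz
      have := (mem_filter.1 hz).2
      exact mem_filter.2 ⟨mem_univ _, by omega⟩
  have e3 : (univ.filter fun z => t ≤ S.w y z).card ≤
      (univ.filter fun z => t - Fintype.card V ≤ S.w x z).card := by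
    have := S.row y x (t - Fintype.card V)
    rwa [Nat.sub_add_cancel h] at this
  by_contra hc
  have e4 : (univ.filter fun z => t - Fintype.card V ≤ S.w x z).card ≤
      (univ.filter fun z => t + 1 + Fintype.card V ≤ S.w x z).card := by
    apply card_le_card
    intro z hz
    have h3 := (mem_filter.1 hz).2
    refine mem_filter.2 ⟨mem_univ _, ?_⟩
    by_contra h4
    exact hc ⟨z, by omega, by omega⟩
  omega

private theorem mc_rng (P1 : Set (Equiv.Perm V)) (p : V × V) :
    ∃ a b : ℕ, (∃ γ ∈ Subgroup.closure P1, S.wt (mv γ p) = a) ∧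
      (∃ γ ∈ Subgroup.closure P1, S.wt (mv γ p) = b) ∧
      ∀ γ ∈ Subgroup.closure P1, a ≤ S.wt (mv γ p) ∧ S.wt (mv γ p) ≤ b := by
  classical
  have hne : (univ.filter fun γ : Equiv.Perm V => γ ∈ Subgroup.closure P1).Nonempty :=
    ⟨1, mem_filter.2 ⟨mem_univ _, one_mem _⟩⟩
  obtain ⟨g1, hg1, h1⟩ := exists_min_image _ (fun γ => S.wt (mv γ p)) hne
  obtain ⟨g2, hg2, h2⟩ := exists_max_image _ (fun γ => S.wt (mv γ p)) hne
  refine ⟨S.wt (mv g1 p), S.wt (mv g2 p), ⟨g1, (mem_filter.1 hg1).2, rfl⟩, ⟨g2, (mem_filter.1 hg2).2, rfl⟩,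
    fun γ hγ => ?_⟩
  have h3 := mem_filter.2 ⟨mem_univ γ, hγ⟩
  exact ⟨h1 γ h3, h2 γ h3⟩

theorem mc {P1 : Set (Equiv.Perm V)} (h1 : P1 ⊆ S.P) {Y : Finset V}
    (hY : Y ∈ comps (Subgroup.closure P1)) :
    S.M ≤ Y.card * Fintype.card V +
      2 * Fintype.card V * ((comps (Subgroup.closure P1)).card * Y.card) := by
  classical
  obtain ⟨x, hxY, -⟩ := exists_rep hY
  have : Nonempty V := ⟨x⟩
  have hrep : ∀ C ∈ comps (Subgroup.closure P1), ∃ z, z ∈ C ∧ C = cls (Subgroup.closure P1) z :=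
    fun C hC => exists_rep hC
  choose! rep hr1 hr2 using hrep
  choose a b ha hb hab using mc_rng S P1
  obtain ⟨R, hR⟩ : ∃ R, R = (comps (Subgroup.closure P1)).image rep := ⟨_, rfl⟩
  obtain ⟨W, hW⟩ : ∃ W, W = (Y ×ˢ (univ : Finset V)).image S.wt := ⟨_, rfl⟩
  have hRc : R.card ≤ (comps (Subgroup.closure P1)).card := by
    rw [hR]
    exact card_image_le
  have hWc : W.card ≤ Y.card * Fintype.card V := by
    rw [hW]
    refine card_image_le.trans_eq ?_
    rw [card_product, card_univ]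
  have hWm : ∀ p : V × V, p.1 ∈ Y → ∀ γ ∈ Subgroup.closure P1, S.wt (mv γ p) ∈ W := by
    intro p hp γ hγ
    rw [hW]
    exact mem_image_of_mem _ (mem_product.2 ⟨(apply_mem hY hγ).2 hp, mem_univ _⟩)
  have hsub : Icc 1 S.M ⊆ W ∪ (Y ×ˢ R).biUnion fun p =>
      Ioc (b p) (b p + Fintype.card V) ∪ Ico (a p - Fintype.card V) (a p) := by
    intro t ht
    rw [mem_union]
    by_cases htW : t ∈ W
    · exact Or.inl htW
    right
    obtain ⟨ht1, ht2⟩ := mem_Icc.1 ht
    obtain ⟨z, hz1, hz2⟩ := near_value S x ht1 ht2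
    have hC : cls (Subgroup.closure P1) z ∈ comps (Subgroup.closure P1) := cls_mem_comps z
    obtain ⟨z0, hz0⟩ : ∃ z0, z0 = rep (cls (Subgroup.closure P1) z) := ⟨_, rfl⟩
    have hzz : z ∈ cls (Subgroup.closure P1) z0 := by
      rw [hz0, ← hr2 _ hC]
      exact self_mem_cls z
    obtain ⟨γ, hγ, hγz⟩ := mem_cls.1 hzz
    have hp : mv γ (γ⁻¹ x, z0) = (x, z) := by
      show (γ (γ⁻¹ x), γ z0) = (x, z)
      rw [hγz, ← Equiv.Perm.mul_apply, mul_inv_cancel, Equiv.Perm.one_apply]
    have hx' : γ⁻¹ x ∈ Y := (apply_mem hY (inv_mem hγ)).2 hxY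
    have hz0R : z0 ∈ R := by
      rw [hR, hz0]
      exact mem_image_of_mem _ hC
    refine mem_biUnion.2 ⟨(γ⁻¹ x, z0), mem_product.2 ⟨hx', hz0R⟩, ?_⟩
    obtain ⟨p, hpd⟩ : ∃ p : V × V, p = (γ⁻¹ x, z0) := ⟨_, rfl⟩
    rw [← hpd] at hp ⊢
    have hpw : S.wt (mv γ p) = S.w x z := by
      rw [hp]
      rfl
    have hb1 := hab p γ hγ
    rw [hpw] at hb1
    have hmem : ∀ γ' ∈ Subgroup.closure P1, S.wt (mv γ' (mv γ p)) ≠ t := by
      intro γ' hγ' h3
      rw [hp] at h3
      exact htW (h3 ▸ hWm (x, z) hxY γ' hγ')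
    have hne : S.w x z ≠ t := by
      have h3 := hmem 1 (one_mem _)
      rwa [mv_one, hpw] at h3
    have hcomp : ∀ δ : Equiv.Perm V, mv (δ * γ⁻¹) (mv γ p) = mv δ p := by
      intro δ
      rw [mv_mul, mv_inv_mv]
    rw [mem_union, mem_Ioc, mem_Ico]
    rcases Nat.lt_or_gt_of_ne hne with h3 | h3
    · left
      refine ⟨?_, by omega⟩
      by_contra h4
      obtain ⟨δ, hδ, hδb⟩ := hb p
      obtain ⟨γ', hγ', h5⟩ := interval_up S h1 (p := mv γ p) (mul_mem hδ (inv_mem hγ)) (t := t)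
        (by rw [hpw]; omega) (by rw [hcomp, hδb]; omega)
      exact hmem γ' hγ' h5
    · right
      refine ⟨by omega, ?_⟩
      by_contra h4
      obtain ⟨δ, hδ, hδb⟩ := ha p
      obtain ⟨γ', hγ', h5⟩ := interval_down S h1 (p := mv γ p) (mul_mem hδ (inv_mem hγ)) (t := t)
        (by rw [hcomp, hδb]; omega) (by rw [hpw]; omega)
      exact hmem γ' hγ' h5
  have hc1 := card_le_card hsub
  rw [Nat.card_Icc, Nat.add_sub_cancel] at hc1
  refine hc1.trans ((card_union_le _ _).trans (Nat.add_le_add hWc ?_))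
  refine (card_biUnion_le_card_mul _ _ (2 * Fintype.card V) fun p _ => ?_).trans ?_
  · refine (card_union_le _ _).trans ?_
    rw [Nat.card_Ioc, Nat.card_Ico]
    omega
  · rw [card_product, mul_comm]
    refine Nat.mul_le_mul_left _ ?_
    rw [mul_comm]
    exact Nat.mul_le_mul_right _ hRc

end Pool.Agent.SYT
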