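import Pool.Agent.SYT.GoodC
import Pool.Agent.SYT.BadC

/-!
# SYT-Many: many components are impossible when all letters nearly preserve them

Project SYT (MP_a3a126_co), paper proof in /team-store/a3a126_87.md, section 2 (CLAIM, Total).
Suppose `r ≥ 6144`, `U = modr Γ`, `n = card V`. `U × U` is covered by the pairs with equal components
(`same_comp`), `Coll` (`card_coll`), the good pairs (`good_count`) and the bad pairs (`bad_count`):
`r |U|² ≤ 2 n² + r (3 d) + 4 n (n + 2 k r) + 4 n k r + 12 d ≤ 6 n² + 12 n k r + 6 r d`. With `n ≤ 16 |U|` (`mass`; the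
hypothesis `3 n² ≤ 8 M` follows from `2 M + d = n (n - 1)`, `3072 d < n²`, `8 ≤ n`):
`r n² ≤ 1536 n² + 3072 n k r + 1536 r d`, and `1536 n² ≤ r n² / 4`, `3072 n k r ≤ r n² / 4`. So `n² ≤ 3072 d`.
-/

set_option autoImplicit false

open Finset

namespace Pool.Agent.SYT

variable {V : Type} [Fintype V] [DecidableEq V] (S : Sys V)

theorem many {P1 : Set (Equiv.Perm V)} (h1 : P1 ⊆ S.P) {k : ℕ}
    (hk : ∀ g ∈ S.P, (Dst (Subgroup.closure P1) g).card ≤ k)
    (hkn : 12288 * k ≤ Fintype.card V) (hn : 8 ≤ Fintype.card V)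
    (hd : 3072 * S.d < Fintype.card V ^ 2) :
    (comps (Subgroup.closure P1)).card < 6144 := by
  classical
  set Γ := Subgroup.closure P1 with hΓ
  by_contra hr
  push Not at hr
  have h2M := two_M_add S
  have hcoll := card_coll S
  have hA := same_comp Γ
  have hB := good_count S h1 hk
  have hC := bad_count S h1 hk (by rw [← hΓ]; omega)
  rw [← hΓ] at hB hC
  set n := Fintype.card V with hn'
  set r := (comps Γ).card with hr'
  set A := (univ.filter fun p : V × V => p.1 ∈ modr Γ ∧ cls Γ p.1 = cls Γ p.2) with hAdef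
  set B := (univ.filter fun p : V × V => S.Good Γ p ∧ p.1 ∈ modr Γ) with hBdef
  set C := (univ.filter fun p : V × V => cls Γ p.1 ≠ cls Γ p.2 ∧ p ∉ S.Coll ∧
      ¬ S.Good Γ p ∧ p.1 ∈ modr Γ ∧ p.2 ∈ modr Γ) with hCdef
  have hM : 3 * n ^ 2 ≤ 8 * S.M := by
    obtain ⟨m, hm⟩ : ∃ m, n = m + 1 := ⟨n - 1, by omega⟩
    rw [hm] at h2M hd hn ⊢
    rw [Nat.add_sub_cancel] at h2M
    nlinarith
  have hmass := mass S h1 hM
  rw [← hΓ, ← hn'] at hmass
  have hcov : (modr Γ ×ˢ modr Γ) ⊆ ((A ∪ S.Coll) ∪ B) ∪ C := by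
    intro p hp
    rw [mem_product] at hp
    simp only [mem_union, hAdef, hBdef, hCdef, mem_filter, mem_univ, true_and]
    by_cases hc : cls Γ p.1 = cls Γ p.2
    · exact Or.inl (Or.inl (Or.inl ⟨hp.1, hc⟩))
    · by_cases hcl : p ∈ S.Coll
      · exact Or.inl (Or.inl (Or.inr hcl))
      · by_cases hg : S.Good Γ p
        · exact Or.inl (Or.inr ⟨hg, hp.1⟩)
        · exact Or.inr ⟨hc, hcl, hg, hp.1, hp.2⟩
  have hcard : (modr Γ).card * (modr Γ).card ≤ A.card + S.Coll.card + B.card + C.card := by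
    rw [← card_product]
    refine (card_le_card hcov).trans ((card_union_le _ _).trans ?_)
    refine Nat.add_le_add_right ((card_union_le _ _).trans ?_) _
    exact Nat.add_le_add_right (card_union_le _ _) _
  have h3 : r * ((modr Γ).card * (modr Γ).card) ≤ 6 * n ^ 2 + 12 * (n * k * r) + 6 * (r * S.d) := by
    have h4 : r * ((modr Γ).card * (modr Γ).card) ≤
        r * A.card + r * S.Coll.card + r * B.card + r * C.card := by
      have h5 := Nat.mul_le_mul_left r hcard
      calc r * ((modr Γ).card * (modr Γ).card) ≤ r * (A.card + S.Coll.card + B.card + C.card) := h5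
        _ = r * A.card + r * S.Coll.card + r * B.card + r * C.card := by ring
    have h6 : r * S.Coll.card ≤ 3 * (r * S.d) := by
      calc r * S.Coll.card ≤ r * (3 * S.d) := Nat.mul_le_mul_left r hcoll
        _ = 3 * (r * S.d) := by ring
    have h7 : 12 * S.d ≤ 3 * (r * S.d) := by
      calc 12 * S.d ≤ (3 * r) * S.d := Nat.mul_le_mul_right _ (by omega)
        _ = 3 * (r * S.d) := by ring
    have h8 : 4 * n * (n + 2 * k * r) = 4 * n ^ 2 + 8 * (n * k * r) := by ring
    have h9 : 4 * n * (k * r) = 4 * (n * k * r) := by ring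
    rw [h8] at hB
    rw [h9] at hC
    omega
  have h4 : n ^ 2 ≤ 256 * ((modr Γ).card * (modr Γ).card) := by
    calc n ^ 2 = n * n := by ring
      _ ≤ (16 * (modr Γ).card) * (16 * (modr Γ).card) := Nat.mul_le_mul hmass hmass
      _ = 256 * ((modr Γ).card * (modr Γ).card) := by ring
  have h5 : r * n ^ 2 ≤ 256 * (r * ((modr Γ).card * (modr Γ).card)) := by
    calc r * n ^ 2 ≤ r * (256 * ((modr Γ).card * (modr Γ).card)) := Nat.mul_le_mul_left r h4
      _ = 256 * (r * ((modr Γ).card * (modr Γ).card)) := by ring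
  have h6 : 6144 * n ^ 2 ≤ r * n ^ 2 := Nat.mul_le_mul_right _ hr
  have h7 : 12288 * (n * k * r) ≤ r * n ^ 2 := by
    calc 12288 * (n * k * r) = (12288 * k) * (n * r) := by ring
      _ ≤ n * (n * r) := Nat.mul_le_mul_right _ hkn
      _ = r * n ^ 2 := by ring
  have h8 : r * (3072 * S.d) < r * n ^ 2 := Nat.mul_lt_mul_of_pos_left hd (by omega)
  have h9 : r * (3072 * S.d) = 3072 * (r * S.d) := by ring
  omega

end Pool.Agent.SYT
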