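import Pool.Agent.SYT.Cls

/-!
# SYT-ND: non-descending pairs are few

Project SYT (MP_a3a126_co), paper proof in /team-store/a3a126_87.md, section 3 (CROSSING INEQUALITY).
`ND P1` = pairs not in `Coll` and non-descending for all letters of `P1`.
* `nd_same`: two elements of `ND P1` in the same orbit of `closure P1` are equal up to swap (`unique_min` for
  both directions).
* `nd_cross`: fix `y₀ ∈ Y'`. For `p ∈ ND`, `p ∈ Y × Y'` choose `γ ∈ closure P1` with `γ p.2 = y₀`; `p ↦ γ p.1 ∈ Y` is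
  injective: equal images means same orbit, so `q = p` or `q = p.swap`, the latter is impossible as `Y ≠ Y'`.
* `nd_in`: the same map `Y × Y → Y` is at most two to one (`p`, `p.swap`).
-/

set_option autoImplicit false

open Finset

namespace Pool.Agent.SYT

variable {V : Type} [Fintype V] [DecidableEq V] (S : Sys V)

open Classical in
/-- non-descending pairs that are not in `Coll` -/
noncomputable def Sys.ND (P1 : Set (Equiv.Perm V)) : Finset (V × V) :=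
  (off V).filter fun p => p ∉ S.Coll ∧ ∀ g ∈ P1, S.wt p ≤ S.wt (mv g p)

theorem mem_ND {P1 : Set (Equiv.Perm V)} {p : V × V} :
    p ∈ S.ND P1 ↔ p.1 ≠ p.2 ∧ p ∉ S.Coll ∧ ∀ g ∈ P1, S.wt p ≤ S.wt (mv g p) := by
  simp [Sys.ND, mem_off]

theorem nd_same {P1 : Set (Equiv.Perm V)} (h1 : P1 ⊆ S.P) {p : V × V} (hp : p ∈ S.ND P1)
    {γ : Equiv.Perm V} (hγ : γ ∈ Subgroup.closure P1) (hq : mv γ p ∈ S.ND P1) :
    mv γ p = p ∨ mv γ p = p.swap := by
  obtain ⟨a1, a2, a3⟩ := (mem_ND S).1 hp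
  obtain ⟨b1, b2, b3⟩ := (mem_ND S).1 hq
  rcases unique_min S h1 a1 a2 a3 hγ with h | h
  · rcases unique_min S h1 b1 b2 b3 (inv_mem hγ) with h' | h' | h'
    · rw [mv_inv_mv] at h'
      omega
    · rw [mv_inv_mv] at h'
      exact Or.inl h'.symm
    · rw [mv_inv_mv] at h'
      right
      rw [h', Prod.swap_swap, ← h']
  · exact h

/-- moving the second state of a non-descending pair to a fixed state -/
private theorem nd_map {P1 : Set (Equiv.Perm V)} (h1 : P1 ⊆ S.P) {Y Y' : Finset V}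
    (hY : Y ∈ comps (Subgroup.closure P1)) (hY' : Y' ∈ comps (Subgroup.closure P1)) :
    ∃ f : V × V → V, (∀ p ∈ (S.ND P1).filter (fun p => p.1 ∈ Y ∧ p.2 ∈ Y'), f p ∈ Y) ∧
      ∀ p ∈ (S.ND P1).filter (fun p => p.1 ∈ Y ∧ p.2 ∈ Y'),
        ∀ q ∈ (S.ND P1).filter (fun p => p.1 ∈ Y ∧ p.2 ∈ Y'), f q = f p → q = p ∨ q = p.swap := by
  classical
  obtain ⟨y, hy, -⟩ := exists_rep hY'
  have hex : ∀ p : V × V, ∃ γ : Equiv.Perm V, γ ∈ Subgroup.closure P1 ∧ (p.2 ∈ Y' → γ p.2 = y) := by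
    intro p
    by_cases hp : p.2 ∈ Y'
    · rw [eq_cls hY' hp, mem_cls] at hy
      obtain ⟨γ, h2, h3⟩ := hy
      exact ⟨γ, h2, fun _ => h3⟩
    · exact ⟨1, one_mem _, fun h => absurd h hp⟩
  choose γ hγ hγy using hex
  refine ⟨fun p => γ p p.1, ?_, ?_⟩
  · intro p hp
    exact (apply_mem hY (hγ p)).2 (mem_filter.1 hp).2.1
  · intro p hp q hq h
    obtain ⟨p1, p2, p3⟩ := mem_filter.1 hp
    obtain ⟨q1, q2, q3⟩ := mem_filter.1 hq
    have h2 : mv (γ q) q = mv (γ p) p := by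
      refine Prod.ext h ?_
      show γ q q.2 = γ p p.2
      rw [hγy q q3, hγy p p3]
    have h3 : mv ((γ q)⁻¹ * γ p) p = q := by
      rw [mv_mul, ← h2, mv_inv_mv]
    have h4 := nd_same S h1 p1 (mul_mem (inv_mem (hγ q)) (hγ p)) (by rw [h3]; exact q1)
    rw [h3] at h4
    exact h4

private theorem nd_le {P1 : Set (Equiv.Perm V)} (h1 : P1 ⊆ S.P) {Y Y' : Finset V}
    (hY : Y ∈ comps (Subgroup.closure P1)) (hY' : Y' ∈ comps (Subgroup.closure P1))
    (hne : Y ≠ Y') : ((S.ND P1).filter fun p => p.1 ∈ Y ∧ p.2 ∈ Y').card ≤ Y.card := by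
  obtain ⟨f, h2, h3⟩ := nd_map S h1 hY hY'
  refine card_le_card_of_injOn f (fun p hp => h2 p (mem_coe.1 hp)) ?_
  intro p hp q hq h
  rcases h3 p hp q hq h.symm with h4 | h4
  · exact h4.symm
  · exfalso
    have h5 : q.1 ∈ Y := (mem_filter.1 (mem_coe.1 hq)).2.1
    have h6 : p.2 ∈ Y' := (mem_filter.1 (mem_coe.1 hp)).2.2
    rw [h4] at h5
    exact Finset.disjoint_left.1 (comps_disj hY hY' hne) h5 h6

private theorem nd_swap {P1 : Set (Equiv.Perm V)} {p : V × V} (hp : p ∈ S.ND P1) : p.swap ∈ S.ND P1 := by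
  rw [mem_ND] at hp ⊢
  obtain ⟨h1, h2, h3⟩ := hp
  refine ⟨fun h => h1 h.symm, fun h => h2 ((swap_mem_coll S).1 h), fun g hg => ?_⟩
  rw [mv_swap, wt_swap, wt_swap]
  exact h3 g hg

theorem nd_cross {P1 : Set (Equiv.Perm V)} (h1 : P1 ⊆ S.P) {Y Y' : Finset V}
    (hY : Y ∈ comps (Subgroup.closure P1)) (hY' : Y' ∈ comps (Subgroup.closure P1))
    (hne : Y ≠ Y') :
    ((S.ND P1).filter fun p => p.1 ∈ Y ∧ p.2 ∈ Y').card ≤ Y.card ∧
      ((S.ND P1).filter fun p => p.1 ∈ Y ∧ p.2 ∈ Y').card ≤ Y'.card := by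
  refine ⟨nd_le S h1 hY hY' hne, le_trans ?_ (nd_le S h1 hY' hY (Ne.symm hne))⟩
  refine card_le_card_of_injOn Prod.swap ?_ (Prod.swap_injective.injOn)
  intro p hp
  obtain ⟨h2, h3, h4⟩ := mem_filter.1 (mem_coe.1 hp)
  exact mem_coe.2 (mem_filter.2 ⟨nd_swap S h2, h4, h3⟩)

theorem nd_in {P1 : Set (Equiv.Perm V)} (h1 : P1 ⊆ S.P) {Y : Finset V}
    (hY : Y ∈ comps (Subgroup.closure P1)) :
    ((S.ND P1).filter fun p => p.1 ∈ Y ∧ p.2 ∈ Y).card ≤ 2 * Y.card := by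
  classical
  obtain ⟨f, h2, h3⟩ := nd_map S h1 hY hY
  refine (card_le_mul_card_image (f := f) _ 2 ?_).trans (Nat.mul_le_mul_left 2 (card_le_card ?_))
  · intro a ha
    obtain ⟨p, hp, rfl⟩ := mem_image.1 ha
    refine (card_le_card (t := {p, p.swap}) ?_).trans card_le_two
    intro q hq
    obtain ⟨hq1, hq2⟩ := mem_filter.1 hq
    rw [mem_insert, mem_singleton]
    exact h3 p hp q hq1 hq2
  · intro a ha
    obtain ⟨p, hp, rfl⟩ := mem_image.1 ha
    exact h2 p hp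

end Pool.Agent.SYT
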