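import Pool.Agent.SYT.ND

/-!
# SYT-NDT: totals of non-descending pairs

Project SYT (MP_a3a126_co), paper proof in /team-store/a3a126_87.md, section 3. `r` = number of components,
`n = card V`, `S = Σ_Y Σ_Y' (|Y| - |Y'|)` (truncated subtraction).
The pairs are counted over the pairs of components.
-/

set_option autoImplicit false

open Finset

namespace Pool.Agent.SYT

variable {V : Type} [Fintype V] [DecidableEq V] (S : Sys V)

/-- the sum of the differences of the sizes of the components -/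
noncomputable def sd (Γ : Subgroup (Equiv.Perm V)) : ℕ :=
  ∑ Y ∈ comps Γ, ∑ Y' ∈ comps Γ, (Y.card - Y'.card)

omit [Fintype V] [DecidableEq V] in
private theorem ndt_split {M : Type*} [AddCommMonoid M] (C : Finset (Finset V)) (P : Finset V → Prop)
    [DecidablePred P] (f : Finset V → Finset V → M) :
    ∑ A ∈ C, ∑ B ∈ C, f A B =
      (∑ A ∈ C.filter P, ∑ B ∈ C.filter P, f A B + ∑ A ∈ C.filter P, ∑ B ∈ C.filter (fun B => ¬ P B), f A B) +
      (∑ A ∈ C.filter (fun A => ¬ P A), ∑ B ∈ C.filter P, f A B +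
        ∑ A ∈ C.filter (fun A => ¬ P A), ∑ B ∈ C.filter (fun B => ¬ P B), f A B) := by
  rw [← sum_filter_add_sum_filter_not C P]
  congr 1
  · rw [← sum_add_distrib]
    exact sum_congr rfl fun A _ => (sum_filter_add_sum_filter_not C P _).symm
  · rw [← sum_add_distrib]
    exact sum_congr rfl fun A _ => (sum_filter_add_sum_filter_not C P _).symm

theorem nd_total {P1 : Set (Equiv.Perm V)} (h1 : P1 ⊆ S.P) :
    (S.ND P1).card + sd (Subgroup.closure P1) ≤
      ((comps (Subgroup.closure P1)).card + 1) * Fintype.card V := by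
  obtain ⟨C, hC⟩ : ∃ C, C = comps (Subgroup.closure P1) := ⟨_, rfl⟩
  have h2 : ∀ Y ∈ C, ∀ Y' ∈ C, ((S.ND P1).filter fun p => p.1 ∈ Y ∧ p.2 ∈ Y').card + (Y.card - Y'.card) ≤
      Y.card + (if Y = Y' then Y.card else 0) := by
    intro Y hY Y' hY'
    rw [hC] at hY hY'
    by_cases h : Y = Y'
    · subst h
      have h3 := nd_in S h1 hY
      rw [if_pos rfl]
      omega
    · have h3 := nd_cross S h1 hY hY' h
      rw [if_neg h]
      omega
  have h3 : (S.ND P1).card + sd (Subgroup.closure P1) = ∑ Y ∈ C, ∑ Y' ∈ C,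
      (((S.ND P1).filter fun p => p.1 ∈ Y ∧ p.2 ∈ Y').card + (Y.card - Y'.card)) := by
    unfold sd
    rw [card_pairs (Γ := Subgroup.closure P1) (S.ND P1), ← hC, ← sum_add_distrib]
    exact sum_congr rfl fun Y _ => sum_add_distrib.symm
  have h4 : ∑ Y ∈ C, ∑ Y' ∈ C, (Y.card + (if Y = Y' then Y.card else 0)) =
      (C.card + 1) * Fintype.card V := by
    have h5 : ∀ Y ∈ C, ∑ Y' ∈ C, (Y.card + (if Y = Y' then Y.card else 0)) = (C.card + 1) * Y.card := by
      intro Y hY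
      rw [sum_add_distrib, sum_const, smul_eq_mul, sum_ite_eq, if_pos hY]
      ring
    rw [sum_congr rfl h5, ← mul_sum, hC, sum_card_comps]
  rw [h3, ← hC, ← h4]
  exact sum_le_sum fun Y hY => sum_le_sum fun Y' hY' => h2 Y hY Y' hY'

open Classical in
/-- the cycles of `g` that meet `D` -/
noncomputable def meetc (g : Equiv.Perm V) (D : Finset V) : Finset (Finset V) :=
  (comps (Subgroup.closure {g})).filter fun A => (A ∩ D).Nonempty

theorem nd_meet {g : Equiv.Perm V} (hg : g ∈ S.P) (D : Finset V) :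
    ((S.ND {g}).filter fun p => p.1 ∈ D ∨ p.2 ∈ D).card +
        (meetc g D).card * ∑ A ∈ meetc g D, A.card ≤
      2 * (meetc g D).card * Fintype.card V + 2 * Fintype.card V := by
  classical
  obtain ⟨C, hC⟩ : ∃ C, C = comps (Subgroup.closure ({g} : Set (Equiv.Perm V))) := ⟨_, rfl⟩
  obtain ⟨A1, hA1⟩ : ∃ A1, A1 = C.filter fun A => (A ∩ D).Nonempty := ⟨_, rfl⟩
  obtain ⟨A2, hA2⟩ : ∃ A2, A2 = C.filter fun A => ¬ (A ∩ D).Nonempty := ⟨_, rfl⟩
  have hm : meetc g D = A1 := by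
    rw [hA1, hC]
    rfl
  have hP : ({g} : Set (Equiv.Perm V)) ⊆ S.P := Set.singleton_subset_iff.2 hg
  obtain ⟨F, hF⟩ : ∃ F, F = (S.ND {g}).filter fun p => p.1 ∈ D ∨ p.2 ∈ D := ⟨_, rfl⟩
  obtain ⟨f, hf⟩ : ∃ f : Finset V → Finset V → ℕ, ∀ A B, f A B = (F.filter fun p => p.1 ∈ A ∧ p.2 ∈ B).card :=
    ⟨_, fun _ _ => rfl⟩
  have hle : ∀ A B, f A B ≤ ((S.ND {g}).filter fun p => p.1 ∈ A ∧ p.2 ∈ B).card := by
    intro A B
    rw [hf, hF]
    exact card_le_card (filter_subset_filter _ (filter_subset _ _))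
  have hsub1 : ∀ A ∈ A1, A ∈ C := fun A hA => by
    rw [hA1] at hA
    exact (mem_filter.1 hA).1
  have hsub2 : ∀ A ∈ A2, A ∈ C := fun A hA => by
    rw [hA2] at hA
    exact (mem_filter.1 hA).1
  have hdis : ∀ A ∈ A1, A ∉ A2 := fun A hA hA' => by
    rw [hA1] at hA
    rw [hA2] at hA'
    exact (mem_filter.1 hA').2 (mem_filter.1 hA).2
  have hcross : ∀ A ∈ C, ∀ B ∈ C, A ≠ B → f A B ≤ A.card ∧ f A B ≤ B.card := by
    intro A hA B hB hne
    rw [hC] at hA hB
    have h1 := nd_cross S hP hA hB hne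
    have h2 := hle A B
    omega
  have hin : ∀ A ∈ C, f A A ≤ 2 * A.card := by
    intro A hA
    rw [hC] at hA
    exact (hle A A).trans (nd_in S hP hA)
  have e1 : 2 * ∑ A ∈ A1, ∑ B ∈ A1, f A B ≤ 2 * (A1.card * ∑ A ∈ A1, A.card) + 2 * ∑ A ∈ A1, A.card := by
    have h1 : ∀ A ∈ A1, ∀ B ∈ A1, 2 * f A B ≤ A.card + B.card + (if A = B then 2 * A.card else 0) := by
      intro A hA B hB
      by_cases h : A = B
      · subst h
        have := hin A (hsub1 A hA)
        rw [if_pos rfl]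
        omega
      · have := hcross A (hsub1 A hA) B (hsub1 B hB) h
        rw [if_neg h]
        omega
    calc 2 * ∑ A ∈ A1, ∑ B ∈ A1, f A B = ∑ A ∈ A1, ∑ B ∈ A1, 2 * f A B := by
          rw [mul_sum]
          exact sum_congr rfl fun A _ => mul_sum _ _ _
      _ ≤ ∑ A ∈ A1, ∑ B ∈ A1, (A.card + B.card + (if A = B then 2 * A.card else 0)) :=
          sum_le_sum fun A hA => sum_le_sum fun B hB => h1 A hA B hB
      _ = ∑ A ∈ A1, (A1.card * A.card + ∑ B ∈ A1, B.card + 2 * A.card) := by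
          refine sum_congr rfl fun A hA => ?_
          rw [sum_add_distrib, sum_add_distrib, sum_const, smul_eq_mul, sum_ite_eq, if_pos hA]
      _ = 2 * (A1.card * ∑ A ∈ A1, A.card) + 2 * ∑ A ∈ A1, A.card := by
          rw [sum_add_distrib, sum_add_distrib, sum_const, smul_eq_mul, ← mul_sum, ← mul_sum]
          ring
  have e2 : ∑ A ∈ A1, ∑ B ∈ A2, f A B ≤ A1.card * ∑ B ∈ A2, B.card := by
    calc ∑ A ∈ A1, ∑ B ∈ A2, f A B ≤ ∑ A ∈ A1, ∑ B ∈ A2, B.card := by
          refine sum_le_sum fun A hA => sum_le_sum fun B hB => ?_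
          refine (hcross A (hsub1 A hA) B (hsub2 B hB) ?_).2
          rintro rfl
          exact hdis A hA hB
      _ = A1.card * ∑ B ∈ A2, B.card := by rw [sum_const, smul_eq_mul]
  have e3 : ∑ A ∈ A2, ∑ B ∈ A1, f A B ≤ A1.card * ∑ B ∈ A2, B.card := by
    calc ∑ A ∈ A2, ∑ B ∈ A1, f A B ≤ ∑ A ∈ A2, ∑ B ∈ A1, A.card := by
          refine sum_le_sum fun A hA => sum_le_sum fun B hB => ?_
          refine (hcross A (hsub2 A hA) B (hsub1 B hB) ?_).1
          rintro rfl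
          exact hdis A hB hA
      _ = A1.card * ∑ B ∈ A2, B.card := by
          rw [mul_sum]
          exact sum_congr rfl fun A _ => by rw [sum_const, smul_eq_mul]
  have e4 : ∑ A ∈ A2, ∑ B ∈ A2, f A B = 0 := by
    refine sum_eq_zero fun A hA => sum_eq_zero fun B hB => ?_
    rw [hf, card_eq_zero, filter_eq_empty_iff]
    intro p hp hpAB
    rw [hF] at hp
    rw [hA2] at hA hB
    rcases (mem_filter.1 hp).2 with h | h
    · exact (mem_filter.1 hA).2 ⟨p.1, mem_inter.2 ⟨hpAB.1, h⟩⟩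
    · exact (mem_filter.1 hB).2 ⟨p.2, mem_inter.2 ⟨hpAB.2, h⟩⟩
  have e5 : F.card = (∑ A ∈ A1, ∑ B ∈ A1, f A B + ∑ A ∈ A1, ∑ B ∈ A2, f A B) +
      (∑ A ∈ A2, ∑ B ∈ A1, f A B + ∑ A ∈ A2, ∑ B ∈ A2, f A B) := by
    rw [card_pairs (Γ := Subgroup.closure ({g} : Set (Equiv.Perm V))) F, ← hC, hA1, hA2,
      ← ndt_split C (fun A => (A ∩ D).Nonempty) f]
    exact sum_congr rfl fun A _ => sum_congr rfl fun B _ => (hf A B).symm
  have e6 : ∑ A ∈ A1, A.card + ∑ A ∈ A2, A.card = Fintype.card V := by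
    rw [← sum_card_comps (Γ := Subgroup.closure ({g} : Set (Equiv.Perm V))), ← hC, hA1, hA2]
    exact sum_filter_add_sum_filter_not C _ _
  rw [hm, ← hF, ← e6]
  obtain ⟨r, hr⟩ : ∃ r, r = A1.card := ⟨_, rfl⟩
  obtain ⟨a, ha⟩ : ∃ a, a = ∑ A ∈ A1, A.card := ⟨_, rfl⟩
  obtain ⟨b, hb⟩ : ∃ b, b = ∑ A ∈ A2, A.card := ⟨_, rfl⟩
  rw [← hr, ← ha] at e1
  rw [← hr, ← hb] at e2 e3
  rw [← hr, ← ha, ← hb]
  have e7 : 2 * r * (a + b) = 2 * (r * a) + 2 * (r * b) := by ring
  rw [e7]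
  omega

end Pool.Agent.SYT
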