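import Pool.Agent.SYT.Close
import Pool.Agent.SYT.Edge

/-!
# SYT-NearB: a letter close to `f` differs from `f` at few states only

Project SYT (MP_a3a126_co), paper proof in /team-store/a3a126_87.md, section 4 (3c). `D = {x : f x ≠ g x}`,
`s = f⁻¹ g` permutes `D`. `n = card V`.
* `sum_step`: `∑_{p} (wt (mv g p) + 1 - wt p) = n²` over all pairs (`mv g` is a bijection; terms are `≥ 0` by
  `wt_step`), stated with truncated subtraction.
* `sum_diff`: for `y ∈ D`, `v ∉ D`: `(g y, g v) = (f (s y), f v)`. With `A = w (g y) (g v) + 1 - w y v ≥ 0` and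
  `B = w (f (s y)) (f v) + 1 - w (s y) v ≥ 0`: `w (s y) v - w y v = A - B`, so `df ≤ A + B`; `∑ A ≤ n²`,
  `∑ B ≤ n²` (`y ↦ s y` is injective).
* `near_big`: suppose `1024 K² ≤ |D|`. Some `y ∈ D` has `|D| ∑_{v ∉ D} df (w (s y) v) (w y v) ≤ 2 n²`. `a = |cyc f y|`,
  `e = a / 32`, `T' = {v ∉ D : e < df ..}`: `|D| |T'| (e+1) ≤ 2 n²`, `n ≤ K a`, `a < 32 (e+1)` give `16 |T'| ≤ a`. `close` for
  the states `y` and `s y ≠ y` with `T = D ∪ T'` (`s y ∈ D`): `n a ≤ 12 n + 4 n |D| + n a / 4 + 328 K d`, and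
  `4 n |D| ≤ n a / 8` (`32 K |D| ≤ n ≤ K a`); contradiction with `64 K ≤ n`, `1000 K² d ≤ n²`.
-/

set_option autoImplicit false

open Finset

namespace Pool.Agent.SYT

variable {V : Type} [Fintype V] [DecidableEq V] (S : Sys V) {f : Equiv.Perm V}

omit [Fintype V] [DecidableEq V] in
private theorem nb_inv (f : Equiv.Perm V) (y : V) : f (f⁻¹ y) = y := Equiv.apply_symm_apply f y

theorem sum_step {g : Equiv.Perm V} (hg : g ∈ S.P) :
    ∑ p : V × V, (S.wt (mv g p) + 1 - S.wt p) = Fintype.card V ^ 2 := by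
  rw [sum_tsub_distrib _ fun p _ => wt_step S hg p]
  have h1 : ∑ p : V × V, S.wt (mv g p) = ∑ p : V × V, S.wt p :=
    (Equiv.sum_comp (Equiv.prodCongr g g) S.wt)
  rw [sum_add_distrib, h1, sum_const, card_univ, Fintype.card_prod]
  simp only [smul_eq_mul, mul_one]
  rw [pow_two]
  omega

theorem sum_diff (hf : f ∈ S.P) {g : Equiv.Perm V} (hg : g ∈ S.P) :
    ∑ y ∈ univ.filter (fun x => f x ≠ g x), ∑ v ∈ univ.filter (fun x => f x = g x),
      df (S.w (f⁻¹ (g y)) v) (S.w y v) ≤ 2 * Fintype.card V ^ 2 := by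
  have key : ∀ y v : V, f v = g v →
      df (S.w (f⁻¹ (g y)) v) (S.w y v) ≤ (S.wt (mv g (y, v)) + 1 - S.wt (y, v)) +
        (S.wt (mv f (f⁻¹ (g y), v)) + 1 - S.wt (f⁻¹ (g y), v)) := by
    intro y v hv
    have h1 := wt_step S hg (y, v)
    have h2 := wt_step S hf (f⁻¹ (g y), v)
    have h3 : mv f (f⁻¹ (g y), v) = mv g (y, v) := by
      show (f (f⁻¹ (g y)), f v) = (g y, g v)
      rw [nb_inv, hv]
    rw [h3] at h2 ⊢
    have h4 : S.wt (y, v) = S.w y v := rfl
    have h5 : S.wt (f⁻¹ (g y), v) = S.w (f⁻¹ (g y)) v := rfl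
    rw [h4] at h1 ⊢
    rw [h5] at h2 ⊢
    unfold df
    omega
  have hA : ∑ y : V, ∑ v : V, (S.wt (mv g (y, v)) + 1 - S.wt (y, v)) = Fintype.card V ^ 2 := by
    rw [← sum_step S hg, Fintype.sum_prod_type]
  have hB : ∑ y : V, ∑ v : V, (S.wt (mv f (f⁻¹ (g y), v)) + 1 - S.wt (f⁻¹ (g y), v)) =
      Fintype.card V ^ 2 := by
    have h1 := Equiv.sum_comp (f⁻¹ * g)
      (fun y => ∑ v : V, (S.wt (mv f (y, v)) + 1 - S.wt (y, v)))
    rw [← sum_step S hf, Fintype.sum_prod_type, ← h1]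
    rfl
  calc ∑ y ∈ univ.filter (fun x => f x ≠ g x), ∑ v ∈ univ.filter (fun x => f x = g x),
      df (S.w (f⁻¹ (g y)) v) (S.w y v)
      ≤ ∑ y ∈ univ.filter (fun x => f x ≠ g x), ∑ v ∈ univ.filter (fun x => f x = g x),
        ((S.wt (mv g (y, v)) + 1 - S.wt (y, v)) +
        (S.wt (mv f (f⁻¹ (g y), v)) + 1 - S.wt (f⁻¹ (g y), v))) :=
        sum_le_sum fun y _ => sum_le_sum fun v hv => key y v (mem_filter.1 hv).2
    _ ≤ ∑ y : V, ∑ v : V,
        ((S.wt (mv g (y, v)) + 1 - S.wt (y, v)) +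
        (S.wt (mv f (f⁻¹ (g y), v)) + 1 - S.wt (f⁻¹ (g y), v))) :=
        (sum_le_sum_of_subset (filter_subset _ _)).trans
          (sum_le_sum fun y _ => sum_le_sum_of_subset (filter_subset _ _))
    _ = 2 * Fintype.card V ^ 2 := by
        simp only [sum_add_distrib]
        rw [hA, hB, two_mul]

theorem near_big (hf : f ∈ S.P) {g : Equiv.Perm V} (hg : g ∈ S.P) {K : ℕ} (hK1 : 1 ≤ K)
    (hK : ∀ x, Fintype.card V ≤ K * (cyc f x).card)
    (hD : 32 * K * (univ.filter fun x => f x ≠ g x).card ≤ Fintype.card V)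
    (hn : 64 * K ≤ Fintype.card V) (hd : 1000 * K ^ 2 * S.d ≤ Fintype.card V ^ 2) :
    (univ.filter fun x => f x ≠ g x).card < 1024 * K ^ 2 := by
  classical
  by_contra hcon
  rw [not_lt] at hcon
  set D : Finset V := univ.filter fun x => f x ≠ g x with hDd
  set n := Fintype.card V with hn'
  have hsum := sum_diff S hf hg
  rw [← hDd, ← hn'] at hsum
  obtain ⟨y, hyD, hy⟩ : ∃ y ∈ D, D.card * ∑ v ∈ univ.filter (fun x => f x = g x),
      df (S.w (f⁻¹ (g y)) v) (S.w y v) ≤ 2 * n ^ 2 := by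
    by_contra hno
    push Not at hno
    have hne : D.Nonempty := by
      rw [← card_pos]
      have : 0 < 1024 * K ^ 2 := by positivity
      omega
    have h1 := sum_lt_sum_of_nonempty hne hno
    rw [sum_const, smul_eq_mul, ← mul_sum] at h1
    exact absurd (Nat.mul_le_mul_left D.card hsum) (not_le.2 h1)
  set a := (cyc f y).card with ha
  set e := a / 32 with he
  set T' : Finset V := (univ.filter fun x => f x = g x).filter fun v =>
    e < df (S.w (f⁻¹ (g y)) v) (S.w y v) with hT'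
  have hsD : f⁻¹ (g y) ∈ D := by
    rw [hDd, mem_filter]
    refine ⟨mem_univ _, ?_⟩
    rw [nb_inv]
    intro h
    have h2 := g.injective h
    have h3 : f y = g y := by
      conv_lhs => rw [h2]
      rw [nb_inv]
    exact (mem_filter.1 hyD).2 h3
  have hne : f⁻¹ (g y) ≠ y := by
    intro h
    have h3 : f y = g y := by
      conv_lhs => rw [← h]
      rw [nb_inv]
    exact (mem_filter.1 hyD).2 h3
  have hn1 : n ≤ K * a := hK y
  have h64 : 64 ≤ a := by
    by_contra hlt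
    rw [not_le] at hlt
    have : K * a < 64 * K := by
      rw [mul_comm 64 K]
      exact Nat.mul_lt_mul_of_pos_left hlt (by omega)
    omega
  have hcl := close S hf hK hne (a := a) (e := e) rfl h64 rfl (T := D ∪ T') (by
    intro v hv hvy
    rw [mem_union, not_or] at hv
    have hvf : f v = g v := by
      by_contra h
      exact hv.1 (mem_filter.2 ⟨mem_univ _, h⟩)
    have hdf : df (S.w (f⁻¹ (g y)) v) (S.w y v) ≤ e := by
      by_contra h
      rw [not_le] at h
      exact hv.2 (mem_filter.2 ⟨mem_filter.2 ⟨mem_univ _, hvf⟩, h⟩)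
    unfold df at hdf
    refine ⟨fun h => hv.1 (by rw [h]; exact hsD), ?_, ?_⟩ <;> omega)
  rw [← hn'] at hcl
  have hT1 : T'.card * (e + 1) ≤ ∑ v ∈ univ.filter (fun x => f x = g x),
      df (S.w (f⁻¹ (g y)) v) (S.w y v) := by
    calc T'.card * (e + 1) = ∑ v ∈ T', (e + 1) := by rw [sum_const, smul_eq_mul]
      _ ≤ ∑ v ∈ T', df (S.w (f⁻¹ (g y)) v) (S.w y v) :=
        sum_le_sum fun v hv => (mem_filter.1 hv).2
      _ ≤ _ := sum_le_sum_of_subset (filter_subset _ _)
  have h1 : 1024 * K ^ 2 * (T'.card * (e + 1)) ≤ 2 * (K * a) ^ 2 :=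
    calc 1024 * K ^ 2 * (T'.card * (e + 1)) ≤ D.card * (T'.card * (e + 1)) :=
          Nat.mul_le_mul_right _ hcon
      _ ≤ D.card * ∑ v ∈ univ.filter (fun x => f x = g x),
            df (S.w (f⁻¹ (g y)) v) (S.w y v) := Nat.mul_le_mul_left _ hT1
      _ ≤ 2 * n ^ 2 := hy
      _ ≤ 2 * (K * a) ^ 2 := Nat.mul_le_mul_left _ (Nat.pow_le_pow_left hn1 2)
  have hKK : 0 < K ^ 2 := by positivity
  have h2 : 512 * (T'.card * (e + 1)) ≤ a ^ 2 := by
    have h3 : K ^ 2 * (1024 * (T'.card * (e + 1))) ≤ K ^ 2 * (2 * a ^ 2) := by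
      calc K ^ 2 * (1024 * (T'.card * (e + 1))) = 1024 * K ^ 2 * (T'.card * (e + 1)) := by ring
        _ ≤ 2 * (K * a) ^ 2 := h1
        _ = K ^ 2 * (2 * a ^ 2) := by ring
    have h4 := Nat.le_of_mul_le_mul_left h3 hKK
    omega
  have ha32 : a ≤ 32 * (e + 1) := by omega
  have h5 : 16 * T'.card ≤ a := by
    have h6 : (e + 1) * (512 * T'.card) ≤ (e + 1) * (32 * a) := by
      calc (e + 1) * (512 * T'.card) = 512 * (T'.card * (e + 1)) := by ring
        _ ≤ a ^ 2 := h2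
        _ = a * a := by ring
        _ ≤ (32 * (e + 1)) * a := Nat.mul_le_mul_right _ ha32
        _ = (e + 1) * (32 * a) := by ring
    have h7 := Nat.le_of_mul_le_mul_left h6 (Nat.succ_pos e)
    omega
  have h8 : 32 * D.card ≤ a := by
    have h9 : K * (32 * D.card) ≤ K * a := by
      calc K * (32 * D.card) = 32 * K * D.card := by ring
        _ ≤ n := hD
        _ ≤ K * a := hn1
    exact Nat.le_of_mul_le_mul_left h9 (by omega)
  have h10 : 1000 * (K * S.d) ≤ n * a := by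
    have h11 : K * (1000 * (K * S.d)) ≤ K * (n * a) := by
      calc K * (1000 * (K * S.d)) = 1000 * K ^ 2 * S.d := by ring
        _ ≤ n ^ 2 := hd
        _ = n * n := by ring
        _ ≤ n * (K * a) := Nat.mul_le_mul_left _ hn1
        _ = K * (n * a) := by ring
    exact Nat.le_of_mul_le_mul_left h11 (by omega)
  have h12 : n * (64 : ℕ) ≤ n * a := Nat.mul_le_mul_left _ h64
  have h13 : n * (16 * T'.card) ≤ n * a := Nat.mul_le_mul_left _ h5
  have h14 : n * (32 * D.card) ≤ n * a := Nat.mul_le_mul_left _ h8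
  have h15 : (D ∪ T').card ≤ D.card + T'.card := card_union_le _ _
  have h16 : 4 * n * (D ∪ T').card ≤ 4 * (n * D.card) + 4 * (n * T'.card) := by
    calc 4 * n * (D ∪ T').card ≤ 4 * n * (D.card + T'.card) := Nat.mul_le_mul_left _ h15
      _ = _ := by ring
  have h17 : n * (16 * T'.card) = 16 * (n * T'.card) := by ring
  have h18 : n * (32 * D.card) = 32 * (n * D.card) := by ring
  have h19 : 328 * K * S.d = 328 * (K * S.d) := by ring
  rw [h17] at h13
  rw [h18] at h14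
  rw [h19] at hcl
  have hnp : 0 < n := by omega
  have hP : 0 < n * a := Nat.mul_pos hnp (by omega)
  omega

end Pool.Agent.SYT
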