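import Pool.Agent.SYT.Close

/-!
# SYT-NearId: a letter moving few states is the identity

Project SYT (MP_a3a126_co), paper proof in /team-store/a3a126_87.md, section 4 (3b). `n = card V`.
* `row_close`: `g^i x` runs through the `g`-cycle of `x`, of length `l ≤ #{v : g v ≠ v}`, `g^l x = x`. Every letter step
  lowers levels by at most one: `w x v ≤ w (g x) v + 1` and `w (g x) v ≤ w (g^l x) v + (l - 1)`.
* `near_id`: suppose `g x ≠ x`; `a = |cyc f x|`, `n ≤ K a`, so `a ≥ 64`; `e = a / 32`, `a ≤ 64 e`, hence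
  `64 K μ ≤ n ≤ 64 K e` gives `μ ≤ e`, `μ = #{v : g v ≠ v}`. `close` with `y = g x`, `T = {v : g v ≠ v}`:
  `n a ≤ 12 n + 4 n μ + 328 K d`, `4 n μ ≤ n a / 16`, `n² ≤ K n a`: contradiction with `64 K ≤ n`, `1000 K² d ≤ n²`.
-/

set_option autoImplicit false

open Finset

namespace Pool.Agent.SYT

variable {V : Type} [Fintype V] [DecidableEq V] (S : Sys V) {f : Equiv.Perm V}

theorem row_close {g : Equiv.Perm V} (hg : g ∈ S.P) {x v : V} (hx : g x ≠ x) (hv : g v = v) :
    S.w x v ≤ S.w (g x) v + (univ.filter fun u => g u ≠ u).card ∧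
      S.w (g x) v ≤ S.w x v + (univ.filter fun u => g u ≠ u).card := by
  have h1 := S.step g hg x v
  rw [hv] at h1
  obtain ⟨l, hl⟩ : ∃ l, l = Function.minimalPeriod g x := ⟨_, rfl⟩
  have hper : x ∈ Function.periodicPts g := g.injective.mem_periodicPts x
  have hl0 : 0 < l := by
    rw [hl]
    exact Function.minimalPeriod_pos_of_mem_periodicPts hper
  have hlx : g^[l] x = x := by
    rw [hl]
    exact Function.isPeriodicPt_minimalPeriod g x
  have hcard : l ≤ (univ.filter fun u => g u ≠ u).card := by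
    have h2 : ((range l).image fun i => g^[i] x).card = l := by
      rw [card_image_of_injOn, card_range]
      intro i hi j hj hij
      have hi' : i < l := by simpa using hi
      have hj' : j < l := by simpa using hj
      rw [hl] at hi' hj'
      exact Function.iterate_injOn_Iio_minimalPeriod (f := g) (x := x) hi' hj' hij
    rw [← h2]
    refine card_le_card fun u hu => ?_
    rw [mem_image] at hu
    obtain ⟨i, _, rfl⟩ := hu
    rw [mem_filter]
    refine ⟨mem_univ _, fun h3 => hx ?_⟩
    have h4 : g^[i] (g x) = g^[i] x := by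
      rw [← Function.iterate_succ_apply, Function.iterate_succ_apply']
      exact h3
    exact g.injective.iterate i h4
  have hit : ∀ j, S.w (g x) v ≤ S.w (g^[j + 1] x) v + j := by
    intro j
    induction j with
    | zero => simp
    | succ j ih =>
      have h5 := S.step g hg (g^[j + 1] x) v
      have h6 : g (g^[j + 1] x) = g^[j + 1 + 1] x := (Function.iterate_succ_apply' g (j + 1) x).symm
      rw [hv, h6] at h5
      omega
  constructor
  · omega
  · have h6 := hit (l - 1)
    rw [Nat.sub_add_cancel hl0, hlx] at h6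
    omega

theorem near_id (hf : f ∈ S.P) {g : Equiv.Perm V} (hg : g ∈ S.P) {K : ℕ} (hK1 : 1 ≤ K)
    (hK : ∀ x, Fintype.card V ≤ K * (cyc f x).card)
    (hmov : 64 * K * (univ.filter fun u => g u ≠ u).card ≤ Fintype.card V)
    (hn : 64 * K ≤ Fintype.card V) (hd : 1000 * K ^ 2 * S.d ≤ Fintype.card V ^ 2) : g = 1 := by
  by_contra hne
  obtain ⟨x, hx⟩ : ∃ x, g x ≠ x := by
    by_contra h0
    push Not at h0
    exact hne (Equiv.ext h0)
  obtain ⟨a, ha⟩ : ∃ a, (cyc f x).card = a := ⟨_, rfl⟩
  have hna : Fintype.card V ≤ K * a := by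
    rw [← ha]
    exact hK x
  obtain ⟨μ, hμ⟩ : ∃ μ, μ = (univ.filter fun u => g u ≠ u).card := ⟨_, rfl⟩
  rw [← hμ] at hmov
  have h64 : 64 ≤ a := by
    have h1 : 64 * K ≤ K * a := hn.trans hna
    rw [mul_comm] at h1
    exact Nat.le_of_mul_le_mul_left h1 (by omega)
  have h64μ : 64 * μ ≤ a := by
    have h1 : K * (64 * μ) ≤ K * a := by
      calc K * (64 * μ) = 64 * K * μ := by ring
        _ ≤ K * a := hmov.trans hna
    exact Nat.le_of_mul_le_mul_left h1 (by omega)
  have hμe : μ ≤ a / 32 := by omega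
  have hcl := close S hf hK (x := x) (y := g x) hx ha h64 rfl (T := univ.filter fun u => g u ≠ u)
    (by
      intro v hvT hvx
      have hv : g v = v := by
        by_contra h0
        exact hvT (mem_filter.2 ⟨mem_univ _, h0⟩)
      obtain ⟨h2, h3⟩ := row_close S hg hx hv
      rw [← hμ] at h2 h3
      refine ⟨?_, by omega, by omega⟩
      rintro rfl
      exact hx (g.injective hv))
  rw [← hμ] at hcl
  generalize Fintype.card V = n at *
  generalize S.d = D at *
  have hn0 : 0 < n := by omega
  have e1 : 64 * (n * μ) ≤ n * a := by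
    calc 64 * (n * μ) = n * (64 * μ) := by ring
      _ ≤ n * a := Nat.mul_le_mul_left _ h64μ
  have e2 : 64 * n ≤ n * a := by
    calc 64 * n = n * 64 := by ring
      _ ≤ n * a := Nat.mul_le_mul_left _ h64
  have e3 : 1000 * (K * D) ≤ n * a := by
    have h1 : K * (1000 * (K * D)) ≤ K * (n * a) := by
      calc K * (1000 * (K * D)) = 1000 * K ^ 2 * D := by ring
        _ ≤ n ^ 2 := hd
        _ = n * n := by ring
        _ ≤ n * (K * a) := Nat.mul_le_mul_left _ hna
        _ = K * (n * a) := by ring
    exact Nat.le_of_mul_le_mul_left h1 (by omega)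
  have e4 : 4 * n * μ = 4 * (n * μ) := by ring
  have e5 : 328 * K * D = 328 * (K * D) := by ring
  rw [e4, e5] at hcl
  omega

end Pool.Agent.SYT
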