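import Pool.Agent.SYT.Exc
import Pool.Agent.SYT.Mid

/-!
# SYT-NearS: a letter that differs from `f` at boundedly many states is `f`

Project SYT (MP_a3a126_co), paper proof in /team-store/a3a126_87.md, section 4 (3c), last case.
* `above`: `J = [α, β]`, `I` an interval with at least `e` elements, fewer than `e` of them in `J`, `u ∈ I`,
  `α + e ≤ u`, `α + 3 e ≤ β`. Suppose `t ∈ I`, `t + e ≤ β`. As `|I| ≥ e`, `I` contains some `s ∉ J`. If `s > β` then `I` contains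
  `[max α t, β]`, at least `e` elements of `J`. If `s < α` then `I` contains `[α, min u β]`, at least `e` elements of `J`.
* `near_small`: `D = {x : f x ≠ g x}`, suppose `x ∈ D`, `s = f⁻¹ g`, `a = |cyc f x| ≥ 64`, `e = a / 32 ≥ 2`. Apply `exc`
  with `z_j` from `middle` (choice), `Y = D \ {x}`, `T = D`. Given `j` (not defective, `z = z_j ∉ D`) suppose that for all
  `y ∈ Y`: `orb f (y, z) ≠ O_j`, `e ≤ |iv (orb f (y,z))|`, `|iv O_j ∩ iv (orb f (y, z))| < e`. For every `y` we have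
  `w y z ≤ w (f (s y)) (f z) + 1` (`g y = f (s y)`, `g z = f z`). Let `l ≥ 2` be minimal with `s^l x = x` (`s x ≠ x`).
  Claim for `1 ≤ i < l`: all `t ∈ iv (orb f (s^i x, z))` satisfy `β < t + e`. `i = 1`: `u = w (f (s x)) (f z) ≥ w x z - 1 ≥
  α + 3 e - 2 ≥ α + e` is in that interval, use `above`. `i → i+1 < l`: `w (s^i x) z > β - e`, so
  `u = w (f (s^(i+1) x)) (f z) ≥ β - e ≥ α + e`. At the end `w (f x) (f z) + 1 ≥ w (s^(l-1) x) z > β - e`, but
  `w (f x) (f z) + 3 e ≤ β`: contradiction (`e ≥ 1`). So `exc` gives (with `|D| < 1024 K²`)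
  `n a ≤ 4 n + 12 n |D| + (320 + 8 |D|) K d`, times `K`: `n² ≤ 12292 K³ n + 8512 K⁴ d`: contradiction.
-/

set_option autoImplicit false

open Finset

namespace Pool.Agent.SYT

theorem above {I : Finset ℕ} (hI : ∀ a ∈ I, ∀ b ∈ I, ∀ t, a ≤ t → t ≤ b → t ∈ I) {e u α β : ℕ}
    (h0 : 1 ≤ e) (he : e ≤ I.card) (hu : u ∈ I) (h1 : α + e ≤ u) (h2 : α + 3 * e ≤ β)
    {J : Finset ℕ} (hJ : ∀ t, t ∈ J ↔ α ≤ t ∧ t ≤ β) (hov : (J ∩ I).card < e) :
    ∀ t ∈ I, β < t + e := by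
  intro t ht
  by_contra hcon
  have hsub : ∀ p q, Finset.Icc p q ⊆ J ∩ I → q + 1 - p < e := by
    intro p q h
    have h3 := card_le_card h
    rw [Nat.card_Icc] at h3
    omega
  have hex : ∃ r ∈ I, r ∉ J := by
    by_contra h3
    push Not at h3
    have h4 : I ⊆ J ∩ I := fun r hr => mem_inter.2 ⟨h3 r hr, hr⟩
    have := card_le_card h4
    omega
  obtain ⟨r, hr, hrJ⟩ := hex
  rw [hJ] at hrJ
  by_cases hra : r < α
  · have h3 := hsub α (min u β) (fun v hv => by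
      rw [Finset.mem_Icc] at hv
      have h4 : v ≤ u := hv.2.trans (min_le_left _ _)
      have h5 : v ≤ β := hv.2.trans (min_le_right _ _)
      exact mem_inter.2 ⟨(hJ v).2 ⟨hv.1, h5⟩, hI r hr u hu v (by omega) h4⟩)
    rcases le_total u β with h4 | h4
    · rw [min_eq_left h4] at h3
      omega
    · rw [min_eq_right h4] at h3
      omega
  · have hrb : β < r := by
      by_contra h3
      exact hrJ ⟨by omega, by omega⟩
    have h3 := hsub (max α t) β (fun v hv => by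
      rw [Finset.mem_Icc] at hv
      have h4 : α ≤ v := (le_max_left _ _).trans hv.1
      have h5 : t ≤ v := (le_max_right _ _).trans hv.1
      exact mem_inter.2 ⟨(hJ v).2 ⟨h4, hv.2⟩, hI t ht r hr v h5 (by omega)⟩)
    rcases le_total α t with h4 | h4
    · rw [max_eq_right h4] at h3
      omega
    · rw [max_eq_left h4] at h3
      omega

variable {V : Type} [Fintype V] [DecidableEq V] (S : Sys V) {f : Equiv.Perm V}

private theorem nears_claim (hf : f ∈ S.P) {g : Equiv.Perm V} (hg : g ∈ S.P) {x z : V}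
    {e α β : ℕ} (h0 : 1 ≤ e) {O : Finset (V × V)} (hz : f z = g z)
    (hJ : ∀ t, t ∈ S.iv O ↔ α ≤ t ∧ t ≤ β) (h1 : α + 3 * e ≤ S.w x z + 1)
    (h2 : S.w x z + 3 * e ≤ β) (hx : f x ≠ g x)
    (hY : ∀ y, f y ≠ g y → y ≠ x → e ≤ (S.iv (orb f (y, z))).card ∧
      (S.iv O ∩ S.iv (orb f (y, z))).card < e) (s : Equiv.Perm V) (hs : s = f⁻¹ * g) (i : ℕ) :
    (∀ i', 1 ≤ i' → i' ≤ i + 1 → (s ^ i') x ≠ x) →
      ∀ t ∈ S.iv (orb f ((s ^ (i + 1)) x, z)), β < t + e := by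
  have hfs : ∀ y, f (s y) = g y := by
    intro y
    rw [hs, Equiv.Perm.mul_apply]; simp
  have hstep : ∀ y, S.w y z ≤ S.w (f (s y)) (f z) + 1 := by
    intro y
    rw [hfs, hz]
    exact S.step g hg y z
  have hD : ∀ y, f y ≠ g y → f (s y) ≠ g (s y) := by
    intro y hy h3
    rw [hfs] at h3
    have h4 : y = s y := g.injective h3
    apply hy
    conv_lhs => rw [h4]
    exact hfs y
  have hDi : ∀ i : ℕ, f ((s ^ i) x) ≠ g ((s ^ i) x) := by
    intro i
    induction i with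
    | zero => exact hx
    | succ i ih =>
      rw [pow_succ', Equiv.Perm.mul_apply]
      exact hD _ ih
  have hkey : ∀ y u, f y ≠ g y → y ≠ x → u ∈ S.iv (orb f (y, z)) → α + e ≤ u →
      ∀ t ∈ S.iv (orb f (y, z)), β < t + e := by
    intro y u hy hyx hu hau
    exact above (fun a ha b hb t h3 h4 => iv_interval S hf ha hb h3 h4) h0 (hY y hy hyx).1 hu hau
      (by omega) hJ (hY y hy hyx).2
  have hmem : ∀ y, S.w (f y) (f z) ∈ S.iv (orb f (y, z)) := by
    intro y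
    rw [mem_iv]
    exact ⟨mv f (y, z), (mv_mem_orb f).2 (self_mem_orb f _), rfl⟩
  have hmem0 : ∀ y, S.w y z ∈ S.iv (orb f (y, z)) := by
    intro y
    rw [mem_iv]
    exact ⟨(y, z), self_mem_orb f _, rfl⟩
  induction i with
  | zero =>
    intro hne
    have h3 := hstep x
    refine hkey _ (S.w (f ((s ^ (0 + 1)) x)) (f z)) (hDi _) (hne 1 le_rfl le_rfl) (hmem _) ?_
    rw [zero_add, pow_one]
    omega
  | succ i ih =>
    intro hne
    have h3 := ih (fun i' h4 h5 => hne i' h4 (by omega)) _ (hmem0 _)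
    have h4 := hstep ((s ^ (i + 1)) x)
    refine hkey _ (S.w (f ((s ^ (i + 1 + 1)) x)) (f z)) (hDi _) (hne _ (by omega) le_rfl) (hmem _) ?_
    have h5 : (s ^ (i + 1 + 1)) x = s ((s ^ (i + 1)) x) := by
      rw [pow_succ', Equiv.Perm.mul_apply]
    rw [h5]
    omega

private theorem nears_contra (hf : f ∈ S.P) {g : Equiv.Perm V} (hg : g ∈ S.P) {x z : V}
    {e α β : ℕ} (h0 : 1 ≤ e) {O : Finset (V × V)} (hz : f z = g z)
    (hJ : ∀ t, t ∈ S.iv O ↔ α ≤ t ∧ t ≤ β) (h1 : α + 3 * e ≤ S.w x z + 1)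
    (h2 : S.w x z + 3 * e ≤ β) (h3 : S.w (f x) (f z) + 3 * e ≤ β) (hx : f x ≠ g x)
    (hY : ∀ y, f y ≠ g y → y ≠ x → e ≤ (S.iv (orb f (y, z))).card ∧
      (S.iv O ∩ S.iv (orb f (y, z))).card < e) : False := by
  classical
  obtain ⟨s, hs⟩ : ∃ s : Equiv.Perm V, s = f⁻¹ * g := ⟨_, rfl⟩
  have hfs : ∀ y, f (s y) = g y := by
    intro y
    rw [hs, Equiv.Perm.mul_apply]; simp
  have hsx : s x ≠ x := by
    intro h4
    have h5 := hfs x
    rw [h4] at h5
    exact hx h5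
  have hex : ∃ l, 1 ≤ l ∧ (s ^ l) x = x := by
    refine ⟨orderOf s, orderOf_pos s, ?_⟩
    rw [pow_orderOf_eq_one, Equiv.Perm.one_apply]
  obtain ⟨hl1, hl2⟩ := Nat.find_spec hex
  have hmin := fun i' (h4 : i' < Nat.find hex) => Nat.find_min hex h4
  generalize Nat.find hex = l at hl1 hl2 hmin
  have hl3 : l ≠ 1 := by
    rintro rfl
    rw [pow_one] at hl2
    exact hsx hl2
  obtain ⟨i, rfl⟩ : ∃ i, l = i + 2 := ⟨l - 2, by omega⟩
  have h4 := nears_claim S hf hg h0 hz hJ h1 h2 hx hY s hs i (fun i' h5 h6 h7 =>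
    hmin i' (by omega) ⟨h5, h7⟩) (S.w ((s ^ (i + 1)) x) z) (by
      rw [mem_iv]
      exact ⟨((s ^ (i + 1)) x, z), self_mem_orb f _, rfl⟩)
  have h5 : S.w ((s ^ (i + 1)) x) z ≤ S.w (f x) (f z) + 1 := by
    have h6 := S.step g hg ((s ^ (i + 1)) x) z
    rw [← hfs, ← hz] at h6
    have h7 : s ((s ^ (i + 1)) x) = x := by
      rw [← Equiv.Perm.mul_apply, ← pow_succ']
      exact hl2
    rwa [h7] at h6
  omega

theorem near_small (hf : f ∈ S.P) {g : Equiv.Perm V} (hg : g ∈ S.P) {K : ℕ} (hK1 : 1 ≤ K)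
    (hK : ∀ x, Fintype.card V ≤ K * (cyc f x).card)
    (hD : (univ.filter fun x => f x ≠ g x).card < 1024 * K ^ 2)
    (hn : 40000 * K ^ 3 ≤ Fintype.card V) (hd : 20000 * K ^ 4 * S.d ≤ Fintype.card V ^ 2) :
    g = f := by
  classical
  by_contra hgf
  have hexx : ∃ x, f x ≠ g x := by
    by_contra h1
    push Not at h1
    exact hgf (Equiv.ext fun y => (h1 y).symm)
  obtain ⟨x, hx⟩ := hexx
  obtain ⟨a, ha⟩ : ∃ a, (cyc f x).card = a := ⟨_, rfl⟩
  obtain ⟨n, hnn⟩ : ∃ n, Fintype.card V = n := ⟨_, rfl⟩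
  have hna : n ≤ K * a := by
    rw [← hnn, ← ha]
    exact hK x
  rw [hnn] at hn hd
  have hK3 : 1 ≤ K ^ 2 := Nat.one_le_pow _ _ hK1
  have ha1 : 40000 * K ^ 2 ≤ a := by
    have h1 : K * (40000 * K ^ 2) ≤ K * a := by
      calc K * (40000 * K ^ 2) = 40000 * K ^ 3 := by ring
        _ ≤ n := hn
        _ ≤ K * a := hna
    exact Nat.le_of_mul_le_mul_left h1 hK1
  have h64 : 64 ≤ a := by omega
  obtain ⟨e, he⟩ : ∃ e, e = a / 32 := ⟨_, rfl⟩
  have he1 : 1 ≤ e := by omega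
  have hmid := fun j (h1 : a < 4 * j) (h2 : 2 * j < a)
    (h3 : a ≤ (S.iv (orb f (x, (f ^ j) x))).card + e) => middle S hf ha h64 he h1 h2 h3
  let z : ℕ → V := fun j => if h : a < 4 * j ∧ 2 * j < a ∧
    a ≤ (S.iv (orb f (x, (f ^ j) x))).card + e then (hmid j h.1 h.2.1 h.2.2).choose else x
  have hz : ∀ j (h1 : a < 4 * j) (h2 : 2 * j < a)
      (h3 : a ≤ (S.iv (orb f (x, (f ^ j) x))).card + e),
      (z j = (f ^ j) x ∨ z j = (f ^ (a - j)) x) ∧
      ∃ α β, (∀ t, t ∈ S.iv (orb f (x, (f ^ j) x)) ↔ α ≤ t ∧ t ≤ β) ∧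
        α + 3 * e ≤ S.w x (z j) + 1 ∧ S.w x (z j) + 3 * e ≤ β ∧
          S.w (f x) (f (z j)) + 3 * e ≤ β := by
    intro j h1 h2 h3
    have h4 : z j = (hmid j h1 h2 h3).choose := dif_pos ⟨h1, h2, h3⟩
    rw [h4]
    exact (hmid j h1 h2 h3).choose_spec
  have hexc := exc S hK ha h64 he (z := z)
    (Y := (univ.filter fun x => f x ≠ g x).erase x) (T := univ.filter fun x => f x ≠ g x)
    (notMem_erase _ _) (fun j h1 h2 h3 => (hz j h1 h2 h3).1) (by
      intro j h1 h2 h3 hzT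
      obtain ⟨-, α, β, hJ, h4, h5, h6⟩ := hz j h1 h2 h3
      have hzD : f (z j) = g (z j) := by
        by_contra h7
        exact hzT (mem_filter.2 ⟨mem_univ _, h7⟩)
      by_contra hcon
      push Not at hcon
      refine nears_contra S hf hg he1 hzD hJ h4 h5 h6 hx ?_
      intro y hy hyx
      have hyz : y ≠ z j := by
        intro h7
        rw [h7] at hy
        exact hy hzD
      obtain ⟨-, h8, h9⟩ := hcon y (mem_erase.2 ⟨hyx, mem_filter.2 ⟨mem_univ _, hy⟩⟩) hyz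
      exact ⟨h8, h9⟩)
  have hYD : ((univ.filter fun x => f x ≠ g x).erase x).card ≤ 1024 * K ^ 2 :=
    (card_erase_le).trans hD.le
  rw [hnn] at hexc
  generalize ((univ.filter fun x => f x ≠ g x).erase x).card = y at hexc hYD
  generalize (univ.filter fun x => f x ≠ g x).card = D at hexc hD
  generalize S.d = dd at hexc hd
  have h1 : n * n ≤ 4 * K ^ 3 * n + 4096 * K ^ 3 * n + 8192 * K ^ 3 * n +
      8512 * K ^ 4 * dd := by
    have e1 : n * n ≤ K * (n * a) := by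
      calc n * n ≤ n * (K * a) := Nat.mul_le_mul_left _ hna
        _ = K * (n * a) := by ring
    have e2 : K * (n * a) ≤ K * (4 * n + 4 * n * (1024 * K ^ 2) + 8 * n * (1024 * K ^ 2) +
        (320 + 8 * (1024 * K ^ 2)) * K * dd) := by
      refine Nat.mul_le_mul_left _ (hexc.trans ?_)
      gcongr
    have e3 : K * (4 * n + 4 * n * (1024 * K ^ 2) + 8 * n * (1024 * K ^ 2) +
        (320 + 8 * (1024 * K ^ 2)) * K * dd) = 4 * K * n + 4096 * K ^ 3 * n + 8192 * K ^ 3 * n +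
        (320 * K ^ 2 + 8192 * K ^ 4) * dd := by ring
    have e4 : K ≤ K ^ 3 := by
      calc K = K * 1 := (mul_one K).symm
        _ ≤ K * K ^ 2 := Nat.mul_le_mul_left _ hK3
        _ = K ^ 3 := by ring
    have e5 : K ^ 2 ≤ K ^ 4 := by
      calc K ^ 2 = K ^ 2 * 1 := (mul_one _).symm
        _ ≤ K ^ 2 * K ^ 2 := Nat.mul_le_mul_left _ hK3
        _ = K ^ 4 := by ring
    have e6 : 4 * K * n ≤ 4 * K ^ 3 * n := by gcongr
    have e7 : (320 * K ^ 2 + 8192 * K ^ 4) * dd ≤ 8512 * K ^ 4 * dd := by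
      refine Nat.mul_le_mul_right _ ?_
      omega
    omega
  have h2 : 40000 * K ^ 3 * n ≤ n * n := Nat.mul_le_mul_right _ hn
  have h3 : 1 ≤ n := by
    have : 1 ≤ K ^ 3 := Nat.one_le_pow _ _ hK1
    omega
  have h4 : 1 ≤ n * n := Nat.mul_pos h3 h3
  rw [pow_two] at hd
  generalize n * n = N at h1 h2 h4 hd
  have h5 : 40000 * K ^ 3 * n = 40000 * (K ^ 3 * n) := by ring
  have h6 : 20000 * K ^ 4 * dd = 20000 * (K ^ 4 * dd) := by ring
  have h7 : 4 * K ^ 3 * n + 4096 * K ^ 3 * n + 8192 * K ^ 3 * n + 8512 * K ^ 4 * dd =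
      12292 * (K ^ 3 * n) + 8512 * (K ^ 4 * dd) := by ring
  rw [h5] at h2
  rw [h6] at hd
  rw [h7] at h1
  generalize K ^ 3 * n = A at h1 h2
  generalize K ^ 4 * dd = B at h1 hd
  omega

end Pool.Agent.SYT
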