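import Pool.Agent.SYT.Defs
import Pool.Agent.WD.Count

/-!
# SYT-OfAut: the system of an automaton

Project SYT (MP_a3a126_co).
-/

set_option autoImplicit false

open Finset

namespace Pool.Agent.SYT

open Pool.Agent.WD

variable {V : Type} [Fintype V] [DecidableEq V]

/-- the bijective letters -/
def bij (Ω : Set (V → V)) : Set (V → V) := {f | f ∈ Ω ∧ Function.Bijective f}

theorem perm_of_word {Ω : Set (V → V)} {u : List (V → V)} (hu : Over (bij Ω) u) :
    ∃ γ ∈ Subgroup.closure {g : Equiv.Perm V | (g : V → V) ∈ Ω}, ∀ z, act u z = γ z := by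
  induction u with
  | nil => exact ⟨1, Subgroup.one_mem _, fun z => rfl⟩
  | cons f u ih =>
    rw [over_cons] at hu
    obtain ⟨γ, hγ, h⟩ := ih hu.2
    refine ⟨γ * Equiv.ofBijective f hu.1.2, Subgroup.mul_mem _ hγ
      (Subgroup.subset_closure hu.1.1), fun z => ?_⟩
    rw [act_cons, h]
    rfl

theorem over_bij {Ω : Set (V → V)} {u : List (V → V)} (hu : Over (bij Ω) u) : Over Ω u :=
  fun f hf => (hu f hf).1

variable [Nonempty V]

theorem row_aut {Ω : Set (V → V)} (hs : Sync Ω)
    (ht : ∀ x y, ∃ u, Over (bij Ω) u ∧ act u x = y) (x y : V) (t : ℕ) :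
    (univ.filter fun z => t + Fintype.card V ≤ lev Ω x z).card ≤
      (univ.filter fun z => t ≤ lev Ω y z).card := by
  obtain ⟨u, hu, hlen, hxy⟩ := reach (ht x y)
  obtain ⟨γ, _, hγ⟩ := perm_of_word hu
  refine card_le_card_of_injOn (fun z => act u z) ?_ ?_
  · intro z hz
    simp only [coe_filter, mem_univ, true_and, Set.mem_ofPred_eq] at hz ⊢
    have h := lev_word hs (over_bij hu) x z
    rw [hxy] at h
    omega
  · intro a _ b _ hab
    simp only [hγ] at hab
    exact γ.injective hab

/-- the system of levels of a synchronizing automaton with transitive permutation letters -/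
noncomputable def ofAut (Ω : Set (V → V)) (hs : Sync Ω)
    (ht : ∀ x y, ∃ u, Over (bij Ω) u ∧ act u x = y) : Sys V where
  w := lev Ω
  P := {g | (g : V → V) ∈ Ω}
  M := top Ω
  symm := lev_symm Ω
  self := lev_self Ω
  pos := fun x y h => Nat.pos_of_ne_zero fun h0 => h (lev_eq_zero hs h0)
  step := fun g hg x y => by
    have := lev_step hs hg x y
    omega
  le_M := lev_le_top Ω
  surj := fun t _ h => exists_prs hs h
  trans := fun x y => by
    obtain ⟨u, hu, hxy⟩ := ht x y
    obtain ⟨γ, h1, h2⟩ := perm_of_word hu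
    exact ⟨γ, h1, by rw [← h2]; exact hxy⟩
  row := row_aut hs ht

end Pool.Agent.SYT
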