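import Pool.Agent.SYT.Basic

/-! Closed sets under generators, unique minima, intervals (project SYT). -/

set_option autoImplicit false

open Finset

namespace Pool.Agent.SYT

variable {V : Type} [Fintype V] [DecidableEq V]

theorem closure_closed {P1 : Set (Equiv.Perm V)} {U : Finset (V × V)}
    (h : ∀ g ∈ P1, ∀ q ∈ U, mv g q ∈ U) {γ : Equiv.Perm V} (hγ : γ ∈ Subgroup.closure P1) :
    ∀ q ∈ U, mv γ q ∈ U := by
  induction hγ using Subgroup.closure_induction with
  | mem g hg => exact h g hg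
  | one => exact fun q hq => hq
  | mul g g' _ _ h1 h2 => exact fun q hq => h1 _ (h2 q hq)
  | inv g _ h1 =>
    intro q hq
    have h2 : U.image (mv g) = U :=
      eq_of_subset_of_card_le (fun x hx => by
        obtain ⟨y, hy, rfl⟩ := mem_image.1 hx
        exact h1 y hy) (by rw [card_image_of_injective _ (mv_injective g)])
    rw [← h2] at hq
    obtain ⟨y, hy, rfl⟩ := mem_image.1 hq
    rw [mv_inv_mv]
    exact hy

theorem closure_closed1 {P1 : Set (Equiv.Perm V)} {U : Finset V}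
    (h : ∀ g ∈ P1, ∀ x ∈ U, g x ∈ U) {γ : Equiv.Perm V} (hγ : γ ∈ Subgroup.closure P1) :
    ∀ x ∈ U, γ x ∈ U := by
  induction hγ using Subgroup.closure_induction with
  | mem g hg => exact h g hg
  | one => exact fun q hq => hq
  | mul g g' _ _ h1 h2 => exact fun q hq => h1 _ (h2 q hq)
  | inv g _ h1 =>
    intro q hq
    have h2 : U.image g = U :=
      eq_of_subset_of_card_le (fun x hx => by
        obtain ⟨y, hy, rfl⟩ := mem_image.1 hx
        exact h1 y hy) (by rw [card_image_of_injective _ g.injective])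
    rw [← h2] at hq
    obtain ⟨y, hy, rfl⟩ := mem_image.1 hq
    simpa using hy

variable (S : Sys V)

theorem unique_min {P1 : Set (Equiv.Perm V)} (h1 : P1 ⊆ S.P) {p : V × V} (hp : p.1 ≠ p.2)
    (hc : p ∉ S.Coll) (hn : ∀ g ∈ P1, S.wt p ≤ S.wt (mv g p)) {γ : Equiv.Perm V}
    (hγ : γ ∈ Subgroup.closure P1) :
    S.wt p < S.wt (mv γ p) ∨ mv γ p = p ∨ mv γ p = p.swap := by
  classical
  let U : Finset (V × V) := univ.filter fun q => (q.1 ≠ q.2 ∧ S.wt p < S.wt q) ∨ q = p ∨ q = p.swap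
  have key : ∀ q : V × V, q.1 ≠ q.2 → S.wt p ≤ S.wt q → q ∈ U := by
    intro q hq hw
    simp only [U, mem_filter, mem_univ, true_and]
    rcases hw.lt_or_eq with h | h
    · exact Or.inl ⟨hq, h⟩
    · exact Or.inr (single S hp hc hq h.symm)
  have hU : ∀ g ∈ P1, ∀ q ∈ U, mv g q ∈ U := by
    intro g hg q hq
    simp only [U, mem_filter, mem_univ, true_and] at hq
    rcases hq with ⟨h2, h3⟩ | rfl | rfl
    · refine key _ (mv_off.2 h2) ?_
      have := wt_step S (h1 hg) q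
      omega
    · exact key _ (mv_off.2 hp) (hn g hg)
    · rw [mv_swap]
      refine key _ ?_ ?_
      · exact fun h => (mv_off.2 hp) h.symm
      · rw [wt_swap]
        exact hn g hg
  have h4 := closure_closed hU hγ p (by simp [U])
  simp only [U, mem_filter, mem_univ, true_and] at h4
  rcases h4 with ⟨_, h4⟩ | h4
  · exact Or.inl h4
  · exact Or.inr h4

private theorem orbInt_aux {P1 : Set (Equiv.Perm V)} (h1 : P1 ⊆ S.P) {p : V × V} {t : ℕ}
    (hcon : ∀ γ' ∈ Subgroup.closure P1, S.wt (mv γ' p) ≠ t) (γ : Equiv.Perm V)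
    (hγ : γ ∈ Subgroup.closure P1) (ht : t < S.wt (mv γ p)) (δ : Equiv.Perm V)
    (hδ : δ ∈ Subgroup.closure P1) : t < S.wt (mv δ (mv γ p)) := by
  classical
  let U : Finset (V × V) := univ.filter fun q => (∃ γ' ∈ Subgroup.closure P1, mv γ' p = q) ∧
    t < S.wt q
  have hU : ∀ g ∈ P1, ∀ q ∈ U, mv g q ∈ U := by
    intro g hg q hq
    simp only [U, mem_filter, mem_univ, true_and] at hq ⊢
    obtain ⟨⟨γ', h2, rfl⟩, h3⟩ := hq
    have h5 : g * γ' ∈ Subgroup.closure P1 := mul_mem (Subgroup.subset_closure hg) h2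
    refine ⟨⟨g * γ', h5, mv_mul _ _ _⟩, ?_⟩
    have h4 := wt_step S (h1 hg) (mv γ' p)
    have h6 := hcon _ h5
    rw [mv_mul] at h6
    omega
  have h2 := closure_closed hU hδ (mv γ p) (by
    simp only [U, mem_filter, mem_univ, true_and]
    exact ⟨⟨γ, hγ, rfl⟩, ht⟩)
  simp only [U, mem_filter, mem_univ, true_and] at h2
  exact h2.2

theorem interval_up {P1 : Set (Equiv.Perm V)} (h1 : P1 ⊆ S.P) {p : V × V} {γ : Equiv.Perm V}
    (hγ : γ ∈ Subgroup.closure P1) {t : ℕ} (ha : S.wt p ≤ t) (hb : t ≤ S.wt (mv γ p)) :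
    ∃ γ' ∈ Subgroup.closure P1, S.wt (mv γ' p) = t := by
  by_contra hcon
  push Not at hcon
  have h2 : t ≠ S.wt p := fun h => hcon 1 (one_mem _) (by rw [mv_one, h])
  have h3 : t ≠ S.wt (mv γ p) := fun h => hcon γ hγ h.symm
  have h4 := orbInt_aux S h1 hcon γ hγ (by omega) γ⁻¹ (inv_mem hγ)
  rw [mv_inv_mv] at h4
  omega

theorem interval_down {P1 : Set (Equiv.Perm V)} (h1 : P1 ⊆ S.P) {p : V × V} {γ : Equiv.Perm V}
    (hγ : γ ∈ Subgroup.closure P1) {t : ℕ} (ha : S.wt (mv γ p) ≤ t) (hb : t ≤ S.wt p) :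
    ∃ γ' ∈ Subgroup.closure P1, S.wt (mv γ' p) = t := by
  by_contra hcon
  push Not at hcon
  have h2 : t ≠ S.wt p := fun h => hcon 1 (one_mem _) (by rw [mv_one, h])
  have h4 := orbInt_aux S h1 hcon 1 (one_mem _) (by rw [mv_one]; omega) γ hγ
  rw [mv_one] at h4
  omega

end Pool.Agent.SYT
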