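import Pool.Agent.SYT.OrbI

/-!
# SYT-OrbC: sizes and multiplicities of orbits of pairs

Project SYT (MP_a3a126_co), paper proof in /team-store/a3a126_87.md, section 4 (L5), (EXC).
* `card_orb_mid`: for `0 < j`, `2 j < a` the `2 a` pairs `(y, f^j y)`, `(f^j y, y)`, `y ∈ cyc f x`, are distinct
  (`(y, f^j y) = (f^j y', y')` would give `f^(2j) y' = y'`, `0 < 2 j < a`).
* `cyc_le_orb`: the pairs `mv (f ^ i) p`, `i < |cyc f p.1|`, have distinct first states; the swap gives `p.2`.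
* `mult`: `#{z : (y', z) ∈ O}` is the same for all `y' ∈ cyc f y`, and their sum is at most `|O|`.
* `small_iv`: for `z ∈ Zs` the orbit `O'` of `(y, z)` has `|O'| ≥ |cyc f z| = |cyc f x| ≥ 32 e > 32 |iv O'|`
  (or `e = 0`, then `Zs` is empty), so
  `|O'| ≤ 2 (|O'| - 2 |iv O'|)`. `|Zs| |cyc f y| ≤ ∑_{O' bad} #{z : (y,z) ∈ O'} |cyc f y| ≤ ∑ |O'| ≤ 2 d` (`mult`,
  `sum_defect`).
* `same_orb`: the elements of `orb f (x, f^j x)` with second state `z` are `(f^j z, z)` and `(f^(a-j) z, z)`. For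
  `z = z_j = f^j x` or `f^(a-j) x` and `y ≠ x` this gives `y = f^(2j) x` or `y = f^(a-2j) x`; as `a/2 < 2 j < a`, the
  state `y` determines `j` in each of the two cases (`pow_inj`).
* `pos_inj`: the sets `{f^j x, f^(a-j) x}` are disjoint for distinct `j` in `(a/4, a/2)`.
-/

set_option autoImplicit false

open Finset

namespace Pool.Agent.SYT

variable {V : Type} [Fintype V] [DecidableEq V] {f : Equiv.Perm V}

private theorem oc_card {x y : V} {i : ℕ} (h : (f ^ i) x = y) : (cyc f y).card = (cyc f x).card := by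
  rw [← h, cyc_pow]

private theorem oc_pow_add (i j : ℕ) (x : V) : (f ^ (i + j)) x = (f ^ i) ((f ^ j) x) := by
  rw [pow_add, Equiv.Perm.mul_apply]

private theorem oc_ne {x : V} {k : ℕ} (h0 : 0 < k) (hk : k < (cyc f x).card) :
    (f ^ k) x ≠ x := by
  intro h
  have h1 : (f ^ k) x = (f ^ 0) x := by rw [pow_zero, Equiv.Perm.one_apply]; exact h
  have := pow_inj f hk (cyc_pos f x) h1
  omega

theorem card_orb_mid {x : V} {a j : ℕ} (ha : (cyc f x).card = a) (hj : 0 < j) (hj2 : 2 * j < a) :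
    (orb f (x, (f ^ j) x)).card = 2 * a := by
  have hA : ((cyc f x).image fun y => (y, (f ^ j) y)).card = a := by
    rw [card_image_of_injective _ (fun y y' h => (Prod.ext_iff.1 h).1), ha]
  have hB : ((cyc f x).image fun y => ((f ^ j) y, y)).card = a := by
    rw [card_image_of_injective _ (fun y y' h => (Prod.ext_iff.1 h).2), ha]
  have hd : Disjoint ((cyc f x).image fun y => (y, (f ^ j) y))
      ((cyc f x).image fun y => ((f ^ j) y, y)) := by
    rw [disjoint_left]
    intro p hp hp'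
    obtain ⟨y, hy, rfl⟩ := mem_image.1 hp
    obtain ⟨y', hy', h⟩ := mem_image.1 hp'
    obtain ⟨h1, h2⟩ := Prod.ext_iff.1 h
    simp only at h1 h2
    obtain ⟨i, hi⟩ := (mem_cyc f).1 hy'
    have h3 : (f ^ (2 * j)) y' = y' := by
      rw [two_mul, oc_pow_add, h1, ← h2]
    exact oc_ne (f := f) (x := y') (k := 2 * j) (by omega) (by rw [oc_card hi, ha]; exact hj2) h3
  have hU : orb f (x, (f ^ j) x) = ((cyc f x).image fun y => (y, (f ^ j) y)) ∪
      ((cyc f x).image fun y => ((f ^ j) y, y)) := by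
    ext q
    rw [mem_orb, mem_union, mem_image, mem_image]
    have hc : ∀ i : ℕ, (f ^ i) ((f ^ j) x) = (f ^ j) ((f ^ i) x) := by
      intro i
      rw [← oc_pow_add, ← oc_pow_add, add_comm]
    constructor
    · rintro ⟨i, rfl | rfl⟩
      · left
        exact ⟨(f ^ i) x, (mem_cyc f).2 ⟨i, rfl⟩, Prod.ext rfl (hc i).symm⟩
      · right
        exact ⟨(f ^ i) x, (mem_cyc f).2 ⟨i, rfl⟩, Prod.ext (hc i).symm rfl⟩
    · rintro (⟨y, hy, rfl⟩ | ⟨y, hy, rfl⟩)
      · obtain ⟨i, rfl⟩ := (mem_cyc f).1 hy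
        exact ⟨i, Or.inl (Prod.ext rfl (hc i).symm)⟩
      · obtain ⟨i, rfl⟩ := (mem_cyc f).1 hy
        exact ⟨i, Or.inr (Prod.ext (hc i).symm rfl)⟩
  rw [hU, card_union_of_disjoint hd, hA, hB]
  omega

theorem cyc_le_orb {p : V × V} (hp : p.1 ≠ p.2) :
    (cyc f p.1).card ≤ (orb f p).card ∧ (cyc f p.2).card ≤ (orb f p).card := by
  constructor
  · refine le_trans (card_le_card ?_) (card_image_le (s := orb f p) (f := Prod.fst))
    intro y hy
    obtain ⟨i, rfl⟩ := (mem_cyc f).1 hy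
    exact mem_image.2 ⟨mv (f ^ i) p, (mem_orb f).2 ⟨i, Or.inl rfl⟩, rfl⟩
  · refine le_trans (card_le_card ?_) (card_image_le (s := orb f p) (f := Prod.snd))
    intro y hy
    obtain ⟨i, rfl⟩ := (mem_cyc f).1 hy
    exact mem_image.2 ⟨mv (f ^ i) p, (mem_orb f).2 ⟨i, Or.inl rfl⟩, rfl⟩

theorem mult {O : Finset (V × V)} (hO : O ∈ orbs f) (y : V) :
    (univ.filter fun z => (y, z) ∈ O).card * (cyc f y).card ≤ O.card := by
  classical
  have hex : ∀ y' ∈ cyc f y, ∃ i : ℕ, (f ^ i) y = y' := fun y' h => (mem_cyc f).1 h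
  choose! idx hidx using hex
  rw [← card_product]
  refine card_le_card_of_injOn (fun r => mv (f ^ idx r.2) (y, r.1)) ?_ ?_
  · rintro ⟨z, y'⟩ hr
    rw [mem_coe, mem_product, mem_filter] at hr
    obtain ⟨⟨-, hz⟩, hy'⟩ := hr
    rw [eq_orb f hO hz]
    exact mem_coe.2 ((mem_orb f).2 ⟨idx y', Or.inl rfl⟩)
  · rintro ⟨z, y'⟩ hr ⟨z2, y2⟩ hr2 h
    rw [mem_coe, mem_product] at hr hr2
    obtain ⟨h1, h2⟩ := Prod.ext_iff.1 h
    simp only [mv] at h1 h2
    have e1 : (f ^ idx y') y = y' := hidx y' hr.2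
    have e2 : (f ^ idx y2) y = y2 := hidx y2 hr2.2
    have e3 : y' = y2 := by rw [← e1, ← e2]; exact h1
    subst e3
    exact Prod.ext ((f ^ idx y').injective h2) rfl

theorem pos_inj {x : V} {a : ℕ} (ha : (cyc f x).card = a) {j j' : ℕ} {z : V} (hj1 : 0 < j)
    (hj2 : 2 * j < a) (hj1' : 0 < j') (hj2' : 2 * j' < a)
    (h : z = (f ^ j) x ∨ z = (f ^ (a - j)) x) (h' : z = (f ^ j') x ∨ z = (f ^ (a - j')) x) :
    j = j' := by
  have key : ∀ u v : ℕ, u < a → v < a → (f ^ u) x = (f ^ v) x → u = v := fun u v hu hv h =>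
    pow_inj f (by rw [ha]; exact hu) (by rw [ha]; exact hv) h
  rcases h with h | h <;> rcases h' with h' | h' <;> rw [h] at h'
  · exact key _ _ (by omega) (by omega) h'
  · have := key _ _ (by omega) (by omega) h'
    omega
  · have := key _ _ (by omega) (by omega) h'
    omega
  · have := key _ _ (by omega) (by omega) h'
    omega

theorem orb_inj {x : V} {a : ℕ} (ha : (cyc f x).card = a) {j j' : ℕ} (hj1 : 0 < j)
    (hj2 : 2 * j < a) (hj1' : 0 < j') (hj2' : 2 * j' < a)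
    (h : orb f (x, (f ^ j) x) = orb f (x, (f ^ j') x)) : j = j' := by
  have key : ∀ u v : ℕ, u < a → v < a → (f ^ u) x = (f ^ v) x → u = v := fun u v hu hv h =>
    pow_inj f (by rw [ha]; exact hu) (by rw [ha]; exact hv) h
  have h1 : (x, (f ^ j) x) ∈ orb f (x, (f ^ j') x) := by
    rw [← h]
    exact self_mem_orb f _
  obtain ⟨i, hi | hi⟩ := (mem_orb f).1 h1
  · obtain ⟨e1, e2⟩ := Prod.ext_iff.1 hi
    simp only [mv] at e1 e2
    have e3 : (f ^ i) ((f ^ j') x) = (f ^ j') x := by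
      rw [← oc_pow_add, add_comm, oc_pow_add, ← e1]
    exact key _ _ (by omega) (by omega) (e2.trans e3)
  · obtain ⟨e1, e2⟩ := Prod.ext_iff.1 hi
    simp only [mv, Prod.swap, Prod.fst, Prod.snd] at e1 e2
    have e3 : (f ^ (j' + j)) x = x := by
      rw [oc_pow_add, e2, ← oc_pow_add, add_comm, oc_pow_add, ← e1]
    exact absurd e3 (oc_ne (f := f) (by omega) (by rw [ha]; omega))

theorem same_orb {x y : V} (hxy : y ≠ x) {a : ℕ} (ha : (cyc f x).card = a) {J : Finset ℕ}
    {z : ℕ → V} (hJ : ∀ j ∈ J, a < 4 * j ∧ 2 * j < a ∧ (z j = (f ^ j) x ∨ z j = (f ^ (a - j)) x) ∧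
      (y, z j) ∈ orb f (x, (f ^ j) x)) : J.card ≤ 2 := by
  classical
  have hfa : (f ^ a) x = x := by rw [← ha]; exact pow_card f x
  have main : ∀ j ∈ J, (f ^ (2 * j)) x = y ∨ (f ^ (2 * j)) y = x := by
    intro j hj
    obtain ⟨h1, h2, h3, h4⟩ := hJ j hj
    obtain ⟨i, hi | hi⟩ := (mem_orb f).1 h4
    · obtain ⟨e1, e2⟩ := Prod.ext_iff.1 hi
      simp only [mv] at e1 e2
      right
      rcases h3 with h3 | h3
      · exfalso
        rw [h3, ← oc_pow_add, add_comm, oc_pow_add, ← e1] at e2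
        exact hxy ((f ^ j).injective e2).symm
      · rw [e1, two_mul, oc_pow_add]
        have e4 : (f ^ j) ((f ^ i) x) = z j := by
          rw [e2, ← oc_pow_add, ← oc_pow_add, add_comm]
        rw [e4, h3, ← oc_pow_add]
        have e5 : j + (a - j) = a := by omega
        rw [e5, hfa]
    · obtain ⟨e1, e2⟩ := Prod.ext_iff.1 hi
      simp only [mv, Prod.swap, Prod.fst, Prod.snd] at e1 e2
      left
      have e4 : y = (f ^ j) (z j) := by
        rw [e1, e2, ← oc_pow_add, ← oc_pow_add, add_comm]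
      rcases h3 with h3 | h3
      · rw [e4, h3, ← oc_pow_add, two_mul]
      · exfalso
        rw [h3, ← oc_pow_add] at e4
        have e5 : j + (a - j) = a := by omega
        rw [e5, hfa] at e4
        exact hxy e4
  have hsub : J ⊆ (J.filter fun j => (f ^ (2 * j)) x = y) ∪
      (J.filter fun j => (f ^ (2 * j)) y = x) := by
    intro j hj
    rw [mem_union, mem_filter, mem_filter]
    rcases main j hj with h | h
    · exact Or.inl ⟨hj, h⟩
    · exact Or.inr ⟨hj, h⟩
  have hc1 : (J.filter fun j => (f ^ (2 * j)) x = y).card ≤ 1 := by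
    rw [card_le_one]
    intro j hj j' hj'
    rw [mem_filter] at hj hj'
    have b1 := (hJ j hj.1).2.1
    have b2 := (hJ j' hj'.1).2.1
    have := pow_inj f (by rw [ha]; exact b1) (by rw [ha]; exact b2) (hj.2.trans hj'.2.symm)
    omega
  have hc2 : (J.filter fun j => (f ^ (2 * j)) y = x).card ≤ 1 := by
    rw [card_le_one]
    intro j hj j' hj'
    rw [mem_filter] at hj hj'
    have b1 := (hJ j hj.1).2.1
    have b2 := (hJ j' hj'.1).2.1
    have hay : (cyc f y).card = a := by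
      rw [← ha, ← oc_card hj.2]
    have := pow_inj f (by rw [hay]; exact b1) (by rw [hay]; exact b2) (hj.2.trans hj'.2.symm)
    omega
  have h3 := card_le_card hsub
  have h4 := card_union_le (J.filter fun j => (f ^ (2 * j)) x = y)
    (J.filter fun j => (f ^ (2 * j)) y = x)
  omega

variable (S : Sys V)

theorem small_iv {x y : V} {e : ℕ} (he : 32 * e ≤ (cyc f x).card) {Zs : Finset V}
    (hZ : ∀ z ∈ Zs, z ∈ cyc f x ∧ y ≠ z ∧ (S.iv (orb f (y, z))).card < e) :
    Zs.card * (cyc f y).card ≤ 2 * S.d := by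
  classical
  set B : Finset (Finset (V × V)) := Zs.image fun z => orb f (y, z) with hB
  have hBs : B ⊆ orbs f := by
    intro O hO
    obtain ⟨z, hz, rfl⟩ := mem_image.1 hO
    exact orb_mem_orbs f (hZ z hz).2.1
  have h1 : Zs.card ≤ ∑ O ∈ B, (univ.filter fun z => (y, z) ∈ O).card := by
    refine le_trans (card_le_card (t := B.biUnion fun O => univ.filter fun z => (y, z) ∈ O) ?_)
      card_biUnion_le
    intro z hz
    rw [mem_biUnion]
    exact ⟨orb f (y, z), mem_image.2 ⟨z, hz, rfl⟩,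
      mem_filter.2 ⟨mem_univ _, self_mem_orb f _⟩⟩
  have h2 : ∀ O ∈ B, O.card ≤ 2 * (O.card - 2 * (S.iv O).card) := by
    intro O hO
    obtain ⟨z, hz, rfl⟩ := mem_image.1 hO
    obtain ⟨a1, a2, a3⟩ := hZ z hz
    obtain ⟨i, hi⟩ := (mem_cyc f).1 a1
    have a4 := (cyc_le_orb (f := f) (p := (y, z)) a2).2
    have a5 : (cyc f z).card = (cyc f x).card := oc_card hi
    simp only at a4
    omega
  calc Zs.card * (cyc f y).card
      ≤ (∑ O ∈ B, (univ.filter fun z => (y, z) ∈ O).card) * (cyc f y).card :=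
        Nat.mul_le_mul_right _ h1
    _ = ∑ O ∈ B, (univ.filter fun z => (y, z) ∈ O).card * (cyc f y).card := sum_mul _ _ _
    _ ≤ ∑ O ∈ B, O.card := sum_le_sum fun O hO => mult (hBs hO) y
    _ ≤ ∑ O ∈ B, 2 * (O.card - 2 * (S.iv O).card) := sum_le_sum h2
    _ = 2 * ∑ O ∈ B, (O.card - 2 * (S.iv O).card) := (mul_sum _ _ _).symm
    _ ≤ 2 * ∑ O ∈ orbs f, (O.card - 2 * (S.iv O).card) :=
        Nat.mul_le_mul_left _ (sum_le_sum_of_subset hBs)
    _ ≤ 2 * S.d := Nat.mul_le_mul_left _ (sum_defect S)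

end Pool.Agent.SYT
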