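import Pool.Agent.SYT.OrbS

/-!
# SYT-OrbI: the intervals of levels of the orbits of pairs

Project SYT (MP_a3a126_co), paper proof in /team-store/a3a126_87.md, section 4 (ORBITS). `S.iv O` = set of the
levels of the pairs in `O`.
* `iv_interval`: `interval_up`/`interval_down` with `P1 = {f}` (`closure {f}` = powers; swap does not change levels), or
  directly along the walk `mv (f ^ i) p`.
* `two_iv_le`: every level of the orbit is attained by `q` and `q.swap`, `q ≠ q.swap`.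
* `sum_defect`: `∑ |O| = n (n-1)`, and every `t ∈ [1, M]` is in some `S.iv O`, so `∑ |S.iv O| ≥ M`; with `two_iv_le`
  `∑ (|O| - 2 |S.iv O|) = n (n-1) - 2 ∑ |S.iv O| ≤ d`.
* `sum_overlap`: `c_t` = number of `O ∈ orbs f` with `t ∈ S.iv O`, `1 ≤ c_t` for `t ∈ [1, M]`;
  `∑_{O ∈ 𝒪} |S.iv O ∩ S.iv (O' O)| ≤ ∑_{t : c_t ≥ 2} c_t ≤ 2 ∑_t (c_t - 1) = 2 (∑ |S.iv O| - M) ≤ n (n-1) - 2 M = d`
  (all levels of pairs of distinct states are in `[1, M]`).
-/

set_option autoImplicit false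

open Finset

namespace Pool.Agent.SYT

variable {V : Type} [Fintype V] [DecidableEq V] (S : Sys V) {f : Equiv.Perm V}

theorem mem_iv {O : Finset (V × V)} {t : ℕ} : t ∈ S.iv O ↔ ∃ q ∈ O, S.wt q = t := by
  simp [Sys.iv]

private theorem obi_ne {O : Finset (V × V)} (hO : O ∈ orbs f) {q : V × V} (hq : q ∈ O) :
    q.1 ≠ q.2 := by
  obtain ⟨p, hp, rfl⟩ := exists_orb f hO
  exact mem_off.1 (orb_sub_off f hp hq)

private theorem obi_sub {O : Finset (V × V)} (hO : O ∈ orbs f) : S.iv O ⊆ Icc 1 S.M := by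
  intro t ht
  obtain ⟨q, hq, rfl⟩ := (mem_iv S).1 ht
  exact mem_Icc.2 ⟨wt_pos S (obi_ne hO hq), wt_le S q⟩

private theorem obi_ex {t : ℕ} (ht : t ∈ Icc 1 S.M) : ∃ O ∈ orbs f, t ∈ S.iv O := by
  rw [mem_Icc] at ht
  obtain ⟨x, y, h⟩ := S.surj t ht.1 ht.2
  have hxy : (x, y).1 ≠ (x, y).2 := by
    intro hxy
    have h1 : x = y := hxy
    rw [h1, S.self] at h
    omega
  exact ⟨orb f (x, y), orb_mem_orbs f hxy, (mem_iv S).2 ⟨(x, y), self_mem_orb f _, h⟩⟩

theorem iv_interval (hf : f ∈ S.P) {p : V × V} {a b t : ℕ} (ha : a ∈ S.iv (orb f p))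
    (hb : b ∈ S.iv (orb f p)) (h1 : a ≤ t) (h2 : t ≤ b) : t ∈ S.iv (orb f p) := by
  obtain ⟨q, hq, hqa⟩ := (mem_iv S).1 ha
  obtain ⟨q', hq', hqb⟩ := (mem_iv S).1 hb
  rw [← orb_eq f hq] at hq'
  obtain ⟨i, hi⟩ := (mem_orb f).1 hq'
  have hw : S.wt (mv (f ^ i) q) = S.wt q' := by
    rcases hi with hi | hi
    · rw [hi]
    · rw [hi, wt_swap]
  have hsub : ({f} : Set (Equiv.Perm V)) ⊆ S.P := by
    intro g hg
    rw [Set.mem_singleton_iff.1 hg]
    exact hf
  have hfi : f ^ i ∈ Subgroup.closure ({f} : Set (Equiv.Perm V)) :=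
    pow_mem (Subgroup.subset_closure (Set.mem_singleton f)) i
  obtain ⟨γ, hγ, hγt⟩ := interval_up S hsub hfi (t := t) (by rw [hqa]; exact h1)
    (by rw [hw, hqb]; exact h2)
  refine (mem_iv S).2 ⟨mv γ q, ?_, hγt⟩
  refine closure_closed (U := orb f p) ?_ hγ q hq
  intro g hg r hr
  rw [Set.mem_singleton_iff.1 hg]
  exact (mv_mem_orb f).2 hr

theorem iv_bounds (hf : f ∈ S.P) (p : V × V) :
    ∃ α β, α ≤ β ∧ (∀ t, t ∈ S.iv (orb f p) ↔ α ≤ t ∧ t ≤ β) ∧
      (S.iv (orb f p)).card = β + 1 - α := by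
  have hne : (S.iv (orb f p)).Nonempty := ⟨S.wt p, (mem_iv S).2 ⟨p, self_mem_orb f p, rfl⟩⟩
  refine ⟨(S.iv (orb f p)).min' hne, (S.iv (orb f p)).max' hne,
    min'_le _ _ (max'_mem _ hne), ?_, ?_⟩
  · intro t
    constructor
    · intro ht
      exact ⟨min'_le _ _ ht, le_max' _ _ ht⟩
    · rintro ⟨h1, h2⟩
      exact iv_interval S hf (min'_mem _ hne) (max'_mem _ hne) h1 h2
  · have h : S.iv (orb f p) = Icc ((S.iv (orb f p)).min' hne) ((S.iv (orb f p)).max' hne) := by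
      ext t
      rw [mem_Icc]
      constructor
      · intro ht
        exact ⟨min'_le _ _ ht, le_max' _ _ ht⟩
      · rintro ⟨h1, h2⟩
        exact iv_interval S hf (min'_mem _ hne) (max'_mem _ hne) h1 h2
    have h1 := congrArg Finset.card h
    rw [Nat.card_Icc] at h1
    exact h1

theorem two_iv_le {O : Finset (V × V)} (hO : O ∈ orbs f) : 2 * (S.iv O).card ≤ O.card := by
  have h1 : O.card = ∑ t ∈ S.iv O, (O.filter fun q => S.wt q = t).card :=
    card_eq_sum_card_image S.wt O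
  have h2 : ∑ t ∈ S.iv O, 2 ≤ ∑ t ∈ S.iv O, (O.filter fun q => S.wt q = t).card := by
    refine sum_le_sum fun t ht => ?_
    obtain ⟨q, hq, hqt⟩ := (mem_iv S).1 ht
    have hne := obi_ne hO hq
    have hsw : q.swap ∈ O := by
      have h3 := eq_orb f hO hq
      rw [h3]
      exact (swap_mem_orb f).2 (self_mem_orb f q)
    have h4 : q ≠ q.swap := fun h => hne (congrArg Prod.fst h)
    rw [← card_pair h4]
    refine card_le_card fun r hr => ?_
    rw [mem_insert, mem_singleton] at hr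
    rcases hr with rfl | rfl
    · exact mem_filter.2 ⟨hq, hqt⟩
    · exact mem_filter.2 ⟨hsw, by rw [wt_swap]; exact hqt⟩
  rw [sum_const, smul_eq_mul] at h2
  omega

theorem sum_iv : S.M ≤ ∑ O ∈ orbs f, (S.iv O).card := by
  have h1 : Icc 1 S.M ⊆ (orbs f).biUnion S.iv := by
    intro t ht
    obtain ⟨O, hO, hO'⟩ := obi_ex (f := f) S ht
    exact mem_biUnion.2 ⟨O, hO, hO'⟩
  have h2 := (card_le_card h1).trans card_biUnion_le
  rw [Nat.card_Icc] at h2
  omega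

theorem sum_defect : ∑ O ∈ orbs f, (O.card - 2 * (S.iv O).card) ≤ S.d := by
  have h1 : ∑ O ∈ orbs f, (O.card - 2 * (S.iv O).card) + ∑ O ∈ orbs f, 2 * (S.iv O).card =
      ∑ O ∈ orbs f, O.card := by
    rw [← sum_add_distrib]
    refine sum_congr rfl fun O hO => ?_
    have := two_iv_le S hO
    omega
  rw [sum_card_orbs, ← two_M_add S, ← mul_sum] at h1
  have h2 := sum_iv (f := f) S
  omega

theorem sum_overlap {𝒪 : Finset (Finset (V × V))} (h𝒪 : 𝒪 ⊆ orbs f)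
    (O' : Finset (V × V) → Finset (V × V)) (h : ∀ O ∈ 𝒪, O' O ∈ orbs f ∧ O' O ≠ O) :
    ∑ O ∈ 𝒪, (S.iv O ∩ S.iv (O' O)).card ≤ S.d := by
  set c : ℕ → ℕ := fun t => ((orbs f).filter fun O => t ∈ S.iv O).card with hc
  have h1 : ∑ t ∈ Icc 1 S.M, c t = ∑ O ∈ orbs f, (S.iv O).card := by
    simp only [hc, card_filter]
    rw [sum_comm]
    refine sum_congr rfl fun O hO => ?_
    rw [← card_filter, filter_mem_eq_inter, inter_eq_right.2 (obi_sub S hO)]
  have h2 : ∑ O ∈ 𝒪, (S.iv O ∩ S.iv (O' O)).card =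
      ∑ t ∈ Icc 1 S.M, (𝒪.filter fun O => t ∈ S.iv O ∩ S.iv (O' O)).card := by
    simp only [card_filter]
    rw [sum_comm]
    refine sum_congr rfl fun O hO => ?_
    rw [← card_filter, filter_mem_eq_inter,
      inter_eq_right.2 (inter_subset_left.trans (obi_sub S (h𝒪 hO)))]
  have hc1 : ∀ t ∈ Icc 1 S.M, 1 ≤ c t := by
    intro t ht
    obtain ⟨O, hO, hO'⟩ := obi_ex (f := f) S ht
    exact card_pos.2 ⟨O, mem_filter.2 ⟨hO, hO'⟩⟩
  have h3 : ∀ t ∈ Icc 1 S.M, (𝒪.filter fun O => t ∈ S.iv O ∩ S.iv (O' O)).card ≤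
      2 * (c t - 1) := by
    intro t _
    rcases (𝒪.filter fun O => t ∈ S.iv O ∩ S.iv (O' O)).eq_empty_or_nonempty with h4 | ⟨O, h4⟩
    · rw [h4, card_empty]
      exact Nat.zero_le _
    · have h5 : (𝒪.filter fun O => t ∈ S.iv O ∩ S.iv (O' O)).card ≤ c t := by
        refine card_le_card fun P hP => ?_
        rw [mem_filter] at hP
        exact mem_filter.2 ⟨h𝒪 hP.1, (mem_inter.1 hP.2).1⟩
      have h6 : 2 ≤ c t := by
        rw [mem_filter] at h4
        have h7 := h O h4.1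
        rw [← card_pair h7.2]
        refine card_le_card fun P hP => ?_
        rw [mem_insert, mem_singleton] at hP
        rcases hP with rfl | rfl
        · exact mem_filter.2 ⟨h7.1, (mem_inter.1 h4.2).2⟩
        · exact mem_filter.2 ⟨h𝒪 h4.1, (mem_inter.1 h4.2).1⟩
      omega
  rw [h2]
  refine (sum_le_sum h3).trans ?_
  have h4 : ∑ t ∈ Icc 1 S.M, 2 * (c t - 1) + ∑ t ∈ Icc 1 S.M, 2 = ∑ t ∈ Icc 1 S.M, 2 * c t := by
    rw [← sum_add_distrib]
    refine sum_congr rfl fun t ht => ?_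
    have := hc1 t ht
    omega
  rw [sum_const, Nat.card_Icc, smul_eq_mul, ← mul_sum (f := c), h1, mul_sum] at h4
  have h5 : ∑ O ∈ orbs f, 2 * (S.iv O).card ≤ ∑ O ∈ orbs f, O.card :=
    sum_le_sum fun O hO => two_iv_le S hO
  rw [sum_card_orbs, ← two_M_add S] at h5
  omega

end Pool.Agent.SYT
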