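import Pool.Agent.SYT.CycB

/-!
# SYT-OrbS: unordered orbits of pairs under one permutation

Project SYT (MP_a3a126_co). Elementary facts on `orb f p` (a set of ordered pairs closed under swap and under
`f`) and the partition `orbs f` of `off V`.
-/

set_option autoImplicit false

open Finset

namespace Pool.Agent.SYT

variable {V : Type} [Fintype V] [DecidableEq V] (f : Equiv.Perm V)

theorem mem_orb {p q : V × V} :
    q ∈ orb f p ↔ ∃ i : ℕ, q = mv (f ^ i) p ∨ q = (mv (f ^ i) p).swap := by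
  simp [orb, mv, Prod.swap]

theorem self_mem_orb (p : V × V) : p ∈ orb f p :=
  (mem_orb f).2 ⟨0, Or.inl rfl⟩

theorem swap_mem_orb {p q : V × V} : q.swap ∈ orb f p ↔ q ∈ orb f p := by
  rw [mem_orb, mem_orb]
  constructor
  · rintro ⟨i, h | h⟩
    · exact ⟨i, Or.inr (by rw [← h, Prod.swap_swap])⟩
    · exact ⟨i, Or.inl (by rw [← Prod.swap_swap q, h, Prod.swap_swap])⟩
  · rintro ⟨i, h | h⟩
    · exact ⟨i, Or.inr (by rw [h])⟩
    · exact ⟨i, Or.inl (by rw [h, Prod.swap_swap])⟩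

private theorem orbs_trans {p q r : V × V} (h : q ∈ orb f p) (h' : r ∈ orb f q) : r ∈ orb f p := by
  rw [mem_orb] at h h' ⊢
  obtain ⟨i, hi⟩ := h
  obtain ⟨j, hj⟩ := h'
  refine ⟨j + i, ?_⟩
  rw [pow_add, mv_mul]
  rcases hi with rfl | rfl
  · exact hj
  · rw [mv_swap, Prod.swap_swap] at hj
    exact hj.symm

private theorem orbs_symm {p q : V × V} (h : q ∈ orb f p) : p ∈ orb f q := by
  rw [mem_orb] at h
  obtain ⟨i, hi⟩ := h
  obtain ⟨j, hj⟩ := pow_inv_mem f i
  have h1 : p ∈ orb f (mv (f ^ i) p) := (mem_orb f).2 ⟨j, Or.inl (by rw [← hj, mv_inv_mv])⟩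
  rcases hi with rfl | rfl
  · exact h1
  · refine orbs_trans f ?_ h1
    exact (mem_orb f).2 ⟨0, Or.inr (by rw [pow_zero, mv_one, Prod.swap_swap])⟩

theorem pow_mem_orb {p q : V × V} (i : ℕ) : mv (f ^ i) q ∈ orb f p ↔ q ∈ orb f p := by
  have h1 : mv (f ^ i) q ∈ orb f q := (mem_orb f).2 ⟨i, Or.inl rfl⟩
  exact ⟨fun h => orbs_trans f h (orbs_symm f h1), fun h => orbs_trans f h h1⟩

theorem mv_mem_orb {p q : V × V} : mv f q ∈ orb f p ↔ q ∈ orb f p := by
  have h1 := pow_mem_orb f (p := p) (q := q) 1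
  rwa [pow_one] at h1

theorem orb_eq {p q : V × V} (h : q ∈ orb f p) : orb f q = orb f p := by
  ext r
  exact ⟨fun h' => orbs_trans f h h', fun h' => orbs_trans f (orbs_symm f h) h'⟩

theorem orb_sub_off {p : V × V} (hp : p.1 ≠ p.2) : orb f p ⊆ off V := by
  intro q hq
  obtain ⟨i, rfl | rfl⟩ := (mem_orb f).1 hq
  · exact mem_off.2 (mv_off.2 hp)
  · exact mem_off.2 (mv_off.2 hp).symm

theorem orb_mem_orbs {p : V × V} (hp : p.1 ≠ p.2) : orb f p ∈ orbs f := by
  classical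
  exact mem_image_of_mem _ (mem_off.2 hp)

theorem exists_orb {O : Finset (V × V)} (hO : O ∈ orbs f) : ∃ p, p.1 ≠ p.2 ∧ O = orb f p := by
  classical
  obtain ⟨p, hp, rfl⟩ := mem_image.1 hO
  exact ⟨p, mem_off.1 hp, rfl⟩

theorem eq_orb {O : Finset (V × V)} (hO : O ∈ orbs f) {q : V × V} (hq : q ∈ O) :
    O = orb f q := by
  obtain ⟨p, -, rfl⟩ := exists_orb f hO
  exact (orb_eq f hq).symm

theorem orbs_disj {O O' : Finset (V × V)} (hO : O ∈ orbs f) (hO' : O' ∈ orbs f) (h : O ≠ O') :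
    Disjoint O O' := by
  rw [disjoint_left]
  intro q hq hq'
  exact h ((eq_orb f hO hq).trans (eq_orb f hO' hq').symm)

theorem sum_orbs {M : Type*} [AddCommMonoid M] (F : V × V → M) :
    ∑ O ∈ orbs f, ∑ q ∈ O, F q = ∑ q ∈ off V, F q := by
  have h : (orbs f).biUnion id = off V := by
    ext q
    rw [mem_biUnion]
    constructor
    · rintro ⟨O, hO, hq⟩
      obtain ⟨p, hp, rfl⟩ := exists_orb f hO
      exact orb_sub_off f hp hq
    · intro hq
      exact ⟨orb f q, orb_mem_orbs f (mem_off.1 hq), self_mem_orb f q⟩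
  rw [← h, sum_biUnion]
  · rfl
  · intro O hO O' hO' h
    exact orbs_disj f hO hO' h

theorem sum_card_orbs : ∑ O ∈ orbs f, O.card = Fintype.card V * (Fintype.card V - 1) := by
  have h := sum_orbs f (fun _ : V × V => 1)
  rw [← card_off]
  simpa using h

end Pool.Agent.SYT
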