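import Pool.Agent.SYT.Cls

/-!
# SYT-Sheet: sheets of pairs with second state in a component `Z`

Project SYT (MP_a3a126_co), paper proof in /team-store/a3a126_87.md, section 2. Elementary facts on the
equivalence `EqvGen (S.Stp Z)` on `base Z` (`Stp Z p q`: some letter `g` in `P` maps `p` to `q`, both second
states are in `Z`).
-/

set_option autoImplicit false

open Finset

namespace Pool.Agent.SYT

variable {V : Type} [Fintype V] [DecidableEq V]

theorem mem_base {Z : Finset V} {p : V × V} : p ∈ base Z ↔ p.1 ≠ p.2 ∧ p.2 ∈ Z := by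
  simp [base, mem_off]

variable (S : Sys V)

theorem mem_sh {Z : Finset V} {p q : V × V} : q ∈ S.sh Z p ↔ Relation.EqvGen (S.Stp Z) p q := by
  simp [Sys.sh]

theorem self_mem_sh (Z : Finset V) (p : V × V) : p ∈ S.sh Z p := by
  exact (mem_sh S).2 (Relation.EqvGen.refl p)

private theorem sht_base {Z : Finset V} {p q : V × V} (h : Relation.EqvGen (S.Stp Z) p q) :
    p ∈ base Z ↔ q ∈ base Z := by
  induction h with
  | rel p q h =>
    obtain ⟨h1, g, _, h2, rfl⟩ := h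
    rw [mem_base, mem_base, mv_off, and_iff_left h1]
    exact (and_iff_left h2).symm
  | refl p => exact Iff.rfl
  | symm p q _ ih => exact ih.symm
  | trans p q r _ _ ih1 ih2 => exact ih1.trans ih2

theorem sh_sub_base {Z : Finset V} {p : V × V} (hp : p ∈ base Z) : S.sh Z p ⊆ base Z := by
  intro q hq
  exact (sht_base S ((mem_sh S).1 hq)).1 hp

theorem sh_eq {Z : Finset V} {p q : V × V} (h : q ∈ S.sh Z p) : S.sh Z q = S.sh Z p := by
  have h1 := (mem_sh S).1 h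
  ext r
  rw [mem_sh, mem_sh]
  exact ⟨fun h2 => h1.trans _ _ _ h2, fun h2 => (h1.symm _ _).trans _ _ _ h2⟩

theorem sh_mem_sheets {Z : Finset V} {p : V × V} (hp : p ∈ base Z) : S.sh Z p ∈ S.sheets Z := by
  exact mem_image_of_mem _ hp

theorem sheet_sub_base {Z : Finset V} {Q : Finset (V × V)} (hQ : Q ∈ S.sheets Z) : Q ⊆ base Z := by
  obtain ⟨p, hp, rfl⟩ := mem_image.1 hQ
  exact sh_sub_base S hp

theorem sheet_eq {Z : Finset V} {Q : Finset (V × V)} (hQ : Q ∈ S.sheets Z) {q : V × V}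
    (hq : q ∈ Q) : Q = S.sh Z q := by
  obtain ⟨p, hp, rfl⟩ := mem_image.1 hQ
  exact (sh_eq S hq).symm

theorem sheet_nonempty {Z : Finset V} {Q : Finset (V × V)} (hQ : Q ∈ S.sheets Z) : Q.Nonempty := by
  obtain ⟨p, hp, rfl⟩ := mem_image.1 hQ
  exact ⟨p, self_mem_sh S Z p⟩

theorem sheets_disj {Z : Finset V} {Q Q' : Finset (V × V)} (hQ : Q ∈ S.sheets Z)
    (hQ' : Q' ∈ S.sheets Z) (h : Q ≠ Q') : Disjoint Q Q' := by
  rw [Finset.disjoint_left]
  intro q h1 h2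
  exact h ((sheet_eq S hQ h1).trans (sheet_eq S hQ' h2).symm)

theorem sum_sheets {M : Type*} [AddCommMonoid M] (Z : Finset V) (F : V × V → M) :
    ∑ Q ∈ S.sheets Z, ∑ q ∈ Q, F q = ∑ q ∈ base Z, F q := by
  rw [← Finset.sum_fiberwise_of_maps_to (g := S.sh Z) (t := S.sheets Z)
    (fun p hp => sh_mem_sheets S hp)]
  refine sum_congr rfl fun Q hQ => ?_
  refine sum_congr ?_ fun _ _ => rfl
  ext q
  rw [mem_filter]
  constructor
  · intro hq
    exact ⟨sheet_sub_base S hQ hq, (sheet_eq S hQ hq).symm⟩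
  · rintro ⟨-, rfl⟩
    exact self_mem_sh S Z q

theorem sheet_step {Z : Finset V} {Q : Finset (V × V)} (hQ : Q ∈ S.sheets Z) {q : V × V}
    (hq : q ∈ Q) {g : Equiv.Perm V} (hg : g ∈ S.P) (h : g q.2 ∈ Z) : mv g q ∈ Q := by
  rw [sheet_eq S hQ hq, mem_sh]
  exact Relation.EqvGen.rel _ _ ⟨(mem_base.1 (sheet_sub_base S hQ hq)).2, g, hg, h, rfl⟩

theorem sheet_back {Z : Finset V} {Q : Finset (V × V)} (hQ : Q ∈ S.sheets Z) {q : V × V}
    (hq : q.2 ∈ Z) {g : Equiv.Perm V} (hg : g ∈ S.P) (h : mv g q ∈ Q) : q ∈ Q := by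
  rw [sheet_eq S hQ h, mem_sh]
  exact Relation.EqvGen.symm _ _ (Relation.EqvGen.rel _ _
    ⟨hq, g, hg, (mem_base.1 (sheet_sub_base S hQ h)).2, rfl⟩)

theorem sheet_gamma {P1 : Set (Equiv.Perm V)} (h1 : P1 ⊆ S.P) {Z : Finset V}
    (hZ : Z ∈ comps (Subgroup.closure P1)) {Q : Finset (V × V)} (hQ : Q ∈ S.sheets Z)
    {γ : Equiv.Perm V} (hγ : γ ∈ Subgroup.closure P1) {q : V × V} (hq : q ∈ Q) : mv γ q ∈ Q := by
  refine closure_closed (fun g hg q hq => ?_) hγ q hq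
  exact sheet_step S hQ hq (h1 hg) ((apply_mem hZ (Subgroup.subset_closure hg)).2
    (mem_base.1 (sheet_sub_base S hQ hq)).2)

theorem phi_const {P1 : Set (Equiv.Perm V)} (h1 : P1 ⊆ S.P) {Z : Finset V}
    (hZ : Z ∈ comps (Subgroup.closure P1)) {Q : Finset (V × V)} (hQ : Q ∈ S.sheets Z) {x y : V}
    (h : y ∈ cls (Subgroup.closure P1) x) : phi Q y = phi Q x := by
  obtain ⟨γ, hγ, rfl⟩ := mem_cls.1 h
  have h2 : (Q.filter fun q => q.1 = γ x) = (Q.filter fun q => q.1 = x).image (mv γ) := by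
    ext q
    rw [mem_filter, mem_image]
    constructor
    · rintro ⟨hq, h3⟩
      refine ⟨mv γ⁻¹ q, mem_filter.2 ⟨sheet_gamma S h1 hZ hQ (inv_mem hγ) hq, ?_⟩, mv_mv_inv γ q⟩
      show γ⁻¹ q.1 = x
      rw [h3, ← Equiv.Perm.mul_apply, inv_mul_cancel, Equiv.Perm.one_apply]
    · rintro ⟨r, hr, rfl⟩
      obtain ⟨h4, h5⟩ := mem_filter.1 hr
      refine ⟨sheet_gamma S h1 hZ hQ hγ h4, ?_⟩
      show γ r.1 = γ x
      rw [h5]
  unfold phi
  rw [h2, card_image_of_injective _ (mv_injective γ)]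

/-- counting by the first state -/
theorem sum_phi_set (Q : Finset (V × V)) (X : Finset V) :
    (Q.filter fun q => q.1 ∈ X).card = ∑ x ∈ X, phi Q x := by
  have h0 : ∀ q ∈ ((Q.filter fun q => q.1 ∈ X : Finset (V × V)) : Set (V × V)),
      q.1 ∈ (X : Set V) := fun q hq => (mem_filter.1 (mem_coe.1 hq)).2
  rw [Finset.card_eq_sum_card_fiberwise (f := Prod.fst) (t := X) h0]
  refine sum_congr rfl fun x hx => ?_
  unfold phi
  congr 1
  ext q
  rw [mem_filter, mem_filter, mem_filter]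
  constructor
  · rintro ⟨⟨h1, -⟩, h2⟩
    exact ⟨h1, h2⟩
  · rintro ⟨h1, h2⟩
    exact ⟨⟨h1, by rw [h2]; exact hx⟩, h2⟩

end Pool.Agent.SYT
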