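import Pool.Agent.SYT.FixM
import Pool.Agent.SYT.NearId
import Pool.Agent.SYT.NearB
import Pool.Agent.SYT.NearS

/-!
# SYT-TypeI: if all cycles of `f` are long then `f` is the only letter besides the identity

Project SYT (MP_a3a126_co), paper proof in /team-store/a3a126_87.md, section 4.
-/

set_option autoImplicit false

open Finset

namespace Pool.Agent.SYT

private theorem tI_arith1 {K n d : ℕ} (hK1 : 1 ≤ K) (hn : 1000000 * K ^ 3 ≤ n)
    (hd : 2000000 * K ^ 4 * d ≤ n ^ 2) :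
    65536 * K ^ 2 * (12 * d + (2 * K + 4) * n) ≤ n ^ 2 := by
  have h1 : K ^ 2 * d ≤ K ^ 4 * d := Nat.mul_le_mul_right _ (Nat.pow_le_pow_right hK1 (by norm_num))
  have h2 : K ^ 2 ≤ K ^ 3 := Nat.pow_le_pow_right hK1 (by norm_num)
  have h3 : K ^ 2 * n ≤ K ^ 3 * n := Nat.mul_le_mul_right _ h2
  have h4 : 1000000 * K ^ 3 * n ≤ n * n := Nat.mul_le_mul_right _ hn
  calc 65536 * K ^ 2 * (12 * d + (2 * K + 4) * n)
      = 786432 * (K ^ 2 * d) + 131072 * (K ^ 3 * n) + 262144 * (K ^ 2 * n) := by ring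
    _ ≤ 786432 * (K ^ 4 * d) + 131072 * (K ^ 3 * n) + 262144 * (K ^ 3 * n) := by omega
    _ ≤ n ^ 2 := by nlinarith

private theorem tI_arith2 {K n t E : ℕ} (hK1 : 1 ≤ K) (hn : 1000000 * K ^ 3 ≤ n)
    (ht : t = n / (128 * K)) (hE : 65536 * K ^ 2 * E ≤ n ^ 2) : E ≤ t ^ 2 ∧ 128 * K * t ≤ n := by
  have h0 : 0 < 128 * K := by omega
  have h1 : 128 * K * t ≤ n := by
    rw [ht]
    exact Nat.mul_div_le _ _
  have h2 : n < 128 * K * (t + 1) := by
    rw [ht]
    exact Nat.lt_mul_div_succ n h0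
  have h3 : K ≤ K ^ 3 := by
    calc K = K ^ 1 := (pow_one K).symm
      _ ≤ K ^ 3 := Nat.pow_le_pow_right hK1 (by norm_num)
  have h4 : 1 ≤ t := by
    rw [ht]
    exact (Nat.one_le_div_iff h0).2 (by omega)
  have h5 : n ≤ 256 * K * t := by nlinarith
  refine ⟨?_, h1⟩
  have h6 : n ^ 2 ≤ (256 * K * t) ^ 2 := Nat.pow_le_pow_left h5 2
  have h7 : (65536 * K ^ 2) * E ≤ (65536 * K ^ 2) * t ^ 2 := by
    calc (65536 * K ^ 2) * E ≤ n ^ 2 := hE
      _ ≤ (256 * K * t) ^ 2 := h6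
      _ = (65536 * K ^ 2) * t ^ 2 := by ring
  exact Nat.le_of_mul_le_mul_left h7 (by positivity)

variable {V : Type} [Fintype V] [DecidableEq V] (S : Sys V) {f : Equiv.Perm V}

omit [Fintype V] [DecidableEq V] in
private theorem tI_arith3 {K n m E : ℕ} (hn0 : 0 < n) (hE : 65536 * K ^ 2 * E ≤ n ^ 2)
    (hK1 : 1 ≤ K) (h : n * m ≤ 2 * E) : 64 * K * m ≤ n := by
  have h1 : K * E ≤ K ^ 2 * E := Nat.mul_le_mul_right _ (by nlinarith)
  have h2 : n * (64 * K * m) ≤ n * n := by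
    calc n * (64 * K * m) = 64 * K * (n * m) := by ring
      _ ≤ 64 * K * (2 * E) := Nat.mul_le_mul_left _ h
      _ = 128 * (K * E) := by ring
      _ ≤ n * n := by nlinarith
  exact Nat.le_of_mul_le_mul_left h2 hn0

omit [Fintype V] [DecidableEq V] in
private theorem tI_arith4 {K n m E t : ℕ} (hn0 : 0 < n) (hE : 65536 * K ^ 2 * E ≤ n ^ 2)
    (hK1 : 1 ≤ K) (ht : 128 * K * t ≤ n) (hn : 1000000 * K ^ 3 ≤ n)
    (h : n * m ≤ 2 * E + n * (t + 5)) : 32 * K * m ≤ n := by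
  have h1 : K * E ≤ K ^ 2 * E := Nat.mul_le_mul_right _ (by nlinarith)
  have h3 : K ≤ K ^ 3 := by
    calc K = K ^ 1 := (pow_one K).symm
      _ ≤ K ^ 3 := Nat.pow_le_pow_right hK1 (by norm_num)
  have h4 : n * (128 * K * t) ≤ n * n := Nat.mul_le_mul_left _ ht
  have h5 : n * (1000000 * K) ≤ n * n := Nat.mul_le_mul_left _ (by omega)
  have h2 : n * (32 * K * m) ≤ n * n := by
    calc n * (32 * K * m) = 32 * K * (n * m) := by ring
      _ ≤ 32 * K * (2 * E + n * (t + 5)) := Nat.mul_le_mul_left _ h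
      _ = 64 * (K * E) + n * (32 * K * t) + n * (160 * K) := by ring
      _ ≤ n * n := by nlinarith
  exact Nat.le_of_mul_le_mul_left h2 hn0

theorem type_one (hf : f ∈ S.P) {K : ℕ} (hK1 : 1 ≤ K)
    (hK : ∀ x, Fintype.card V ≤ K * (cyc f x).card)
    (hn : 1000000 * K ^ 3 ≤ Fintype.card V)
    (hd : 2000000 * K ^ 4 * S.d ≤ Fintype.card V ^ 2) {g : Equiv.Perm V} (hg : g ∈ S.P) :
    g = 1 ∨ g = f := by
  obtain ⟨n, hnn⟩ : ∃ n, n = Fintype.card V := ⟨_, rfl⟩
  have hK3 : K ≤ K ^ 3 := by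
    calc K = K ^ 1 := (pow_one K).symm
      _ ≤ K ^ 3 := Nat.pow_le_pow_right hK1 (by norm_num)
  have hn0 : 0 < n := by omega
  have hnK : 1000000 * K ≤ n := by omega
  -- the number of components
  obtain ⟨C, hC⟩ : ∃ C, C = comps (Subgroup.closure ({f} : Set (Equiv.Perm V))) := ⟨_, rfl⟩
  have hr : C.card ≤ K := by
    have h1 : ∑ Y ∈ C, n ≤ ∑ Y ∈ C, K * Y.card := by
      refine sum_le_sum fun Y hY => ?_
      rw [hC] at hY
      obtain ⟨x, -, hx⟩ := exists_rep hY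
      rw [hnn, hx]
      exact hK x
    rw [sum_const, smul_eq_mul, ← mul_sum, hC, sum_card_comps, ← hC, ← hnn] at h1
    exact Nat.le_of_mul_le_mul_right h1 hn0
  -- no fixed states
  have hfix : ∀ x, f x ≠ x := by
    intro x hx
    have h1 : cls (Subgroup.closure ({f} : Set (Equiv.Perm V))) x ⊆ {x} := by
      refine cls_sub ?_ (mem_singleton_self x)
      intro g' hg' z hz
      rw [Set.mem_singleton_iff] at hg'
      rw [mem_singleton] at hz ⊢
      rw [hg', hz, hx]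
    have h2 := card_le_card h1
    rw [card_singleton] at h2
    have h3 : (cyc f x).card ≤ 1 := h2
    have h4 := hK x
    have h5 : K * (cyc f x).card ≤ K * 1 := Nat.mul_le_mul_left _ h3
    omega
  obtain ⟨E, hE⟩ : ∃ E, E = 12 * S.d + (2 * K + 4) * n := ⟨_, rfl⟩
  have hEc : (Ec f g).card + 2 * Fintype.card V ≤ E := by
    have h1 := card_Ec S hf hg
    rw [← hC, ← hnn] at h1
    rw [hE, ← hnn]
    have h2 : 2 * (C.card + 1) * n ≤ 2 * (K + 1) * n :=
      Nat.mul_le_mul_right _ (by omega)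
    have h3 : (2 * K + 4) * n = 2 * (K + 1) * n + 2 * n := by ring
    omega
  rw [← hnn] at hn hd
  have hE1 : 65536 * K ^ 2 * E ≤ n ^ 2 := by
    rw [hE]
    exact tI_arith1 hK1 hn hd
  obtain ⟨t, ht⟩ : ∃ t, t = n / (128 * K) := ⟨_, rfl⟩
  obtain ⟨ht1, ht2⟩ := tI_arith2 hK1 hn ht hE1
  have hd1 : 1000 * K ^ 2 * S.d ≤ n ^ 2 := by
    refine le_trans ?_ hd
    refine Nat.mul_le_mul_right _ ?_
    have : K ^ 2 ≤ K ^ 4 := Nat.pow_le_pow_right hK1 (by norm_num)
    omega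
  rcases near_or hfix g hEc ht1 with h | h
  · left
    rw [← hnn] at h
    refine near_id S hf hg hK1 hK ?_ ?_ ?_
    · rw [← hnn]
      exact tI_arith3 hn0 hE1 hK1 h
    · omega
    · rw [← hnn]
      exact hd1
  · right
    rw [← hnn] at h
    have h1 : 32 * K * (univ.filter fun x => f x ≠ g x).card ≤ Fintype.card V := by
      rw [← hnn]
      exact tI_arith4 hn0 hE1 hK1 ht2 hn h
    have h2 := near_big S hf hg hK1 hK h1 (by omega) (by rw [← hnn]; exact hd1)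
    refine near_small S hf hg hK1 hK h2 ?_ ?_
    · omega
    · rw [← hnn]
      refine le_trans ?_ hd
      refine Nat.mul_le_mul_right _ ?_
      omega

end Pool.Agent.SYT
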